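import Mathlib

/-!
# The equational criterion for flatness over a noncommutative ring
-/

namespace Run7.h150

universe u v w

section

variable {S : Type u} [Ring S] {M : Type v} [AddCommGroup M] [Module S M]

/-- The relation `∑ s i • m i = 0` is trivial. -/
def TrivRel {ι : Type w} [Fintype ι] (s : ι → S) (m : ι → M) : Prop :=
  ∃ (q : ℕ) (m' : Fin q → M) (u : ι → Fin q → S),
    (∀ i, m i = ∑ k, u i k • m' k) ∧ ∀ k, ∑ i, s i * u i k = 0

variable (S M) in
/-- The equational criterion. -/
def EqFlat : Prop :=
  ∀ (p : ℕ) (s : Fin p → S) (m : Fin p → M), ∑ i, s i • m i = 0 → TrivRel s m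

theorem TrivRel.of {ι : Type w} [Fintype ι] (s : ι → S) (m : ι → M) {κ : Type*} [Fintype κ]
    (m' : κ → M) (u : ι → κ → S) (h1 : ∀ i, m i = ∑ k, u i k • m' k)
    (h2 : ∀ k, ∑ i, s i * u i k = 0) : TrivRel s m := by
  classical
  refine ⟨Fintype.card κ, fun k => m' ((Fintype.equivFin κ).symm k),
    fun i k => u i ((Fintype.equivFin κ).symm k), fun i => ?_, fun k => h2 _⟩
  rw [h1 i]
  exact (Equiv.sum_comp (Fintype.equivFin κ).symm (fun k => u i k • m' k)).symm

theorem EqFlat.vec (h : EqFlat S M) {ι : Type w} [Fintype ι] (s : ι → S) (m : ι → M)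
    (h0 : ∑ i, s i • m i = 0) : TrivRel s m := by
  classical
  set e := (Fintype.equivFin ι).symm with he
  obtain ⟨q, m', u, h1, h2⟩ := h (Fintype.card ι) (fun i => s (e i)) (fun i => m (e i)) (by
    rw [← h0]
    exact Equiv.sum_comp e (fun i => s i • m i))
  refine ⟨q, m', fun i k => u (e.symm i) k, fun i => ?_, fun k => ?_⟩
  · have := h1 (e.symm i)
    simp only at this
    rwa [Equiv.apply_symm_apply] at this
  · rw [← h2 k, ← Equiv.sum_comp e]
    simp

/-- Matrix form of the equational criterion. -/
theorem EqFlat.mat (h : EqFlat S M) {ι : Type w} [Fintype ι] {σ : Type*} (c : Finset σ)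
    (s : σ → ι → S) (m : ι → M) (h0 : ∀ x ∈ c, ∑ i, s x i • m i = 0) :
    ∃ (q : ℕ) (m' : Fin q → M) (u : ι → Fin q → S),
      (∀ i, m i = ∑ k, u i k • m' k) ∧ ∀ x ∈ c, ∀ k, ∑ i, s x i * u i k = 0 := by
  classical
  induction c using Finset.induction_on with
  | empty =>
    obtain ⟨q, m', u, h1, -⟩ := h.vec (fun _ : ι => (0 : S)) m (by simp)
    exact ⟨q, m', u, h1, by simp⟩
  | @insert y c hy ih =>
    obtain ⟨q, m', u, h1, h2⟩ := ih (fun x hx => h0 x (Finset.mem_insert_of_mem hx))
    obtain ⟨q', m'', v, h3, h4⟩ := h.vec (fun k : Fin q => ∑ i, s y i * u i k) m' (by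
      have := h0 y (Finset.mem_insert_self y c)
      rw [← this]
      simp only [Finset.sum_smul]
      rw [Finset.sum_comm]
      refine Finset.sum_congr rfl fun i _ => ?_
      conv_rhs => rw [h1 i]
      rw [Finset.smul_sum]
      exact Finset.sum_congr rfl fun k _ => by rw [mul_smul])
    refine ⟨q', m'', fun i l => ∑ k, u i k * v k l, ?_, ?_⟩
    · intro i
      rw [h1 i]
      simp only [Finset.sum_smul]
      rw [Finset.sum_comm]
      refine Finset.sum_congr rfl fun k _ => ?_
      rw [h3 k, Finset.smul_sum]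
      exact Finset.sum_congr rfl fun l _ => by rw [mul_smul]
    · intro x hx l
      have e : ∑ i, s x i * ∑ k, u i k * v k l = ∑ k, (∑ i, s x i * u i k) * v k l := by
        simp only [Finset.mul_sum, Finset.sum_mul, mul_assoc]
        rw [Finset.sum_comm]
      rw [e]
      rcases Finset.mem_insert.1 hx with rfl | hx
      · exact h4 l
      · exact Finset.sum_eq_zero fun k _ => by rw [h2 x hx k, zero_mul]

variable {K : Type*} [AddCommGroup K] [Module S K] {P : Type*} [AddCommGroup P] [Module S P]
  {F : Type*} [AddCommGroup F] [Module S F]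

/-- Kernels of surjections between flat modules are flat. -/
theorem EqFlat.of_exact_left (i : K →ₗ[S] P) (f : P →ₗ[S] F) (hi : Function.Injective i)
    (hif : ∀ x, f x = 0 ↔ ∃ y, i y = x) (hf : Function.Surjective f)
    (hP : EqFlat S P) (hF : EqFlat S F) : EqFlat S K := by
  intro p s k hk
  obtain ⟨q, p', u, h1, h2⟩ := hP p s (fun j => i (k j)) (by
    have := congrArg i hk
    rw [map_sum, map_zero] at this
    simpa using this)
  replace h1 : ∀ j, i (k j) = ∑ l, u j l • p' l := h1
  obtain ⟨q', f', v, h3, h4⟩ := hF.mat (Finset.univ : Finset (Fin p)) (fun j l => u j l)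
    (fun l => f (p' l)) (by
      intro j _
      have : f (i (k j)) = 0 := (hif _).2 ⟨_, rfl⟩
      rw [h1 j, map_sum] at this
      simpa using this)
  choose g hg using hf
  have hker : ∀ l, f (p' l - ∑ t, v l t • g (f' t)) = 0 := by
    intro l
    rw [map_sub, map_sum, h3 l]
    simp [hg]
  choose k' hk' using fun l => (hif _).1 (hker l)
  refine ⟨q, k', u, ?_, h2⟩
  intro j
  apply hi
  rw [h1 j, map_sum]
  simp only [map_smul, hk', smul_sub, Finset.sum_sub_distrib, Finset.smul_sum]
  have : ∑ l, ∑ t, u j l • v l t • g (f' t) = 0 := by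
    rw [Finset.sum_comm]
    refine Finset.sum_eq_zero fun t _ => ?_
    simp only [← mul_smul]
    rw [← Finset.sum_smul, h4 j (Finset.mem_univ j) t, zero_smul]
  rw [this, sub_zero]

/-- Extensions of flat modules are flat. -/
theorem EqFlat.of_exact_mid (i : K →ₗ[S] P) (f : P →ₗ[S] F)
    (hif : ∀ x, f x = 0 ↔ ∃ y, i y = x) (hi : Function.Injective i)
    (hf : Function.Surjective f)
    (hK : EqFlat S K) (hF : EqFlat S F) : EqFlat S P := by
  intro p s m hm
  obtain ⟨q, f', u, h1, h2⟩ := hF p s (fun j => f (m j)) (by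
    have := congrArg f hm
    rw [map_sum, map_zero] at this
    simpa using this)
  replace h1 : ∀ j, f (m j) = ∑ t, u j t • f' t := h1
  choose g hg using hf
  have hker : ∀ j, f (m j - ∑ t, u j t • g (f' t)) = 0 := by
    intro j
    rw [map_sub, map_sum, h1 j]
    simp [hg]
  choose k hk using fun j => (hif _).1 (hker j)
  obtain ⟨q', k', v, h3, h4⟩ := hK p s k (by
    apply hi
    rw [map_sum, map_zero]
    simp only [map_smul, hk, smul_sub, Finset.sum_sub_distrib, hm, Finset.smul_sum]
    rw [Finset.sum_comm, zero_sub, neg_eq_zero]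
    refine Finset.sum_eq_zero fun t _ => ?_
    simp only [← mul_smul]
    rw [← Finset.sum_smul, h2 t, zero_smul])
  refine TrivRel.of s m (κ := Fin q ⊕ Fin q') (Sum.elim (fun t => g (f' t)) (fun t => i (k' t)))
    (fun j => Sum.elim (u j) (v j)) ?_ ?_
  · intro j
    rw [Fintype.sum_sum_type]
    simp only [Sum.elim_inl, Sum.elim_inr]
    have := hk j
    rw [h3 j, map_sum] at this
    simp only [map_smul] at this
    rw [this]; abel
  · intro t
    cases t with
    | inl t => exact h2 t
    | inr t => exact h4 t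

theorem EqFlat.equiv (e : K ≃ₗ[S] P) (h : EqFlat S K) : EqFlat S P := by
  intro p s m hm
  obtain ⟨q, m', u, h1, h2⟩ := h p s (fun i => e.symm (m i)) (by
    have := congrArg e.symm hm
    rw [map_sum, map_zero] at this
    simpa using this)
  refine ⟨q, fun k => e (m' k), u, fun i => ?_, h2⟩
  have := congrArg e (h1 i)
  rw [LinearEquiv.apply_symm_apply, map_sum] at this
  simpa using this

/-- Free modules are flat. -/
theorem EqFlat.finsupp (X : Type*) : EqFlat S (X →₀ S) := by
  classical
  intro p s m hm
  set c : Finset X := Finset.univ.biUnion (fun i => (m i).support) with hc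
  refine TrivRel.of s m (κ := c) (fun x => Finsupp.single (x : X) (1 : S))
    (fun i x => m i x) ?_ ?_
  · intro i
    ext y
    rw [Finsupp.finsetSum_apply]
    simp only [Finsupp.smul_apply, Finsupp.single_apply, smul_eq_mul, mul_ite, mul_one,
      mul_zero]
    by_cases hy : y ∈ c
    · rw [Finset.sum_eq_single (⟨y, hy⟩ : c)]
      · simp
      · rintro ⟨b, hb⟩ _ hne
        rw [if_neg]
        intro h; exact hne (Subtype.ext h)
      · intro h; exact absurd (Finset.mem_univ _) h
    · have : m i y = 0 := by
        by_contra h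
        exact hy (Finset.mem_biUnion.2 ⟨i, Finset.mem_univ i, Finsupp.mem_support_iff.2 h⟩)
      rw [this]
      symm
      refine Finset.sum_eq_zero fun x _ => ?_
      rw [if_neg]
      intro h; exact hy (h ▸ x.2)
  · intro x
    have := DFunLike.congr_fun hm (x : X)
    rw [Finsupp.finsetSum_apply] at this
    simpa using this

end

section

variable {S : Type u} [Ring S] {M : Type v} [AddCommGroup M] [Module S M]
  {F : Type*} [AddCommGroup F] [Module S F] {F' : Type*} [AddCommGroup F'] [Module S F']

/-- Kernels of flat covers of a module are flat together. -/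
theorem EqFlat.schanuel (f : F →ₗ[S] M) (f' : F' →ₗ[S] M) (hf : Function.Surjective f)
    (hf' : Function.Surjective f') (hF : EqFlat S F) (hF' : EqFlat S F')
    (hk' : EqFlat S (LinearMap.ker f')) : EqFlat S (LinearMap.ker f) := by
  set P : Submodule S (F × F') :=
    LinearMap.ker (f.comp (LinearMap.fst S F F') - f'.comp (LinearMap.snd S F F')) with hP
  have hmem : ∀ x : F × F', x ∈ P ↔ f x.1 = f' x.2 := by
    intro x
    rw [hP, LinearMap.mem_ker, LinearMap.sub_apply, sub_eq_zero]
    rfl
  have hPflat : EqFlat S P := by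
    refine EqFlat.of_exact_mid (K := LinearMap.ker f') (P := P) (F := F)
      ((LinearMap.inr S F F').restrict (p := LinearMap.ker f') (q := P) (by
        intro y hy
        rw [hmem]
        simp [LinearMap.mem_ker.1 hy]))
      ((LinearMap.fst S F F').comp P.subtype) ?_ ?_ ?_ hk' hF
    · intro x
      constructor
      · intro hx
        have hx1 : (x : F × F').1 = 0 := hx
        have hx2 := (hmem _).1 x.2
        rw [hx1, map_zero] at hx2
        refine ⟨⟨(x : F × F').2, LinearMap.mem_ker.2 hx2.symm⟩, ?_⟩
        apply Subtype.ext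
        apply Prod.ext
        · simp [hx1]
        · simp
      · rintro ⟨y, rfl⟩
        simp
    · intro y y' h
      have := congrArg (fun z : P => (z : F × F').2) h
      exact Subtype.ext (by simpa using this)
    · intro x
      obtain ⟨y, hy⟩ := hf' (f x)
      exact ⟨⟨(x, y), (hmem _).2 hy.symm⟩, rfl⟩
  refine EqFlat.of_exact_left (K := LinearMap.ker f) (P := P) (F := F')
    ((LinearMap.inl S F F').restrict (p := LinearMap.ker f) (q := P) (by
      intro y hy
      rw [hmem]
      simp [LinearMap.mem_ker.1 hy]))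
    ((LinearMap.snd S F F').comp P.subtype) ?_ ?_ ?_ hPflat hF'
  · intro y y' h
    have := congrArg (fun z : P => (z : F × F').1) h
    exact Subtype.ext (by simpa using this)
  · intro x
    constructor
    · intro hx
      have hx1 : (x : F × F').2 = 0 := hx
      have hx2 := (hmem _).1 x.2
      rw [hx1, map_zero] at hx2
      refine ⟨⟨(x : F × F').1, LinearMap.mem_ker.2 hx2⟩, ?_⟩
      apply Subtype.ext
      apply Prod.ext
      · simp
      · simp [hx1]
    · rintro ⟨y, rfl⟩
      simp
  · intro y
    obtain ⟨x, hx⟩ := hf (f' y)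
    exact ⟨⟨(x, y), (hmem _).2 hx⟩, rfl⟩

end

end Run7.h150
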