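import Pool.Agent.Run7.h150.Start

/-!
# The good idempotent
-/

namespace Run7.h150

open PowerSeries MulOpposite

universe u

variable {B : Type u} [Ring B]

/-- Duality over a von Neumann regular ring: an element killed by all leading coefficients of
left solutions of `t * r = 0` modulo `X ^ n` is a leading coefficient of a right multiple of
`r`. -/
theorem duality (hV : VNR B) (r : B⟦X⟧) (n : ℕ) (hn : 1 ≤ n) (φ : B)
    (hφ : ∀ t : B⟦X⟧, (∀ i < n, coeff i (t * r) = 0) → coeff 0 t * φ = 0) :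
    ∃ d ρ : B⟦X⟧, r * d = X ^ (n - 1) * ρ ∧ coeff 0 ρ = φ := by
  obtain ⟨Φ, hC, hA, hSol⟩ := exists_solver hV r n
  set P : B⟦X⟧ → B⟦X⟧ := fun g => g - r * Φ g with hP
  have hPr : ∀ u, ∀ i < n, coeff i (P (r * u)) = 0 := by
    intro u i hi
    simp only [hP]
    rw [map_sub, hSol u i hi, sub_self]
  have hPexp : ∀ v, ∀ i < n, coeff i (P v)
      = ∑ j ∈ Finset.range n, coeff i (P (X ^ j)) * coeff j v := by
    intro v i hi
    set v' : B⟦X⟧ := ∑ j ∈ Finset.range n, X ^ j * C (coeff j v) with hv'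
    have hag : Agree n v v' := by
      intro p hp
      rw [hv', map_sum, Finset.sum_eq_single p]
      · rw [PowerSeries.coeff_mul_C, PowerSeries.coeff_X_pow_self, one_mul]
      · intro b _ hb
        rw [PowerSeries.coeff_mul_C, PowerSeries.coeff_X_pow, if_neg (Ne.symm hb), zero_mul]
      · intro h; exact absurd (Finset.mem_range.2 hp) h
    have e1 : coeff i (P v) = coeff i (P v') := by
      simp only [hP]
      rw [map_sub, map_sub, hA v v' hag, hag i hi]
    have e2 : P v' = ∑ j ∈ Finset.range n, P (X ^ j) * C (coeff j v) := by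
      simp only [hP, hv']
      rw [map_sum, Finset.mul_sum, ← Finset.sum_sub_distrib]
      refine Finset.sum_congr rfl fun j _ => ?_
      rw [hC, sub_mul, mul_assoc]
    rw [e1, e2, map_sum]
    exact Finset.sum_congr rfl fun j _ => by rw [PowerSeries.coeff_mul_C]
  -- the row functionals
  have hrow : ∀ i < n, coeff i (P (X ^ (n - 1))) * φ = 0 := by
    intro i hi
    set t : B⟦X⟧ := PowerSeries.mk fun p => if p < n then coeff i (P (X ^ (n - 1 - p))) else 0
      with ht
    have htv : ∀ v : B⟦X⟧, coeff (n - 1) (t * v) = coeff i (P v) := by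
      intro v
      rw [hPexp v i hi, coeff_eq_sum_range, Nat.sub_add_cancel hn]
      refine Finset.sum_congr rfl fun j hj => ?_
      have hj' := Finset.mem_range.1 hj
      rw [ht, coeff_mk, if_pos (by omega)]
      congr 4
      omega
    have htr : ∀ p < n, coeff p (t * r) = 0 := by
      intro p hp
      have h1 := htv (r * X ^ (n - 1 - p))
      rw [← mul_assoc, hPr _ i hi] at h1
      have h2 : n - 1 = p + (n - 1 - p) := by omega
      rw [h2] at h1
      have h3 : p + (n - 1 - p) - p = n - 1 - p := by omega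
      rw [← h2] at h1
      rw [PowerSeries.coeff_mul_X_pow', if_pos (by omega)] at h1
      have h4 : n - 1 - (n - 1 - p) = p := by omega
      rwa [h4] at h1
    have h5 := hφ t htr
    rwa [ht, coeff_mk, if_pos (by omega), Nat.sub_zero] at h5
  set g : B⟦X⟧ := X ^ (n - 1) * C φ with hg
  have hgP : ∀ i < n, coeff i (P g) = 0 := by
    intro i hi
    have : P g = P (X ^ (n - 1)) * C φ := by
      simp only [hP, hg]
      rw [hC, sub_mul, mul_assoc]
    rw [this, PowerSeries.coeff_mul_C, hrow i hi]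
  have hrd : ∀ i < n, coeff i (r * Φ g) = coeff i g := by
    intro i hi
    have := hgP i hi
    simp only [hP] at this
    rw [map_sub, sub_eq_zero] at this
    exact this.symm
  refine ⟨Φ g, PowerSeries.mk (fun i => coeff (n - 1 + i) (r * Φ g)), ?_, ?_⟩
  · apply eq_X_pow_mul
    intro i hi
    rw [hrd i (by omega), hg, PowerSeries.coeff_X_pow_mul', if_neg (by omega)]
  · rw [coeff_mk, add_zero, hrd (n - 1) (by omega), hg, PowerSeries.coeff_X_pow_mul',
      if_pos le_rfl, Nat.sub_self, PowerSeries.coeff_zero_C]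

/-! ## Opposites -/

/-- The opposite series. -/
noncomputable def opS (t : B⟦X⟧) : Bᵐᵒᵖ⟦X⟧ := PowerSeries.mk fun i => op (coeff i t)

/-- The inverse of `opS`. -/
noncomputable def unopS (t : Bᵐᵒᵖ⟦X⟧) : B⟦X⟧ := PowerSeries.mk fun i => unop (coeff i t)

@[simp] theorem coeff_opS (t : B⟦X⟧) (i : ℕ) : coeff i (opS t) = op (coeff i t) := by
  rw [opS, coeff_mk]

@[simp] theorem coeff_unopS (t : Bᵐᵒᵖ⟦X⟧) (i : ℕ) : coeff i (unopS t) = unop (coeff i t) := by
  rw [unopS, coeff_mk]

@[simp] theorem opS_unopS (t : Bᵐᵒᵖ⟦X⟧) : opS (unopS t) = t := by ext i; simp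

@[simp] theorem unopS_opS (t : B⟦X⟧) : unopS (opS t) = t := by ext i; simp

theorem opS_mul (s t : B⟦X⟧) : opS (s * t) = opS t * opS s := by
  ext i
  rw [coeff_opS, PowerSeries.coeff_mul, PowerSeries.coeff_mul, Finset.op_sum,
    ← Finset.Nat.sum_antidiagonal_swap]
  refine Finset.sum_congr rfl fun p _ => ?_
  rw [op_mul, coeff_opS, coeff_opS]
  rfl

theorem one_sub_mul_one_sub (x y : B) : (1 - x) * (1 - y) = 1 - x - y + x * y := by
  noncomm_ring

theorem opS_C (x : B) : opS (C x) = C (op x) := by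
  ext i
  rw [coeff_opS, PowerSeries.coeff_C, PowerSeries.coeff_C]
  by_cases h : i = 0 <;> simp [h]

theorem opS_zero : opS (0 : B⟦X⟧) = 0 := by ext i; simp

theorem opS_add (s t : B⟦X⟧) : opS (s + t) = opS s + opS t := by ext i; simp

theorem opS_injective : Function.Injective (opS : B⟦X⟧ → Bᵐᵒᵖ⟦X⟧) :=
  Function.LeftInverse.injective unopS_opS

/-- Left version of goodness. -/
def LGood (r : B⟦X⟧) (k : ℕ) (t : B⟦X⟧) : Prop :=
  ∀ M, ∃ t' : B⟦X⟧, Agree k t' t ∧ ∀ i < M, coeff i (t' * r) = 0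

theorem agree_opS {k : ℕ} {t t' : B⟦X⟧} : Agree k (opS t) (opS t') ↔ Agree k t t' := by
  constructor
  · intro h i hi
    have := h i hi
    simpa using this
  · intro h i hi
    simp [h i hi]

theorem LGood_iff {r : B⟦X⟧} {k : ℕ} {t : B⟦X⟧} :
    LGood r k t ↔ RGood (opS r) k (opS t) := by
  constructor
  · intro h M
    obtain ⟨t', h1, h2⟩ := h M
    refine ⟨opS t', agree_opS.2 h1, fun i hi => ?_⟩
    rw [← opS_mul, coeff_opS, h2 i hi, op_zero]
  · intro h M
    obtain ⟨t', h1, h2⟩ := h M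
    refine ⟨unopS t', agree_opS.1 (by rw [opS_unopS]; exact h1), fun i hi => ?_⟩
    have := h2 i hi
    have e : opS (unopS t' * r) = opS r * t' := by rw [opS_mul, opS_unopS]
    rw [← e, coeff_opS] at this
    simpa using this

theorem RGood_iff {a : B⟦X⟧} {k : ℕ} {t : B⟦X⟧} :
    RGood a k t ↔ LGood (opS a) k (opS t) := by
  constructor
  · intro h M
    obtain ⟨t', h1, h2⟩ := h M
    refine ⟨opS t', agree_opS.2 h1, fun i hi => ?_⟩
    rw [← opS_mul, coeff_opS, h2 i hi, op_zero]
  · intro h M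
    obtain ⟨t', h1, h2⟩ := h M
    refine ⟨unopS t', agree_opS.1 (by rw [opS_unopS]; exact h1), fun i hi => ?_⟩
    have := h2 i hi
    have e : opS (a * unopS t') = t' * opS a := by rw [opS_mul, opS_unopS]
    rw [← e, coeff_opS] at this
    simpa using this

theorem RGood.mul_C {a : B⟦X⟧} {k : ℕ} {t : B⟦X⟧} (h : RGood a k t) (x : B) :
    RGood a k (t * C x) := by
  intro M
  obtain ⟨t', h1, h2⟩ := h M
  exact ⟨t' * C x, h1.mul_C x, Sol.mul_C h2 x⟩

theorem RGood.congr {a : B⟦X⟧} {k : ℕ} {t t' : B⟦X⟧} (h : RGood a k t) (hag : Agree k t t') :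
    RGood a k t' := by
  intro M
  obtain ⟨t'', h1, h2⟩ := h M
  exact ⟨t'', h1.trans hag, h2⟩

theorem LGood.congr {a : B⟦X⟧} {k : ℕ} {t t' : B⟦X⟧} (h : LGood a k t) (hag : Agree k t t') :
    LGood a k t' := by
  intro M
  obtain ⟨t'', h1, h2⟩ := h M
  exact ⟨t'', h1.trans hag, h2⟩

theorem LGood.add_sol {r : B⟦X⟧} {k : ℕ} {t t' : B⟦X⟧} (h : LGood r k t) (h' : t' * r = 0) :
    LGood r k (t' + t) := by
  intro M
  obtain ⟨t'', h1, h2⟩ := h M
  refine ⟨t' + t'', fun i hi => ?_, fun i hi => ?_⟩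
  · rw [map_add, map_add, h1 i hi]
  · rw [add_mul, h', zero_add, h2 i hi]

/-- The state of the back-and-forth construction. -/
structure State (a r : B⟦X⟧) (k k' : ℕ) (m m' : B) (t t' : B⟦X⟧) : Prop where
  mm : m * m = m
  mm' : m' * m' = m'
  le1 : m * m' = m
  le2 : m' * m = m
  t0 : coeff 0 t = m'
  tm' : t * C m' = t
  tg : RGood a k t
  tm : a * t * C m = 0
  s0 : coeff 0 t' = 1 - m
  sm : C (1 - m) * t' = t'
  sg : LGood r k' t'
  sm' : C (1 - m') * t' * r = 0

theorem State.opp {a r : B⟦X⟧} {k k' : ℕ} {m m' : B} {t t' : B⟦X⟧}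
    (h : State a r k k' m m' t t') :
    State (opS r) (opS a) k' k (op (1 - m')) (op (1 - m)) (opS t') (opS t) where
  mm := by
    rw [← op_mul]; congr 1
    rw [one_sub_mul_one_sub, h.mm']; abel
  mm' := by
    rw [← op_mul]; congr 1
    rw [one_sub_mul_one_sub, h.mm]; abel
  le1 := by
    rw [← op_mul]; congr 1
    rw [one_sub_mul_one_sub, h.le1]; abel
  le2 := by
    rw [← op_mul]; congr 1
    rw [one_sub_mul_one_sub, h.le2]; abel
  t0 := by rw [coeff_opS, h.s0]
  tm' := by rw [← opS_C, ← opS_mul, h.sm]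
  tg := LGood_iff.1 h.sg
  tm := by rw [← opS_C, ← opS_mul, ← opS_mul, ← mul_assoc, h.sm', opS_zero]
  s0 := by
    rw [coeff_opS, h.t0]
    apply unop_injective
    simp
  sm := by
    have : (1 : Bᵐᵒᵖ) - op (1 - m') = op m' := by apply unop_injective; simp
    rw [this, ← opS_C, ← opS_mul, h.tm']
  sg := RGood_iff.1 h.tg
  sm' := by
    have : (1 : Bᵐᵒᵖ) - op (1 - m) = op m := by apply unop_injective; simp
    rw [this, ← opS_C, ← opS_mul, ← opS_mul, ← mul_assoc, h.tm, opS_zero]

theorem State.unopp {a r : B⟦X⟧} {k k' : ℕ} {n n' : Bᵐᵒᵖ} {σ σ' : Bᵐᵒᵖ⟦X⟧}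
    (h : State (opS r) (opS a) k' k n n' σ σ') :
    State a r k k' (1 - unop n') (1 - unop n) (unopS σ') (unopS σ) where
  mm := by
    have := congrArg unop h.mm'
    rw [unop_mul] at this
    rw [one_sub_mul_one_sub, this]; abel
  mm' := by
    have := congrArg unop h.mm
    rw [unop_mul] at this
    rw [one_sub_mul_one_sub, this]; abel
  le1 := by
    have := congrArg unop h.le1
    rw [unop_mul] at this
    rw [one_sub_mul_one_sub, this]; abel
  le2 := by
    have := congrArg unop h.le2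
    rw [unop_mul] at this
    rw [one_sub_mul_one_sub, this]; abel
  t0 := by rw [coeff_unopS, h.s0]; simp
  tm' := by
    apply opS_injective
    rw [opS_mul, opS_unopS, opS_C]
    have : op (1 - unop n) = 1 - n := by apply unop_injective; simp
    rw [this, h.sm]
  tg := RGood_iff.2 (by rw [opS_unopS]; exact h.sg)
  tm := by
    apply opS_injective
    rw [opS_mul, opS_mul, opS_unopS, opS_C, opS_zero, ← mul_assoc]
    have : op (1 - unop n') = 1 - n' := by apply unop_injective; simp
    rw [this, h.sm']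
  s0 := by rw [coeff_unopS, h.t0]; abel
  sm := by
    apply opS_injective
    rw [opS_mul, opS_unopS, opS_C]
    have : op (1 - (1 - unop n')) = n' := by apply unop_injective; simp
    rw [this, h.tm']
  sg := LGood_iff.2 (by rw [opS_unopS]; exact h.tg)
  sm' := by
    apply opS_injective
    rw [opS_mul, opS_mul, opS_unopS, opS_C, opS_zero, ← mul_assoc]
    have : op (1 - (1 - unop n)) = n := by apply unop_injective; simp
    rw [this, h.tm]

/-- First half step. -/
theorem State.step1 (hV : VNR B) (hS : Sep3 B) {a r : B⟦X⟧} {k k' : ℕ} (hk : 1 ≤ k)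
    (hk' : 1 ≤ k') {m m' : B} {t t' : B⟦X⟧} (h : State a r k k' m m' t t') :
    ∃ (n : B) (σ σ' : B⟦X⟧), State a r k (k' + 1) n m' σ σ' ∧ m * n = m ∧ n * m = m ∧
      Agree k σ t ∧ Agree k' σ' (C (1 - n) * t') := by
  obtain ⟨K⟩ := exists_KData hV.op (opS r)
  have hq1 : op (1 - m) * op (1 - m) = op (1 - m) := by
    rw [← op_mul]; congr 1
    rw [one_sub_mul_one_sub, h.mm]; abel
  obtain ⟨c, hc1, hc2, hc3⟩ := obstruction K (k := k') (t := opS t') hq1
    (by rw [← opS_C, ← opS_mul, h.sm]) (LGood_iff.1 h.sg)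
  obtain ⟨q, hq⟩ : ∃ q : B, q = m' - m := ⟨_, rfl⟩
  have hqq : q * q = q := by
    rw [hq, sub_mul, mul_sub, mul_sub, h.mm', h.le1, h.le2, h.mm]; abel
  have hm'q : m' * q = q := by rw [hq, mul_sub, h.mm', h.le2]
  have hqm' : q * m' = q := by rw [hq, sub_mul, h.mm', h.le1]
  have hmq : m * q = 0 := by rw [hq, mul_sub, h.le1, h.mm, sub_self]
  have hqm : q * m = 0 := by rw [hq, sub_mul, h.le2, h.mm, sub_self]
  -- the data on the side of `r`
  set s : ℕ → B := fun p => unop (K.l p) with hs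
  set b : ℕ → B := fun p => unop (c p) with hb
  have hss : ∀ p, s p * s p = s p := fun p => by
    have := congrArg unop (K.l_idem p); rwa [unop_mul] at this
  have hss' : ∀ i j, i ≠ j → s i * s j = 0 := fun i j hij => by
    have := congrArg unop (K.l_orth (Ne.symm hij)); rwa [unop_mul, unop_zero] at this
  have hbs : ∀ p, b p * s p = b p := fun p => by
    have := congrArg unop (hc1 p); rwa [unop_mul] at this
  obtain ⟨n, τ, y, hn, hqn, hnq, haτ, hτn, hτag, hy⟩ :=
    liftSplit hV hS (a := a) (k := k) hk hqq (t := t * C q)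
      (by rw [PowerSeries.coeff_mul_C, h.t0, hm'q])
      (by rw [mul_assoc, ← map_mul, hqq]) (h.tg.mul_C q) s (fun j => q * b j) hss hss'
      (fun j => by rw [mul_assoc, hbs]) (fun j => by rw [← mul_assoc, hqq])
  have hmn : m * n = 0 := by rw [← hqn, ← mul_assoc, hmq, zero_mul]
  have hnm : n * m = 0 := by rw [← hnq, mul_assoc, hqm, mul_zero]
  have hnm' : n * m' = n := by rw [← hnq, mul_assoc, hqm']
  have hm'n : m' * n = n := by rw [← hqn, ← mul_assoc, hm'q]
  have hqn2 : (q - n) * (q - n) = q - n := by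
    rw [sub_mul, mul_sub, mul_sub, hqq, hqn, hnq, hn]; abel
  have hqnq : (q - n) * q = q - n := by rw [sub_mul, hqq, hnq]
  set x : B := (q - n) * y with hx
  set lam : B⟦X⟧ := unopS (ser k' (opS t') (op (q - n)) (op x)) with hlam
  have hlam_lt : ∀ i < k', coeff i lam = (q - n) * coeff i t' := by
    intro i hi
    rw [hlam, coeff_unopS, coeff_ser_lt _ _ _ hi, coeff_opS, unop_mul, unop_op, unop_op]
  have hlam_form : ∀ i, ∃ z, coeff i lam = (q - n) * z := by
    intro i
    by_cases h1 : i < k'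
    · exact ⟨_, hlam_lt i h1⟩
    · by_cases h2 : i = k'
      · subst h2
        refine ⟨y, ?_⟩
        rw [hlam, coeff_unopS, coeff_ser_self]
        rfl
      · refine ⟨0, ?_⟩
        rw [hlam, coeff_unopS, ser, coeff_mk, if_neg h1, if_neg h2]
        simp
  have hlam_good : LGood r (k' + 1) lam := by
    rw [LGood_iff, hlam, opS_unopS]
    apply hc3
    intro p
    apply unop_injective
    rw [unop_mul, unop_mul]
    change x * s p = (q - n) * b p
    have h1 := hy p
    rw [← mul_assoc, hqnq] at h1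
    rw [hx, mul_assoc, ← h1, ← mul_assoc, hqn2]
  have hmul_lam : ∀ w : B, C (w * (q - n)) * lam = C w * lam := by
    intro w
    ext i
    obtain ⟨z, hz⟩ := hlam_form i
    rw [PowerSeries.coeff_C_mul, PowerSeries.coeff_C_mul, hz, mul_assoc, ← mul_assoc (q - n),
      hqn2]
  refine ⟨m + n, t * C m + τ + t * C (q - n), C (1 - m') * t' + lam,
    { mm := ?_, mm' := h.mm', le1 := ?_, le2 := ?_, t0 := ?_, tm' := ?_, tg := ?_, tm := ?_,
      s0 := ?_, sm := ?_, sg := ?_, sm' := ?_ }, ?_, ?_, ?_, ?_⟩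
  · rw [add_mul, mul_add, mul_add, h.mm, hmn, hnm, hn]; abel
  · rw [add_mul, h.le1, hnm']
  · rw [mul_add, h.le2, hm'n]
  · rw [map_add, map_add, PowerSeries.coeff_mul_C, PowerSeries.coeff_mul_C, h.t0,
      hτag 0 (by omega), PowerSeries.coeff_mul_C, PowerSeries.coeff_mul_C, h.t0, h.le2, hm'q,
      hqn, mul_sub, hm'q, hm'n, hq]
    abel
  · rw [add_mul, add_mul, mul_assoc, ← map_mul, h.le1, mul_assoc t, ← map_mul, sub_mul, hqm',
      hnm']
    have : τ * C m' = τ := by
      conv_lhs => rw [← hτn]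
      rw [mul_assoc, ← map_mul, hnm', hτn]
    rw [this]
  · refine h.tg.congr ?_
    intro i hi
    rw [map_add, map_add, PowerSeries.coeff_mul_C, PowerSeries.coeff_mul_C, hτag i hi,
      PowerSeries.coeff_mul_C, PowerSeries.coeff_mul_C]
    have e : coeff i t = coeff i t * m' := by
      conv_lhs => rw [← h.tm']
      rw [PowerSeries.coeff_mul_C]
    have e2 : m' = m + q * n + (q - n) := by rw [hqn, hq]; abel
    calc coeff i t = coeff i t * m' := e
      _ = coeff i t * (m + q * n + (q - n)) := by rw [← e2]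
      _ = _ := by noncomm_ring
  · have e1 : a * t * C m * C (m + n) = 0 := by rw [h.tm, zero_mul]
    have e2 : (q - n) * (m + n) = 0 := by
      rw [sub_mul, mul_add, mul_add, hqm, hqn, hnm, hn]; abel
    have e3 : a * (t * C m + τ + t * C (q - n)) * C (m + n)
        = a * t * C m * C (m + n) + a * τ * C (m + n) + a * t * (C (q - n) * C (m + n)) := by
      noncomm_ring
    rw [e3, e1, haτ, ← map_mul, e2]
    simp
  · rw [map_add, PowerSeries.coeff_C_mul, h.s0, hlam_lt 0 (by omega), h.s0]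
    have e1 : (1 - m') * (1 - m) = 1 - m' := by
      rw [one_sub_mul_one_sub, h.le2]; abel
    have e2 : (q - n) * (1 - m) = q - n := by
      rw [mul_sub, mul_one, sub_mul, hqm, hnm]; abel
    rw [e1, e2, hq]; abel
  · have e1 : (1 - (m + n)) * (1 - m') = 1 - m' := by
      rw [one_sub_mul_one_sub, add_mul, h.le1, hnm']; abel
    have e2 : (1 - (m + n)) * (q - n) = 1 * (q - n) := by
      have e3 : (1 - (m + n)) * (q - n) = q - n - m * q + m * n - n * q + n * n := by
        noncomm_ring
      rw [e3, hmq, hmn, hnq, hn, one_mul]; abel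
    rw [mul_add, ← mul_assoc, ← map_mul, e1, ← hmul_lam, e2, hmul_lam, map_one, one_mul]
  · exact hlam_good.add_sol h.sm'
  · have e1 : (1 - m') * (1 - m') = 1 - m' := by
      rw [one_sub_mul_one_sub, h.mm']; abel
    have e2 : (1 - m') * (q - n) = 0 := by
      rw [sub_mul, mul_sub m', hm'q, hm'n]; simp
    rw [mul_add, ← mul_assoc, ← map_mul, e1, ← hmul_lam, e2, map_zero, zero_mul, add_zero,
      h.sm']
  · rw [mul_add, h.mm, hmn, add_zero]
  · rw [add_mul, h.mm, hnm, add_zero]
  · intro i hi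
    rw [map_add, map_add, PowerSeries.coeff_mul_C, PowerSeries.coeff_mul_C, hτag i hi,
      PowerSeries.coeff_mul_C, PowerSeries.coeff_mul_C]
    have e : coeff i t = coeff i t * m' := by
      conv_lhs => rw [← h.tm']
      rw [PowerSeries.coeff_mul_C]
    have e2 : m' = m + q * n + (q - n) := by rw [hqn, hq]; abel
    symm
    calc coeff i t = coeff i t * m' := e
      _ = coeff i t * (m + q * n + (q - n)) := by rw [← e2]
      _ = _ := by noncomm_ring
  · intro i hi
    rw [map_add, PowerSeries.coeff_C_mul, PowerSeries.coeff_C_mul, hlam_lt i hi, ← add_mul, hq]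
    congr 1
    abel

end Run7.h150
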