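import Mathlib

/-!
# Primitive positive constructions: definitions

A relational signature is a type `σ` of symbols with an arity function `ar : σ → ℕ`; a structure
with domain `A` is a family of relations `Interp ar A`.
-/

namespace Run7.h150.PPC

universe u v w x

/-- Primitive positive formulas with `n` free variables. -/
inductive PP (σ : Type u) (ar : σ → ℕ) : ℕ → Type u
  | eq {n : ℕ} (i j : Fin n) : PP σ ar n
  | rel {n : ℕ} (s : σ) (v : Fin (ar s) → Fin n) : PP σ ar n
  | and {n : ℕ} (φ ψ : PP σ ar n) : PP σ ar n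
  | ex {n : ℕ} (φ : PP σ ar (n + 1)) : PP σ ar n

/-- A structure with domain `A` of the signature `ar`. -/
abbrev Interp {σ : Type u} (ar : σ → ℕ) (A : Type v) : Type (max u v) :=
  ∀ s : σ, Set (Fin (ar s) → A)

variable {σ : Type u} {ar : σ → ℕ} {A : Type v}

/-- Satisfaction; the existential quantifier binds the variable `0`. -/
def PP.Holds (R : Interp ar A) : ∀ {n : ℕ}, PP σ ar n → (Fin n → A) → Prop
  | _, .eq i j, a => a i = a j
  | _, .rel s v, a => (fun p => a (v p)) ∈ R s
  | _, .and φ ψ, a => φ.Holds R a ∧ ψ.Holds R a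
  | _, .ex φ, a => ∃ b : A, φ.Holds R (Fin.cons b a)

/-- `f` is a homomorphism. -/
def IsHom {B : Type w} (R : Interp ar A) (S : Interp ar B) (f : A → B) : Prop :=
  ∀ s, ∀ z ∈ R s, (fun p => f (z p)) ∈ S s

/-- Homomorphic equivalence. -/
def HomEquiv {B : Type w} (R : Interp ar A) (S : Interp ar B) : Prop :=
  (∃ f, IsHom R S f) ∧ ∃ g, IsHom S R g

/-- `T` is a `d`-th pp-power of `R`: each relation of `T` of arity `k`, read as a relation of
arity `k * d` on `A`, is defined by a pp formula. -/
def IsPPPower {τ : Type w} {ar' : τ → ℕ} (R : Interp ar A) (d : ℕ)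
    (T : Interp ar' (Fin d → A)) : Prop :=
  ∀ t, ∃ φ : PP σ ar (ar' t * d), ∀ z : Fin (ar' t) → (Fin d → A),
    z ∈ T t ↔ φ.Holds R (fun i => z (finProdFinEquiv.symm i).1 (finProdFinEquiv.symm i).2)

/-- `S` has a pp-construction from `R`. -/
def PPConstr {τ : Type w} {ar' : τ → ℕ} {B : Type x} (R : Interp ar A) (S : Interp ar' B) :
    Prop :=
  ∃ d : ℕ, 1 ≤ d ∧ ∃ T : Interp ar' (Fin d → A), IsPPPower R d T ∧ HomEquiv T S

/-- The structure with two elements `0`, `1` and the single edge `(0, 1)`. -/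
def P2 : Interp (fun _ : Unit => 2) (Fin 2) := fun _ => {z | z 0 = 0 ∧ z 1 = 1}

/-- A finite structure with finite signature `0, …, m - 1`, positive arities and
domain `0, …, a`. -/
structure FinStr where
  m : ℕ
  ar : Fin m → ℕ
  pos : ∀ s, 0 < ar s
  a : ℕ
  R : Interp ar (Fin (a + 1))

end Run7.h150.PPC
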