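import Pool.Agent.Run7.h150.PPDefs

/-!
# Primitive positive constructions: transitivity, compactness, countable obstructions
-/

namespace Run7.h150.PPC

universe u v w x y z

section

variable {σ : Type u} {ar : σ → ℕ} {A : Type v}

/-- Lifting of a renaming below a quantifier. -/
def lft {n m : ℕ} (f : Fin n → Fin m) : Fin (n + 1) → Fin (m + 1) :=
  Fin.cons 0 (fun i => (f i).succ)

/-- Renaming of variables. -/
def PP.rename : ∀ {n m : ℕ}, (Fin n → Fin m) → PP σ ar n → PP σ ar m
  | _, _, f, .eq i j => .eq (f i) (f j)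
  | _, _, f, .rel s v => .rel s (fun p => f (v p))
  | _, _, f, .and φ ψ => .and (φ.rename f) (ψ.rename f)
  | _, _, f, .ex φ => .ex (φ.rename (lft f))

theorem cons_lft {n m : ℕ} (f : Fin n → Fin m) (a : Fin m → A) (b : A) :
    (fun i => (Fin.cons b a : Fin (m + 1) → A) (lft f i)) = Fin.cons b (fun i => a (f i)) := by
  funext i
  refine Fin.cases ?_ (fun i => ?_) i
  · simp [lft]
  · simp [lft]

theorem PP.holds_rename (R : Interp ar A) {n : ℕ} (φ : PP σ ar n) :
    ∀ {m : ℕ} (f : Fin n → Fin m) (a : Fin m → A),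
      (φ.rename f).Holds R a ↔ φ.Holds R (fun i => a (f i)) := by
  induction φ with
  | eq i j => intro m f a; rfl
  | rel s v => intro m f a; rfl
  | and φ ψ h1 h2 => intro m f a; simp only [PP.rename, PP.Holds, h1, h2]
  | ex φ h =>
    intro m f a
    simp only [PP.rename, PP.Holds, h, cons_lft]

/-- pp formulas are preserved by homomorphisms. -/
theorem PP.holds_hom {B : Type w} {R : Interp ar A} {S : Interp ar B} {f : A → B}
    (hf : IsHom R S f) {n : ℕ} (φ : PP σ ar n) :
    ∀ a : Fin n → A, φ.Holds R a → φ.Holds S (fun i => f (a i)) := by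
  induction φ with
  | eq i j => intro a h; exact congrArg f h
  | rel s v => intro a h; exact hf s _ h
  | and φ ψ h1 h2 => intro a h; exact ⟨h1 a h.1, h2 a h.2⟩
  | ex φ h1 =>
    rintro a ⟨b, hb⟩
    refine ⟨f b, ?_⟩
    have := h1 _ hb
    convert this using 1
    funext i
    refine Fin.cases ?_ (fun i => ?_) i <;> simp

/-- Iterated quantifier over the first `d` variables. -/
def exN : ∀ (d : ℕ) {n : ℕ}, PP σ ar (n + d) → PP σ ar n
  | 0, _, φ => φ
  | d + 1, _, φ => exN d (.ex φ)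

theorem holds_exN (R : Interp ar A) (d : ℕ) : ∀ {n : ℕ} (φ : PP σ ar (n + d)) (a : Fin n → A),
    (exN d φ).Holds R a ↔
      ∃ b : Fin (n + d) → A, (∀ i : Fin n, b (i.addNat d) = a i) ∧ φ.Holds R b := by
  induction d with
  | zero =>
    intro n φ a
    constructor
    · intro h
      exact ⟨a, fun i => rfl, h⟩
    · rintro ⟨b, hb, h⟩
      have : b = a := by funext i; exact hb i
      rw [← this]; exact h
  | succ d ih =>
    intro n φ a
    change (exN d (.ex φ)).Holds R a ↔ _
    rw [ih]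
    constructor
    · rintro ⟨b, hb, c, hc⟩
      refine ⟨Fin.cons c b, fun i => ?_, hc⟩
      rw [← hb i]
      exact Fin.cons_succ (α := fun _ => A) c b (i.addNat d)
    · rintro ⟨b, hb, h⟩
      refine ⟨fun i => b i.succ, fun i => ?_, b 0, ?_⟩
      · rw [← hb i]; rfl
      · have e : (Fin.cons (b 0) (fun i => b i.succ) : Fin (n + d + 1) → A)
            = (b : Fin (n + d + 1) → A) := by
          funext i
          refine Fin.cases ?_ (fun i => ?_) i <;> rfl
        change φ.Holds R (Fin.cons (b 0) (fun i => b i.succ) : Fin (n + d + 1) → A)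
        rw [e]; exact h

/-- Definability of a relation with variables in `V`. -/
def DefV (R : Interp ar A) {V : Type w} (S : Set (V → A)) : Prop :=
  ∃ (n : ℕ) (g : Fin n → V) (φ : PP σ ar n), ∀ a, a ∈ S ↔ φ.Holds R (fun i => a (g i))

theorem DefV.rename {R : Interp ar A} {V : Type w} {W : Type x} {S : Set (V → A)}
    (h : DefV R S) (f : V → W) : DefV R {a : W → A | (fun v => a (f v)) ∈ S} := by
  obtain ⟨n, g, φ, hφ⟩ := h
  exact ⟨n, fun i => f (g i), φ, fun a => hφ _⟩

theorem DefV.inter {R : Interp ar A} {V : Type w} {S T : Set (V → A)}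
    (h : DefV R S) (h' : DefV R T) : DefV R (S ∩ T) := by
  obtain ⟨n, g, φ, hφ⟩ := h
  obtain ⟨n', g', φ', hφ'⟩ := h'
  refine ⟨n + n', Fin.append g g',
    .and (φ.rename (Fin.castAdd n')) (φ'.rename (Fin.natAdd n)), fun a => ?_⟩
  simp only [PP.Holds, PP.holds_rename, Fin.append_left, Fin.append_right]
  rw [Set.mem_inter_iff, hφ, hφ']

theorem DefV.univ [Nonempty A] (R : Interp ar A) (V : Type w) :
    DefV R (Set.univ : Set (V → A)) := by
  refine ⟨0, Fin.elim0, .ex (.eq 0 0), fun a => ?_⟩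
  simp [PP.Holds]

theorem DefV.eq (R : Interp ar A) {V : Type w} (i j : V) : DefV R {a : V → A | a i = a j} :=
  ⟨2, ![i, j], .eq 0 1, fun a => by simp [PP.Holds]⟩

theorem DefV.finset [Nonempty A] {R : Interp ar A} {V : Type w} {ι : Type x} (s : Finset ι)
    (S : ι → Set (V → A)) (h : ∀ i ∈ s, DefV R (S i)) : DefV R {a | ∀ i ∈ s, a ∈ S i} := by
  classical
  induction s using Finset.induction_on with
  | empty =>
    convert DefV.univ R V using 1
    ext a; simp
  | @insert i s hi ih =>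
    have h1 := (h i (Finset.mem_insert_self i s)).inter
      (ih (fun j hj => h j (Finset.mem_insert_of_mem hj)))
    convert h1 using 1
    ext a
    simp

/-- Over a finite variable set the formula can use all variables. -/
theorem DefV.exists {R : Interp ar A} {V : Type w} {S : Set (V → A)} (h : DefV R S) {n : ℕ}
    (e : Fin n ≃ V) : ∃ φ : PP σ ar n, ∀ a, a ∈ S ↔ φ.Holds R (fun i => a (e i)) := by
  obtain ⟨m, g, φ, hφ⟩ := h
  refine ⟨φ.rename (fun i => e.symm (g i)), fun a => ?_⟩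
  rw [hφ, PP.holds_rename]
  simp

theorem DefV.proj {R : Interp ar A} {V : Type w} {W : Type x} [Finite V] [Finite W]
    {S : Set (V ⊕ W → A)} (h : DefV R S) :
    DefV R {a : V → A | ∃ b : W → A, Sum.elim a b ∈ S} := by
  classical
  obtain ⟨m, g, φ, hφ⟩ := h
  obtain ⟨n, ⟨e⟩⟩ := Finite.exists_equiv_fin V
  obtain ⟨k, ⟨e'⟩⟩ := Finite.exists_equiv_fin W
  set ι : V ⊕ W → Fin (n + k) := Sum.elim (fun v => (e v).addNat k)
    (fun q => Fin.castLE (by omega) (e' q)) with hι
  refine ⟨n, e.symm, exN k (φ.rename (fun i => ι (g i))), fun a => ?_⟩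
  rw [holds_exN]
  simp only [PP.holds_rename, Set.mem_ofPred_eq]
  constructor
  · rintro ⟨b, hb⟩
    rw [hφ] at hb
    refine ⟨fun i => if h : (i : ℕ) < k then b (e'.symm ⟨i, h⟩) else
      a (e.symm ⟨(i : ℕ) - k, by omega⟩), fun i => ?_, ?_⟩
    · have : ¬ ((i.addNat k : Fin (n + k)) : ℕ) < k := by simp
      beta_reduce
      rw [dif_neg this]
      congr 1
      apply congrArg
      ext
      simp
    · convert hb using 1
      funext i
      rcases hgi : g i with q | q
      · simp only [hι, Sum.elim_inl]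
        have : ¬ (((e q).addNat k : Fin (n + k)) : ℕ) < k := by simp
        rw [dif_neg this]
        congr 1
        rw [Equiv.symm_apply_eq]
        ext
        simp
      · simp only [hι, Sum.elim_inr]
        have : ((Fin.castLE (by omega : k ≤ n + k) (e' q) : Fin (n + k)) : ℕ) < k := by simp
        rw [dif_pos this]
        congr 1
        rw [Equiv.symm_apply_eq]
        ext
        simp
  · rintro ⟨b, hb1, hb2⟩
    refine ⟨fun q => b (Fin.castLE (by omega) (e' q)), ?_⟩
    rw [hφ]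
    convert hb2 using 1
    funext i
    rcases hgi : g i with q | q
    · simp only [hι, Sum.elim_inl]
      rw [hb1]
      simp
    · simp only [hι, Sum.elim_inr]

theorem isPPPower_iff {τ : Type w} {ar' : τ → ℕ} (R : Interp ar A) (d : ℕ)
    (T : Interp ar' (Fin d → A)) :
    IsPPPower R d T ↔ ∀ t, DefV R {a : Fin (ar' t) × Fin d → A | (fun p q => a (p, q)) ∈ T t} := by
  constructor
  · intro h t
    obtain ⟨φ, hφ⟩ := h t
    exact ⟨ar' t * d, finProdFinEquiv.symm, φ, fun a => hφ _⟩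
  · intro h t
    obtain ⟨φ, hφ⟩ := (h t).exists finProdFinEquiv.symm
    exact ⟨φ, fun z => hφ (fun r => z r.1 r.2)⟩

/-- Interpretation of pp formulas over a pp-power. -/
theorem interp {τ : Type w} {ar' : τ → ℕ} [Nonempty A] (R : Interp ar A) {I : Type x} [Finite I]
    (D : Interp ar' (I → A))
    (hD : ∀ t, DefV R {a : Fin (ar' t) × I → A | (fun p q => a (p, q)) ∈ D t})
    {n : ℕ} (φ : PP τ ar' n) :
    DefV R {a : Fin n × I → A | φ.Holds D (fun p q => a (p, q))} := by
  induction φ with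
  | @eq n i j =>
    have := Fintype.ofFinite I
    have h := DefV.finset (R := R) (Finset.univ : Finset I)
      (fun q => {a : Fin n × I → A | a (i, q) = a (j, q)}) (fun q _ => DefV.eq R (i, q) (j, q))
    convert h using 1
    ext a
    simp only [PP.Holds, Set.mem_ofPred_eq, Finset.mem_univ, forall_true_left]
    exact funext_iff
  | @rel n s f =>
    exact (hD s).rename (fun r : Fin (ar' s) × I => (f r.1, r.2))
  | and φ ψ h1 h2 => exact h1.inter h2
  | @ex n φ h =>
    have h1 := (h.rename (fun r : Fin (n + 1) × I =>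
      (Fin.cases (Sum.inr r.2) (fun p => Sum.inl (p, r.2)) r.1 : (Fin n × I) ⊕ I))).proj
    convert h1 using 1
    ext a
    simp only [PP.Holds, Set.mem_ofPred_eq]
    refine exists_congr fun b => ?_
    have : (Fin.cons b (fun p q => a (p, q)) : Fin (n + 1) → I → A)
        = fun p q => (Sum.elim a b : (Fin n × I) ⊕ I → A)
            (Fin.cases (Sum.inr q) (fun p => Sum.inl (p, q)) p) := by
      funext p q
      refine Fin.cases ?_ (fun p => ?_) p
      · simp
      · simp
    rw [this]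

end

section

variable {σ : Type u} {ar : σ → ℕ} {A : Type v} {τ : Type w} {ar' : τ → ℕ} {B : Type x}
  {ρ : Type y} {ar'' : ρ → ℕ} {D : Type z}

theorem IsHom.comp {R : Interp ar A} {S : Interp ar B} {T : Interp ar D} {g : B → D} {f : A → B}
    (hg : IsHom S T g) (hf : IsHom R S f) : IsHom R T (fun a => g (f a)) :=
  fun s z hz => hg s _ (hf s z hz)

theorem HomEquiv.trans {R : Interp ar A} {S : Interp ar B} {T : Interp ar D}
    (h : HomEquiv R S) (h' : HomEquiv S T) : HomEquiv R T := by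
  obtain ⟨⟨f, hf⟩, ⟨g, hg⟩⟩ := h
  obtain ⟨⟨f', hf'⟩, ⟨g', hg'⟩⟩ := h'
  exact ⟨⟨_, hf'.comp hf⟩, ⟨_, hg.comp hg'⟩⟩

/-- Transitivity of pp-constructibility. -/
theorem PPConstr.trans [Nonempty A] {R : Interp ar A} {S : Interp ar' B} {T : Interp ar'' D}
    (h : PPConstr R S) (h' : PPConstr S T) : PPConstr R T := by
  obtain ⟨e, he, T₁, hT₁, ⟨f₁, hf₁⟩, ⟨g₁, hg₁⟩⟩ := h
  obtain ⟨d, hd, T₂, hT₂, hT₂'⟩ := h'
  choose φ hφ using hT₂
  -- the same formulas over the pp-power `T₁`
  set T₃ : Interp ar'' (Fin d → (Fin e → A)) := fun t => {z | (φ t).Holds T₁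
    (fun i => z (finProdFinEquiv.symm i).1 (finProdFinEquiv.symm i).2)} with hT₃
  have h32 : HomEquiv T₃ T₂ := by
    refine ⟨⟨fun w q => f₁ (w q), fun t z hz => ?_⟩, ⟨fun w q => g₁ (w q), fun t z hz => ?_⟩⟩
    · rw [hφ]
      exact PP.holds_hom hf₁ (φ t) _ hz
    · rw [hφ] at hz
      exact PP.holds_hom hg₁ (φ t) _ hz
  set E : Fin (d * e) ≃ Fin d × Fin e := finProdFinEquiv.symm with hE
  set T₄ : Interp ar'' (Fin (d * e) → A) := fun t => {z | (fun p q r => z p (E.symm (q, r))) ∈ T₃ t}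
    with hT₄
  have h43 : HomEquiv T₄ T₃ := by
    refine ⟨⟨fun w q r => w (E.symm (q, r)), fun t z hz => hz⟩,
      ⟨fun w i => w (E i).1 (E i).2, fun t z hz => ?_⟩⟩
    change (fun p q r => z p (E (E.symm (q, r))).1 (E (E.symm (q, r))).2) ∈ T₃ t
    simpa using hz
  refine ⟨d * e, Nat.mul_pos hd he, T₄, ?_, h43.trans (h32.trans hT₂')⟩
  rw [isPPPower_iff]
  intro t
  have h1 := interp R T₁ ((isPPPower_iff R e T₁).1 hT₁) (φ t)
  have h2 := h1.rename (fun r : Fin (ar'' t * d) × Fin e =>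
    ((finProdFinEquiv.symm r.1).1, E.symm ((finProdFinEquiv.symm r.1).2, r.2)))
  exact h2

/-- Structures with finitely many relations chosen from `R`, transported along an
injective map of domains, can be pp-constructed. -/
theorem PPConstr.reduct (R : Interp ar A) {τ : Type w} (s : τ → σ) {B : Type x} (e : A ≃ B) :
    PPConstr R (fun t => {z : Fin (ar (s t)) → B | (fun p => e.symm (z p)) ∈ R (s t)}) := by
  refine ⟨1, le_rfl, fun t => {z | (fun p => z p 0) ∈ R (s t)}, ?_, ?_, ?_⟩
  · rw [isPPPower_iff]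
    intro t
    refine ⟨ar (s t), fun p => (p, 0), .rel (s t) (fun p => p), fun a => ?_⟩
    simp [PP.Holds]
  · refine ⟨fun w => e (w 0), fun t z hz => ?_⟩
    simpa using hz
  · exact ⟨fun b _ => e.symm b, fun t z hz => hz⟩

end

/-! ## The compactness argument -/

section

variable {σ : Type u} {ar : σ → ℕ} {B : Type v}

/-- The canonical embedding of `B` into a power of the two-element set works, with the
retraction `h`, for the relation symbol `s`. -/
def Good (R : Interp ar B) {D : ℕ} (ε : Fin D ≃ (B → Fin 2)) (h : (Fin D → Fin 2) → B) (s : σ) :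
    Prop :=
  ∃ S : Set (Fin (ar s) → (Fin D → Fin 2)),
    DefV P2 {a : Fin (ar s) × Fin D → Fin 2 | (fun p q => a (p, q)) ∈ S} ∧
      (∀ z ∈ R s, (fun p i => ε i (z p)) ∈ S) ∧ ∀ w ∈ S, (fun p => h (w p)) ∈ R s

theorem good_of_zero [Finite B] [Nonempty B] (R : Interp ar B) {D : ℕ} (ε : Fin D ≃ (B → Fin 2))
    (h : (Fin D → Fin 2) → B) (s : σ) (hs : ar s = 0) : Good R ε h s := by
  classical
  have : IsEmpty (Fin (ar s)) := by rw [hs]; infer_instance
  by_cases hR : ∃ z, z ∈ R s
  · obtain ⟨z, hz⟩ := hR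
    refine ⟨Set.univ, ?_, fun _ _ => Set.mem_univ _, fun w _ => ?_⟩
    · simpa using DefV.univ P2 (Fin (ar s) × Fin D)
    · have : (fun p => h (w p)) = z := Subsingleton.elim _ _
      rw [this]; exact hz
  · refine ⟨∅, ⟨0, Fin.elim0, .ex (.rel () (fun _ => 0)), fun a => ?_⟩, fun z hz => ?_, fun w hw => ?_⟩
    · simp only [Set.mem_empty_iff_false, Set.ofPred_false, PP.Holds, false_iff]
      rintro ⟨b, hb1, hb2⟩
      have h1 : b = 0 := hb1
      have h2 : b = 1 := hb2
      rw [h1] at h2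
      exact absurd h2 (by decide)
    · exact absurd ⟨z, hz⟩ hR
    · exact absurd hw (by simp)

theorem good_of_constr (R : Interp ar B) {D : ℕ} (ε : Fin D ≃ (B → Fin 2)) {m a : ℕ}
    (s : Fin m → σ) (e : B ≃ Fin (a + 1))
    (hc : PPConstr P2 (fun t : Fin m => {z : Fin (ar (s t)) → Fin (a + 1) |
      (fun p => e.symm (z p)) ∈ R (s t)})) :
    ∃ h : (Fin D → Fin 2) → B, ∀ t, Good R ε h (s t) := by
  obtain ⟨d, hd, T, hT, ⟨f, hf⟩, ⟨g, hg⟩⟩ := hc
  rw [isPPPower_iff] at hT
  set j : Fin d → Fin D := fun i => ε.symm (fun b => g (e b) i) with hj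
  have hεj : ∀ i b, ε (j i) b = g (e b) i := by
    intro i b
    simp [hj]
  refine ⟨fun w => e.symm (f (fun i => w (j i))), fun t => ⟨{w | (fun p i => w p (j i)) ∈ T t},
    ?_, ?_, ?_⟩⟩
  · exact (hT t).rename (fun r : Fin (ar (s t)) × Fin d => (r.1, j r.2))
  · intro z hz
    have h1 : (fun p => e (z p)) ∈ {z : Fin (ar (s t)) → Fin (a + 1) |
        (fun p => e.symm (z p)) ∈ R (s t)} := by simpa using hz
    have h2 := hg t _ h1
    change (fun p i => ε (j i) (z p)) ∈ T t
    simp only [hεj]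
    exact h2
  · intro w hw
    exact hf t _ hw

/-- If all finite reducts (with symbols of positive arity) have a pp-construction from `P2`,
so does `R`. -/
theorem constr_of_reducts [Finite B] [Nonempty B] (R : Interp ar B) {a : ℕ} (e : B ≃ Fin (a + 1))
    (hc : ∀ (m : ℕ) (s : Fin m → σ), (∀ t, 0 < ar (s t)) →
      PPConstr P2 (fun t : Fin m => {z : Fin (ar (s t)) → Fin (a + 1) |
        (fun p => e.symm (z p)) ∈ R (s t)})) : PPConstr P2 R := by
  classical
  obtain ⟨D, ⟨ε'⟩⟩ := Finite.exists_equiv_fin (B → Fin 2)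
  set ε := ε'.symm with hε
  have key : ∃ h : (Fin D → Fin 2) → B, ∀ s, Good R ε h s := by
    by_contra hcon
    push Not at hcon
    choose bad hbad using hcon
    obtain ⟨m, ⟨E⟩⟩ := Finite.exists_equiv_fin ((Fin D → Fin 2) → B)
    obtain ⟨h, hh⟩ := good_of_constr R ε (fun i => bad (E.symm i)) e
      (hc m (fun i => bad (E.symm i)) (fun t => by
        rcases Nat.eq_zero_or_pos (ar (bad (E.symm t))) with h0 | h0
        · exact absurd (good_of_zero R ε _ _ h0) (hbad _)
        · exact h0))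
    have := hh (E h)
    rw [Equiv.symm_apply_apply] at this
    exact hbad h this
  obtain ⟨h, hh⟩ := key
  choose S hS1 hS2 hS3 using hh
  have hD : 1 ≤ D := by
    rcases Nat.eq_zero_or_pos D with h0 | h0
    · subst h0
      exact (ε' (fun _ => 0)).elim0
    · exact h0
  refine ⟨D, hD, S, ?_, ⟨h, fun s z hz => hS3 s z hz⟩, ⟨fun b i => ε i b, fun s z hz => hS2 s z hz⟩⟩
  rw [isPPPower_iff]
  exact hS1

end

/-! ## A structure without pp-construction from `P2` -/

/-- Addition modulo two of three solutions preserves satisfaction over `P2`. -/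
theorem holds_add {n : ℕ} (φ : PP Unit (fun _ => 2) n) :
    ∀ a b c : Fin n → Fin 2, φ.Holds P2 a → φ.Holds P2 b → φ.Holds P2 c →
      φ.Holds P2 (fun i => a i + b i + c i) := by
  induction φ with
  | eq i j =>
    intro a b c ha hb hc
    change a i + b i + c i = a j + b j + c j
    rw [show a i = a j from ha, show b i = b j from hb, show c i = c j from hc]
  | rel s v =>
    rintro a b c ⟨ha0, ha1⟩ ⟨hb0, hb1⟩ ⟨hc0, hc1⟩
    refine ⟨?_, ?_⟩
    · simp only [] at ha0 hb0 hc0 ⊢
      rw [ha0, hb0, hc0]; rfl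
    · simp only [] at ha1 hb1 hc1 ⊢
      rw [ha1, hb1, hc1]; rfl
  | and φ ψ h1 h2 =>
    intro a b c ha hb hc
    exact ⟨h1 a b c ha.1 hb.1 hc.1, h2 a b c ha.2 hb.2 hc.2⟩
  | ex φ h =>
    rintro a b c ⟨x, hx⟩ ⟨y, hy⟩ ⟨z, hz⟩
    refine ⟨x + y + z, ?_⟩
    have := h _ _ _ hx hy hz
    convert this using 1
    funext i
    refine Fin.cases ?_ (fun i => ?_) i <;> simp

theorem not_constr_aux :
    ¬ PPConstr P2 (fun _ : Fin 1 => {z : Fin 2 → Fin 3 | z 0 < z 1} :
      Interp (fun _ : Fin 1 => 2) (Fin 3)) := by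
  rintro ⟨d, hd, T, hT, ⟨f, hf⟩, ⟨g, hg⟩⟩
  obtain ⟨φ, hφ⟩ := hT 0
  have hedge : ∀ i j : Fin 3, i < j → (fun p => g ((![i, j] : Fin 2 → Fin 3) p)) ∈ T 0 :=
    fun i j hij => hg 0 ![i, j] (show (![i, j] : Fin 2 → Fin 3) 0 < ![i, j] 1 by simpa using hij)
  have h1 := (hφ _).1 (hedge 1 2 (by decide))
  have h2 := (hφ _).1 (hedge 0 2 (by decide))
  have h3 := (hφ _).1 (hedge 0 1 (by decide))
  have h4 := holds_add φ _ _ _ h1 h2 h3
  have h5 : (fun p => g ((![1, 1] : Fin 2 → Fin 3) p)) ∈ T 0 := by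
    refine (hφ _).2 ?_
    convert h4 using 1
    funext i
    have hz : ∀ x y : Fin 2, x + y + y = x := by decide
    have hz' : ∀ x y : Fin 2, y + y + x = x := by decide
    generalize (finProdFinEquiv.symm i).1 = p
    generalize (finProdFinEquiv.symm i).2 = q
    revert p
    change ∀ p : Fin 2, g ((![1, 1] : Fin 2 → Fin 3) p) q = g ((![1, 2] : Fin 2 → Fin 3) p) q
      + g ((![0, 2] : Fin 2 → Fin 3) p) q + g ((![0, 1] : Fin 2 → Fin 3) p) q
    intro p
    fin_cases p
    · simp [hz]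
    · simp [hz']
  have h6 : f (g 1) < f (g 1) := hf 0 _ h5
  exact lt_irrefl _ h6

/-- The strict order on three elements. -/
def T3 : FinStr where
  m := 1
  ar := fun _ => 2
  pos := fun _ => by norm_num
  a := 2
  R := fun _ => {z : Fin 2 → Fin 3 | z 0 < z 1}

theorem not_constr_T3 : ¬ PPConstr P2 T3.R := not_constr_aux

/-! ## The family -/

/-- The nested sum type behind `FinStr`. -/
def toSigma (C : FinStr) : Σ (m : ℕ) (ar : Fin m → ℕ) (a : ℕ),
    (∀ s : Fin m, Set (Fin (ar s) → Fin (a + 1))) := ⟨C.m, C.ar, C.a, C.R⟩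

theorem toSigma_injective : Function.Injective toSigma := by
  rintro ⟨m, ar, pos, a, R⟩ ⟨m', ar', pos', a', R'⟩ h
  simp only [toSigma, Sigma.mk.injEq] at h
  obtain ⟨rfl, h⟩ := h
  have h := eq_of_heq h
  simp only [Sigma.mk.injEq] at h
  obtain ⟨rfl, h⟩ := h
  have h := eq_of_heq h
  simp only [Sigma.mk.injEq] at h
  obtain ⟨rfl, h⟩ := h
  have h := eq_of_heq h
  subst h
  rfl

instance : Countable FinStr := toSigma_injective.countable

theorem main : ∃ C : ℕ → FinStr, ∀ (σ : Type u) (ar : σ → ℕ) (B : Type v) (R : Interp ar B),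
    Finite B → Nonempty B → (¬ PPConstr P2 R ↔ ∃ i, PPConstr R (C i).R) := by
  have hne : Nonempty {C : FinStr // ¬ PPConstr P2 C.R} := ⟨⟨T3, not_constr_T3⟩⟩
  obtain ⟨F, hF⟩ := exists_surjective_nat {C : FinStr // ¬ PPConstr P2 C.R}
  refine ⟨fun i => (F i).1, fun σ ar B R hB hB' => ⟨fun h => ?_, ?_⟩⟩
  · by_contra hcon
    push Not at hcon
    obtain ⟨n, ⟨e⟩⟩ := Finite.exists_equiv_fin B
    obtain ⟨a, rfl⟩ : ∃ a, n = a + 1 := by
      cases n with
      | zero => exact (e (Classical.arbitrary B)).elim0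
      | succ a => exact ⟨a, rfl⟩
    apply h
    apply constr_of_reducts R e
    intro m s hs
    by_contra hbad
    obtain ⟨i, hi⟩ := hF ⟨⟨m, fun t => ar (s t), hs, a, _⟩, hbad⟩
    apply hcon i
    beta_reduce
    rw [hi]
    exact PPConstr.reduct R s e
  · rintro ⟨i, hi⟩ h
    exact (F i).2 (h.trans hi)

end Run7.h150.PPC
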