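import Pool.Agent.Run7.h150.VNR

/-!
# The countable separation property and the extension lemmas
-/

namespace Run7.h150

open scoped Matrix

universe u

/-- Countable separation for rows and columns of length three. -/
def Sep3 (B : Type u) [Ring B] : Prop :=
  ∀ X Y : ℕ → Fin 3 → B, (∀ i j, ∑ p, X i p * Y j p = 0) →
    ∃ E : Matrix (Fin 3) (Fin 3) B,
      (∀ i q, ∑ p, X i p * E p q = 0) ∧ (∀ j p, ∑ q, E p q * Y j q = Y j p)

variable {B : Type u} [Ring B]

theorem Sep3.op (h : Sep3 B) : Sep3 Bᵐᵒᵖ := by
  intro X Y hXY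
  obtain ⟨E, hE1, hE2⟩ := h (fun j p => (Y j p).unop) (fun i p => (X i p).unop) (by
    intro i j
    have := congrArg MulOpposite.unop (hXY j i)
    simpa [Finset.unop_sum] using this)
  refine ⟨fun p q => MulOpposite.op ((1 - E) q p), ?_, ?_⟩
  · intro i q
    apply MulOpposite.unop_injective
    have := hE2 i q
    simp only [Finset.unop_sum, MulOpposite.unop_mul, MulOpposite.unop_op,
      MulOpposite.unop_zero, Matrix.sub_apply, sub_mul, Finset.sum_sub_distrib, this]
    simp [Matrix.one_apply]
  · intro j p
    apply MulOpposite.unop_injective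
    have := hE1 j p
    simp only [Finset.unop_sum, MulOpposite.unop_mul, MulOpposite.unop_op,
      Matrix.sub_apply, mul_sub, Finset.sum_sub_distrib, this]
    simp [Matrix.one_apply]

/-- The extraction lemma. -/
theorem extraction (hV : VNR B) (hS : Sep3 B) {ι κ : Type*} [Countable ι] [Countable κ]
    [Nonempty ι] [Nonempty κ] (w c l : ι → B) (s b z : κ → B)
    (h : ∀ i j, w i * s j + c i * b j + l i * z j = 0) :
    ∃ m y k : B, m * m = m ∧ (∀ i, c i * m = l i * y) ∧ (∀ j, (1 - m) * b j = k * s j) := by
  obtain ⟨f, hf⟩ := exists_surjective_nat ι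
  obtain ⟨g, hg⟩ := exists_surjective_nat κ
  obtain ⟨E, hE1, hE2⟩ := hS (fun i => ![w (f i), c (f i), l (f i)])
    (fun j => ![s (g j), b (g j), z (g j)]) (by
      intro i j
      simpa [Fin.sum_univ_three] using h (f i) (g j))
  obtain ⟨u, hu⟩ := hV.row (E 0)
  set r : B := ∑ p, E 1 p * u p with hr
  set ρ : Fin 3 → B := fun p => E 1 p - r * E 0 p with hρ
  obtain ⟨v, hv⟩ := hV.row ρ
  set m : B := ∑ p, ρ p * v p with hm
  set S : B := ∑ p, E 0 p * v p with hS'
  set t : Fin 3 → B := fun p => v p - u p * S with ht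
  have h0 : ∑ p, E 0 p * t p = 0 := by
    have e1 : ∑ p, E 0 p * t p = S - (∑ p, E 0 p * u p) * S := by
      simp only [ht, mul_sub, Finset.sum_sub_distrib, Finset.sum_mul, mul_assoc]
      rw [← hS']
    have e2 : (∑ p, E 0 p * u p) * S = S := by
      rw [hS', Finset.mul_sum]
      refine Finset.sum_congr rfl fun q _ => ?_
      rw [← mul_assoc, hu q]
    rw [e1, e2, sub_self]
  have h1 : ∑ p, E 1 p * t p = m := by
    have e1 : ∑ p, E 1 p * t p = ∑ p, E 1 p * v p - r * S := by
      simp only [ht, mul_sub, Finset.sum_sub_distrib, ← mul_assoc]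
      rw [hr, Finset.sum_mul]
    have e2 : m = ∑ p, E 1 p * v p - r * S := by
      simp only [hm, hρ, sub_mul, Finset.sum_sub_distrib, hS', Finset.mul_sum, mul_assoc]
    rw [e1, e2]
  have hmρ : ∀ p, m * ρ p = ρ p := fun p => hv p
  refine ⟨m, -(∑ p, E 2 p * t p), (1 - m) * r, ?_, ?_, ?_⟩
  · conv_lhs => rw [hm]
    rw [← hm, Finset.mul_sum]
    conv_rhs => rw [hm]
    refine Finset.sum_congr rfl fun p _ => ?_
    rw [← mul_assoc, hmρ]
  · intro i
    obtain ⟨i, rfl⟩ := hf i
    have key : w (f i) * (∑ q, E 0 q * t q) + c (f i) * (∑ q, E 1 q * t q)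
        + l (f i) * (∑ q, E 2 q * t q) = 0 := by
      have e : ∀ q, (w (f i) * E 0 q + c (f i) * E 1 q + l (f i) * E 2 q) * t q = 0 := by
        intro q
        have := hE1 i q
        simp only [Fin.sum_univ_three] at this
        have h' : w (f i) * E 0 q + c (f i) * E 1 q + l (f i) * E 2 q = 0 := by
          simpa using this
        rw [h', zero_mul]
      have e' : ∑ q, (w (f i) * E 0 q + c (f i) * E 1 q + l (f i) * E 2 q) * t q = 0 :=
        Finset.sum_eq_zero fun q _ => e q
      rw [← e']
      simp only [Finset.mul_sum, add_mul, Finset.sum_add_distrib, mul_assoc]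
    rw [h0, h1, mul_zero, zero_add] at key
    rw [mul_neg]
    exact eq_neg_of_add_eq_zero_left key
  · intro j
    obtain ⟨j, rfl⟩ := hg j
    set Y : Fin 3 → B := ![s (g j), b (g j), z (g j)] with hY
    have y0 : ∑ q, E 0 q * Y q = s (g j) := hE2 j 0
    have y1 : ∑ q, E 1 q * Y q = b (g j) := hE2 j 1
    have e : ∑ q, ρ q * Y q = b (g j) - r * s (g j) := by
      simp only [hρ, sub_mul, Finset.sum_sub_distrib, mul_assoc]
      rw [y1, ← Finset.mul_sum, y0]
    have e' : m * (∑ q, ρ q * Y q) = ∑ q, ρ q * Y q := by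
      rw [Finset.mul_sum]
      exact Finset.sum_congr rfl fun q _ => by rw [← mul_assoc, hmρ]
    rw [e] at e'
    have : (1 - m) * (b (g j) - r * s (g j)) = 0 := by
      rw [sub_mul, one_mul, e', sub_self]
    rw [mul_sub, sub_eq_zero] at this
    rw [this, mul_assoc]

/-- The key lemma: an extension problem from the left and one from the right can always be
split by an idempotent. -/
theorem keyLemma (hV : VNR B) (hS : Sep3 B) (q : B) (hq : q * q = q)
    (s b : ℕ → B) (hs : ∀ j, s j * s j = s j) (hs' : ∀ i j, i ≠ j → s i * s j = 0)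
    (hb : ∀ j, b j * s j = b j) (hqb : ∀ j, q * b j = b j)
    (l c : ℕ → B) (hl : ∀ j, l j * l j = l j) (hl' : ∀ i j, i ≠ j → l i * l j = 0)
    (hc : ∀ j, l j * c j = c j) (hcq : ∀ j, c j * q = c j) :
    ∃ n y k : B, n * n = n ∧ q * n = n ∧ n * q = n ∧ (∀ i, l i * y = c i * n) ∧
      (∀ j, (q - n) * b j = k * s j) ∧ (q - n) * k = k ∧ y * n = y := by
  have hbs : ∀ i j, b i * s j = if i = j then b i else 0 := by
    intro i j
    by_cases h : i = j
    · subst h; simp [hb]
    · rw [if_neg h, ← hb i, mul_assoc, hs' i j h, mul_zero]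
  have hlc : ∀ i j, l i * c j = if i = j then c i else 0 := by
    intro i j
    by_cases h : i = j
    · subst h; simp [hc]
    · rw [if_neg h, ← hc j, ← mul_assoc, hl' i j h, zero_mul]
  obtain ⟨m, y, k, hm, h1, h2⟩ := extraction hV hS (ι := Option ℕ) (κ := ℕ)
    (fun i => i.elim 0 (fun i => -∑ j ∈ Finset.range (i + 1), c i * b j))
    (fun i => i.elim (1 - q) c) (fun i => i.elim 0 l)
    s b (fun j => -∑ i ∈ Finset.range j, c i * b j) (by
      intro i j
      cases i with
      | none => simp [sub_mul, hqb]
      | some i =>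
        simp only [Option.elim]
        have e1 : (-∑ j ∈ Finset.range (i + 1), c i * b j) * s j
            = if j ≤ i then -(c i * b j) else 0 := by
          rw [neg_mul, Finset.sum_mul]
          have : ∀ x ∈ Finset.range (i + 1), c i * b x * s j
              = if x = j then c i * b j else 0 := by
            intro x _
            rw [mul_assoc, hbs]
            by_cases h : x = j
            · subst h; simp
            · simp [h]
          rw [Finset.sum_congr rfl this, Finset.sum_ite_eq']
          by_cases h : j ≤ i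
          · simp [h, Nat.lt_succ_of_le h]
          · simp [h]
        have e2 : l i * (-∑ i ∈ Finset.range j, c i * b j)
            = if j ≤ i then 0 else -(c i * b j) := by
          rw [mul_neg, Finset.mul_sum]
          have : ∀ x ∈ Finset.range j, l i * (c x * b j)
              = if i = x then c i * b j else 0 := by
            intro x _
            rw [← mul_assoc, hlc]
            by_cases h : i = x
            · simp [h]
            · simp [h]
          rw [Finset.sum_congr rfl this, Finset.sum_ite_eq]
          by_cases h : j ≤ i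
          · simp [h]
          · simp [h]
        rw [e1, e2]
        by_cases h : j ≤ i
        · simp [h]
        · simp [h])
  have hqm : q * m = m := by
    have := h1 none
    simp only [Option.elim, zero_mul] at this
    rw [sub_mul, one_mul, sub_eq_zero] at this
    exact this.symm
  have hcy : ∀ i, c i * m = l i * y := fun i => h1 (some i)
  have hnn : m * q * (m * q) = m * q := by
    rw [mul_assoc, ← mul_assoc q m q, hqm, ← mul_assoc, hm]
  have hcomp : (1 - m * q) = (1 - m * q) * (1 - m) := by
    have : m * q * m = m := by rw [mul_assoc, hqm, hm]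
    have e : (1 - m * q) * (1 - m) = 1 - m * q - m + m * q * m := by noncomm_ring
    rw [e, this]; abel
  have hqn : q * (m * q) = m * q := by rw [← mul_assoc, hqm]
  have hnq : m * q * q = m * q := by rw [mul_assoc, hq]
  have hfin : ∀ j, (q - m * q) * b j = ((q - m * q) * k) * s j := by
    intro j
    have e1 : (q - m * q) * b j = (1 - m * q) * b j := by
      rw [sub_mul, sub_mul, one_mul, hqb]
    have e2 : (1 - m * q) * b j = (1 - m * q) * k * s j := by
      calc (1 - m * q) * b j = (1 - m * q) * (1 - m) * b j := by rw [← hcomp]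
        _ = (1 - m * q) * ((1 - m) * b j) := mul_assoc _ _ _
        _ = _ := by rw [h2, mul_assoc]
    have e3 : (q - m * q) * (q - m * q) = q - m * q := by
      rw [sub_mul, mul_sub, mul_sub, hq, hqn, hnq, hnn]; abel
    have e4 : (q - m * q) * (1 - m * q) = q - m * q := by
      rw [sub_mul, mul_sub, mul_sub, mul_one, mul_one, hqn, hnn]; abel
    calc (q - m * q) * b j = (q - m * q) * (q - m * q) * b j := by rw [e3]
      _ = (q - m * q) * ((1 - m * q) * k * s j) := by rw [mul_assoc, e1, e2]
      _ = (q - m * q) * (1 - m * q) * k * s j := by simp only [mul_assoc]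
      _ = _ := by rw [e4]
  refine ⟨m * q, y * (m * q), (q - m * q) * k, hnn, hqn, hnq, ?_, hfin, ?_, ?_⟩
  · intro i
    rw [← mul_assoc, ← hcy i, mul_assoc, ← mul_assoc m m q, hm]
  · have e3 : (q - m * q) * (q - m * q) = q - m * q := by
      rw [sub_mul, mul_sub, mul_sub, hq, hqn, hnq, hnn]; abel
    rw [← mul_assoc, e3]
  · rw [mul_assoc, hnn]

end Run7.h150
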