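import Pool.Agent.Run7.h150.Sep

/-!
# Truncated equations in power series rings over a von Neumann regular ring
-/

namespace Run7.h150

open PowerSeries

universe u

variable {B : Type u} [Ring B]

/-- `t` and `t'` agree in degrees below `k`. -/
def Agree (k : ℕ) (t t' : B⟦X⟧) : Prop := ∀ i < k, coeff i t = coeff i t'

/-- `t` solves `a * t = 0` modulo `X ^ M`. -/
def Sol (a t : B⟦X⟧) (M : ℕ) : Prop := ∀ i < M, coeff i (a * t) = 0

/-- The first `k` coefficients of `t` extend, for every `M`, to a solution modulo `X ^ M`. -/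
def RGood (a : B⟦X⟧) (k : ℕ) (t : B⟦X⟧) : Prop :=
  ∀ M, ∃ t' : B⟦X⟧, Agree k t' t ∧ Sol a t' M

theorem Agree.symm {k : ℕ} {t t' : B⟦X⟧} (h : Agree k t t') : Agree k t' t :=
  fun i hi => (h i hi).symm

theorem Agree.trans {k : ℕ} {t t' t'' : B⟦X⟧} (h : Agree k t t') (h' : Agree k t' t'') :
    Agree k t t'' := fun i hi => (h i hi).trans (h' i hi)

theorem Agree.mono {k k' : ℕ} {t t' : B⟦X⟧} (h : Agree k t t') (hk : k' ≤ k) :
    Agree k' t t' := fun i hi => h i (lt_of_lt_of_le hi hk)

theorem Agree.coeff_mul {k : ℕ} {t t' : B⟦X⟧} (h : Agree k t t') (a : B⟦X⟧) {i : ℕ}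
    (hi : i < k) : coeff i (a * t) = coeff i (a * t') := by
  rw [PowerSeries.coeff_mul, PowerSeries.coeff_mul]
  refine Finset.sum_congr rfl fun p hp => ?_
  have hp' := Finset.HasAntidiagonal.mem_antidiagonal.1 hp
  rw [h p.2 (by omega)]

theorem Agree.coeff_mul' {k : ℕ} {t t' : B⟦X⟧} (h : Agree k t t') (a : B⟦X⟧) {i : ℕ}
    (hi : i < k) : coeff i (t * a) = coeff i (t' * a) := by
  rw [PowerSeries.coeff_mul, PowerSeries.coeff_mul]
  refine Finset.sum_congr rfl fun p hp => ?_
  have hp' := Finset.HasAntidiagonal.mem_antidiagonal.1 hp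
  rw [h p.1 (by omega)]

theorem Agree.mul_C {k : ℕ} {t t' : B⟦X⟧} (h : Agree k t t') (x : B) :
    Agree k (t * C x) (t' * C x) := fun i hi => by
  rw [PowerSeries.coeff_mul_C, PowerSeries.coeff_mul_C, h i hi]

theorem coeff_eq_sum_range (a t : B⟦X⟧) (i : ℕ) :
    coeff i (a * t) = ∑ j ∈ Finset.range (i + 1), coeff (i - j) a * coeff j t := by
  rw [PowerSeries.coeff_mul, ← Finset.Nat.sum_antidiagonal_swap,
    Finset.Nat.sum_antidiagonal_eq_sum_range_succ_mk]
  rfl

/-- A right linear solution operator for `a * t = g` modulo `X ^ n`. -/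
theorem exists_solver (hV : VNR B) (a : B⟦X⟧) (n : ℕ) :
    ∃ Φ : B⟦X⟧ →+ B⟦X⟧, (∀ g s, Φ (g * C s) = Φ g * C s) ∧
      (∀ g g', Agree n g g' → Φ g = Φ g') ∧ (∀ t, Agree n (a * Φ (a * t)) (a * t)) := by
  classical
  set T : Matrix (Fin n) (Fin n) B :=
    fun i j => if (j : ℕ) ≤ i then coeff ((i : ℕ) - j) a else 0 with hT
  obtain ⟨Q, hQ⟩ := hV.matrix (Fin n) T
  have hTt : ∀ (t : B⟦X⟧) (i : Fin n), ∑ j : Fin n, T i j * coeff (j : ℕ) t
      = coeff (i : ℕ) (a * t) := by
    intro t i
    rw [coeff_eq_sum_range]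
    have e1 : ∑ j : Fin n, T i j * coeff (j : ℕ) t
        = ∑ j ∈ Finset.range n, (if j ≤ (i : ℕ) then coeff ((i : ℕ) - j) a else 0)
            * coeff j t := by
      rw [← Fin.sum_univ_eq_sum_range (fun j => (if j ≤ (i : ℕ) then
        coeff ((i : ℕ) - j) a else 0) * coeff j t) n]
    rw [e1]
    have e2 : Finset.range ((i : ℕ) + 1) = (Finset.range n).filter (fun j => j ≤ (i : ℕ)) := by
      ext j
      have := i.2
      simp only [Finset.mem_range, Finset.mem_filter]
      omega
    rw [e2, Finset.sum_filter]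
    refine Finset.sum_congr rfl fun j _ => ?_
    by_cases h : j ≤ (i : ℕ)
    · simp [h]
    · simp [h]
  refine ⟨{ toFun := fun g => PowerSeries.mk fun i => if h : i < n then
              ∑ j : Fin n, Q ⟨i, h⟩ j * coeff (j : ℕ) g else 0
            map_zero' := by ext i; simp
            map_add' := by
              intro g g'
              ext i
              by_cases h : i < n
              · simp [h, mul_add, Finset.sum_add_distrib]
              · simp [h] }, ?_, ?_, ?_⟩
  · intro g s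
    ext i
    by_cases h : i < n
    · simp [h, PowerSeries.coeff_mul_C, Finset.sum_mul, mul_assoc]
    · simp [h, PowerSeries.coeff_mul_C]
  · intro g g' hg
    ext i
    by_cases h : i < n
    · simp only [AddMonoidHom.coe_mk, ZeroHom.coe_mk, coeff_mk, h, dif_pos]
      refine Finset.sum_congr rfl fun j _ => ?_
      rw [hg j j.2]
    · simp [h]
  · intro t i hi
    have h1 := hTt (PowerSeries.mk fun i => if h : i < n then
              ∑ j : Fin n, Q ⟨i, h⟩ j * coeff (j : ℕ) (a * t) else 0) ⟨i, hi⟩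
    simp only [AddMonoidHom.coe_mk, ZeroHom.coe_mk]
    simp only at h1
    rw [← h1]
    have h2 := congrFun (congrFun hQ ⟨i, hi⟩)
    have h3 : ∀ j : Fin n, coeff (j : ℕ) (PowerSeries.mk fun i => if h : i < n then
              ∑ j : Fin n, Q ⟨i, h⟩ j * coeff (j : ℕ) (a * t) else 0)
              = ∑ k : Fin n, Q j k * (∑ p : Fin n, T k p * coeff (p : ℕ) t) := by
      intro j
      simp only [coeff_mk, j.2, dif_pos, Fin.eta]
      exact Finset.sum_congr rfl fun k _ => by rw [hTt]
    simp only [h3]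
    have h4 : coeff i (a * t) = ∑ p : Fin n, T ⟨i, hi⟩ p * coeff (p : ℕ) t :=
      (hTt t ⟨i, hi⟩).symm
    rw [h4]
    have h5 : ∀ p : Fin n, T ⟨i, hi⟩ p = ∑ k : Fin n, (∑ j : Fin n, T ⟨i, hi⟩ j * Q j k) * T k p := by
      intro p
      rw [← h2 p, Matrix.mul_apply]
      rfl
    have h6 : ∑ p : Fin n, T ⟨i, hi⟩ p * coeff (p : ℕ) t
        = ∑ p : Fin n, (∑ k : Fin n, (∑ j : Fin n, T ⟨i, hi⟩ j * Q j k) * T k p)
            * coeff (p : ℕ) t := Finset.sum_congr rfl fun p _ => by rw [← h5 p]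
    rw [h6]
    simp only [Finset.mul_sum, Finset.sum_mul, mul_assoc]
    rw [Finset.sum_comm]
    rw [Finset.sum_comm (s := Finset.univ) (t := Finset.univ)
      (f := fun p k => ∑ j : Fin n, T ⟨i, hi⟩ j * (Q j k * (T k p * coeff (p : ℕ) t)))]
    refine Finset.sum_congr rfl fun k _ => ?_
    rw [Finset.sum_comm]

theorem Sol.mul_C {a t : B⟦X⟧} {M : ℕ} (h : Sol a t M) (x : B) : Sol a (t * C x) M := by
  intro i hi
  rw [← mul_assoc, PowerSeries.coeff_mul_C, h i hi, zero_mul]

theorem Sol.add {a t t' : B⟦X⟧} {M : ℕ} (h : Sol a t M) (h' : Sol a t' M) :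
    Sol a (t + t') M := by
  intro i hi
  rw [mul_add, map_add, h i hi, h' i hi, add_zero]

theorem Sol.sub {a t t' : B⟦X⟧} {M : ℕ} (h : Sol a t M) (h' : Sol a t' M) :
    Sol a (t - t') M := by
  intro i hi
  rw [mul_sub, map_sub, h i hi, h' i hi, sub_zero]

theorem Sol.mono {a t : B⟦X⟧} {M M' : ℕ} (h : Sol a t M) (hM : M' ≤ M) : Sol a t M' :=
  fun i hi => h i (lt_of_lt_of_le hi hM)

/-- A series with vanishing coefficients below `k` is divisible by `X ^ k`. -/
theorem eq_X_pow_mul (k : ℕ) (t : B⟦X⟧) (h : ∀ i < k, coeff i t = 0) :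
    t = X ^ k * PowerSeries.mk (fun i => coeff (k + i) t) := by
  ext i
  rw [PowerSeries.coeff_X_pow_mul']
  by_cases hi : k ≤ i
  · rw [if_pos hi, coeff_mk, Nat.add_sub_cancel' hi]
  · rw [if_neg hi, h i (not_le.1 hi)]

theorem Sol.X_pow_mul {a t : B⟦X⟧} {k M : ℕ} : Sol a (X ^ k * t) (k + M) ↔ Sol a t M := by
  have e : a * (X ^ k * t) = X ^ k * (a * t) := by
    rw [← mul_assoc, ← PowerSeries.X_pow_mul, mul_assoc]
  constructor
  · intro h i hi
    have := h (k + i) (by omega)
    rw [e, add_comm k i, PowerSeries.coeff_X_pow_mul] at this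
    exact this
  · intro h i hi
    rw [e, PowerSeries.coeff_X_pow_mul']
    by_cases hk : k ≤ i
    · rw [if_pos hk]; exact h _ (by omega)
    · rw [if_neg hk]

/-- Nested idempotent generators of the right ideals of leading coefficients of the
solutions of `a * t = 0` modulo `X ^ n`. -/
structure KData (a : B⟦X⟧) where
  e : ℕ → B
  zero : e 0 = 1
  h1 : ∀ n, e n * e (n + 1) = e (n + 1)
  h2 : ∀ n, e (n + 1) * e n = e (n + 1)
  idem : ∀ n, e n * e n = e n
  mem : ∀ n, ∃ t, Sol a t n ∧ coeff 0 t = e n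
  fix : ∀ n t, Sol a t n → e n * coeff 0 t = coeff 0 t

theorem exists_K_gen (hV : VNR B) (a : B⟦X⟧) (n : ℕ) :
    ∃ ε : B, (∃ t, Sol a t n ∧ coeff 0 t = ε) ∧ ∀ t, Sol a t n → ε * coeff 0 t = coeff 0 t := by
  obtain ⟨Φ, hC, hA, hS⟩ := exists_solver hV a n
  -- the projection onto solutions
  set P : B⟦X⟧ → B⟦X⟧ := fun t => t - Φ (a * t) with hP
  have hPsol : ∀ t, Sol a (P t) n := by
    intro t i hi
    rw [hP]
    simp only
    rw [mul_sub, map_sub, hS t i hi, sub_self]
  have hPC : ∀ t s, P (t * C s) = P t * C s := by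
    intro t s
    simp only [hP]
    rw [← mul_assoc, hC, sub_mul]
  have hPfix : ∀ t, Sol a t n → P t = t := by
    intro t ht
    simp only [hP]
    have : Φ (a * t) = Φ 0 := hA _ _ (fun i hi => by rw [ht i hi]; simp)
    rw [this, map_zero, sub_zero]
  -- coefficients of `P` on the basis
  obtain ⟨u, hu⟩ := hV.row_finset (fun j : ℕ => coeff 0 (P (X ^ j))) (Finset.range (n + 1))
  set ε : B := ∑ j ∈ Finset.range (n + 1), coeff 0 (P (X ^ j)) * u j with hε
  refine ⟨ε, ⟨∑ j ∈ Finset.range (n + 1), P (X ^ j) * C (u j), ?_, ?_⟩, ?_⟩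
  · intro i hi
    rw [Finset.mul_sum, map_sum]
    exact Finset.sum_eq_zero fun j _ => (hPsol _).mul_C _ i hi
  · rw [map_sum]
    exact Finset.sum_congr rfl fun j _ => by rw [PowerSeries.coeff_mul_C]
  · intro t ht
    -- replace `t` by its truncation
    set t' : B⟦X⟧ := ∑ j ∈ Finset.range (n + 1), X ^ j * C (coeff j t) with ht'
    have hag : Agree (n + 1) t' t := by
      intro i hi
      rw [ht', map_sum]
      rw [Finset.sum_eq_single i]
      · rw [PowerSeries.coeff_mul_C, PowerSeries.coeff_X_pow_self, one_mul]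
      · intro b _ hb
        rw [PowerSeries.coeff_mul_C, PowerSeries.coeff_X_pow, if_neg (Ne.symm hb), zero_mul]
      · intro h; exact absurd (Finset.mem_range.2 hi) h
    have hsol' : Sol a t' n := by
      intro i hi
      rw [hag.coeff_mul a (i := i) (by omega)]
      exact ht i hi
    have hsum : coeff 0 t' = ∑ j ∈ Finset.range (n + 1), coeff 0 (P (X ^ j)) * coeff j t := by
      conv_lhs => rw [← hPfix t' hsol']
      have : P t' = ∑ j ∈ Finset.range (n + 1), P (X ^ j) * C (coeff j t) := by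
        simp only [hP, ht']
        rw [Finset.mul_sum, map_sum, ← Finset.sum_sub_distrib]
        refine Finset.sum_congr rfl fun j _ => ?_
        rw [← mul_assoc, hC, sub_mul]
      rw [this, map_sum]
      exact Finset.sum_congr rfl fun j _ => by rw [PowerSeries.coeff_mul_C]
    rw [← hag 0 (by omega), hsum, Finset.mul_sum]
    refine Finset.sum_congr rfl fun j hj => ?_
    rw [← mul_assoc, hu j hj]

theorem exists_KData (hV : VNR B) (a : B⟦X⟧) : Nonempty (KData a) := by
  classical
  choose ε hε1 hε2 using exists_K_gen hV a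
  have hεn : ∀ n x, (∃ t, Sol a t n ∧ coeff 0 t = x) → ε n * x = x := by
    rintro n x ⟨t, ht, rfl⟩; exact hε2 n t ht
  -- recursion
  let e : ℕ → B := fun n => Nat.rec 1 (fun n y => ε (n + 1) * y) n
  have he0 : e 0 = 1 := rfl
  have hes : ∀ n, e (n + 1) = ε (n + 1) * e n := fun _ => rfl
  have hmem : ∀ n, ∃ t, Sol a t n ∧ coeff 0 t = e n := by
    intro n
    cases n with
    | zero => exact ⟨1, fun i hi => absurd hi (Nat.not_lt_zero i), by simp [he0]⟩
    | succ n =>
      obtain ⟨t, ht, ht0⟩ := hε1 (n + 1)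
      refine ⟨t * C (e n), ht.mul_C _, ?_⟩
      rw [PowerSeries.coeff_mul_C, ht0, hes]
  have hfix : ∀ n t, Sol a t n → e n * coeff 0 t = coeff 0 t := by
    intro n
    induction n with
    | zero => intro t _; rw [he0, one_mul]
    | succ n ih =>
      intro t ht
      rw [hes, mul_assoc, ih t (ht.mono (Nat.le_succ n)), hε2 _ t ht]
  have hfix' : ∀ n m, n ≤ m → e n * e m = e m := by
    intro n m hnm
    obtain ⟨t, ht, ht0⟩ := hmem m
    rw [← ht0, hfix n t (ht.mono hnm)]
  have hidem : ∀ n, e n * e n = e n := fun n => hfix' n n le_rfl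
  exact ⟨{ e := e, zero := he0, h1 := fun n => hfix' n (n + 1) (Nat.le_succ n),
           h2 := fun n => by rw [hes, mul_assoc, hidem], idem := hidem, mem := hmem,
           fix := hfix }⟩

namespace KData

variable {a : B⟦X⟧} (K : KData a)

theorem e_mul {n m : ℕ} (h : n ≤ m) : K.e n * K.e m = K.e m := by
  obtain ⟨t, ht, ht0⟩ := K.mem m
  rw [← ht0, K.fix n t (ht.mono h)]

theorem mul_e {n m : ℕ} (h : n ≤ m) : K.e m * K.e n = K.e m := by
  induction m, h using Nat.le_induction with
  | base => exact K.idem n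
  | succ m _ ih => rw [← K.h2 m, mul_assoc, ih]

/-- The orthogonal idempotents. -/
def l (p : ℕ) : B := K.e p - K.e (p + 1)

theorem l_idem (p : ℕ) : K.l p * K.l p = K.l p := by
  simp only [l, sub_mul, mul_sub, K.idem, K.h1, K.h2]; abel

theorem l_orth {i j : ℕ} (h : i ≠ j) : K.l i * K.l j = 0 := by
  simp only [l, sub_mul, mul_sub]
  rcases lt_or_gt_of_ne h with h | h
  · rw [K.e_mul (show i ≤ j by omega), K.e_mul (show i ≤ j + 1 by omega),
      K.e_mul (show i + 1 ≤ j by omega), K.e_mul (show i + 1 ≤ j + 1 by omega)]; abel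
  · rw [K.mul_e (show j ≤ i by omega), K.mul_e (show j + 1 ≤ i by omega),
      K.mul_e (show j ≤ i + 1 by omega), K.mul_e (show j + 1 ≤ i + 1 by omega)]; abel

theorem sum_l (n : ℕ) : ∑ p ∈ Finset.range n, K.l p = 1 - K.e n := by
  simp only [l]
  rw [Finset.sum_range_sub', K.zero]

/-- elements annihilated by all `l p` are leading coefficients at all levels -/
theorem mem_of_l {x : B} (n : ℕ) (h : ∀ p < n, K.l p * x = 0) :
    ∃ t, Sol a t n ∧ coeff 0 t = x := by
  obtain ⟨t, ht, ht0⟩ := K.mem n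
  refine ⟨t * C x, ht.mul_C x, ?_⟩
  rw [PowerSeries.coeff_mul_C, ht0]
  have : (1 - K.e n) * x = 0 := by
    rw [← K.sum_l, Finset.sum_mul]
    exact Finset.sum_eq_zero fun p hp => h p (Finset.mem_range.1 hp)
  rw [sub_mul, one_mul, sub_eq_zero] at this
  exact this.symm

theorem l_mul_coeff {t : B⟦X⟧} {p : ℕ} (h : Sol a t (p + 1)) : K.l p * coeff 0 t = 0 := by
  simp only [l, sub_mul]
  rw [K.fix (p + 1) t h, K.fix p t (h.mono (Nat.le_succ p)), sub_self]

end KData

/-- The series with coefficients `coeff i t * n` below `k`, `y` in degree `k`, and `0`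
beyond. -/
noncomputable def ser (k : ℕ) (t : B⟦X⟧) (n y : B) : B⟦X⟧ :=
  PowerSeries.mk fun i => if i < k then coeff i t * n else if i = k then y else 0

theorem coeff_ser_lt {k i : ℕ} (t : B⟦X⟧) (n y : B) (h : i < k) :
    coeff i (ser k t n y) = coeff i t * n := by
  rw [ser, coeff_mk, if_pos h]

theorem coeff_ser_self (k : ℕ) (t : B⟦X⟧) (n y : B) : coeff k (ser k t n y) = y := by
  rw [ser, coeff_mk, if_neg (lt_irrefl k), if_pos rfl]

/-- The obstruction to lifting a `k`-good series to level `k + 1`. -/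
theorem obstruction {a : B⟦X⟧} (K : KData a) {k : ℕ} {t : B⟦X⟧} {q : B} (hq : q * q = q)
    (htq : t * C q = t) (hg : RGood a k t) :
    ∃ c : ℕ → B, (∀ p, K.l p * c p = c p) ∧ (∀ p, c p * q = c p) ∧
      ∀ n y, (∀ p, K.l p * y = c p * n) → RGood a (k + 1) (ser k t n y) := by
  choose t' ht' hs' using hg
  -- normalise by multiplying with `q`
  set T : ℕ → B⟦X⟧ := fun M => t' M * C q with hT
  have hTa : ∀ M, Agree k (T M) t := by
    intro M i hi
    simp only [hT]
    rw [PowerSeries.coeff_mul_C, ht' M i hi, ← PowerSeries.coeff_mul_C, htq]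
  have hTs : ∀ M, Sol a (T M) M := fun M => (hs' M).mul_C q
  have hTq : ∀ M, coeff k (T M) * q = coeff k (T M) := by
    intro M
    simp only [hT]
    rw [PowerSeries.coeff_mul_C, mul_assoc, hq]
  have hl : ∀ p M, k + p + 1 ≤ M →
      K.l p * coeff k (T M) = K.l p * coeff k (T (k + p + 1)) := by
    intro p M hM
    have hD : Sol a (T M - T (k + p + 1)) (k + (p + 1)) :=
      ((hTs M).mono (by omega)).sub ((hTs (k + p + 1)).mono (by omega))
    have hD0 : ∀ i < k, coeff i (T M - T (k + p + 1)) = 0 := by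
      intro i hi
      rw [map_sub, hTa M i hi, hTa _ i hi, sub_self]
    rw [eq_X_pow_mul k _ hD0, Sol.X_pow_mul] at hD
    have := K.l_mul_coeff hD
    rw [coeff_mk, add_zero, map_sub, mul_sub, sub_eq_zero] at this
    exact this
  refine ⟨fun p => K.l p * coeff k (T (k + p + 1)), ?_, ?_, ?_⟩
  · intro p; rw [← mul_assoc, K.l_idem]
  · intro p; rw [mul_assoc, hTq]
  · intro n y hy M
    obtain ⟨τ, hτ, hτ0⟩ := K.mem_of_l (x := y - coeff k (T (k + (M + 1))) * n) (M + 1) (by
      intro p hp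
      rw [mul_sub, hy p, ← mul_assoc, hl p (k + (M + 1)) (by omega), sub_self])
    refine ⟨T (k + (M + 1)) * C n + X ^ k * τ, ?_, ?_⟩
    · intro i hi
      rw [map_add, PowerSeries.coeff_mul_C, PowerSeries.coeff_X_pow_mul']
      by_cases h : k ≤ i
      · have : i = k := by omega
        subst this
        rw [if_pos le_rfl, Nat.sub_self, hτ0, coeff_ser_self]; abel
      · rw [if_neg h, add_zero, hTa _ i (not_le.1 h), coeff_ser_lt _ _ _ (not_le.1 h)]
    · exact (((hTs _).mul_C n).add (Sol.X_pow_mul.2 hτ)).mono (by omega)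

/-- Dependent choice along `ℕ`. -/
theorem dep_seq {α : Type*} (P : ℕ → α → Prop) (R : ℕ → α → α → Prop) (x : α) (h0 : P 0 x)
    (step : ∀ i x, P i x → ∃ y, P (i + 1) y ∧ R i x y) :
    ∃ f : ℕ → α, f 0 = x ∧ (∀ i, P i (f i)) ∧ ∀ i, R i (f i) (f (i + 1)) := by
  classical
  choose! g hg1 hg2 using step
  let f : ℕ → α := fun n => Nat.rec x (fun n y => g n y) n
  have hf : ∀ i, P i (f i) := by
    intro i
    induction i with
    | zero => exact h0
    | succ i ih => exact hg1 i (f i) ih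
  exact ⟨f, rfl, hf, fun i => hg2 i (f i) (hf i)⟩

/-- Splitting off a part which lifts to an honest solution. -/
theorem liftSplit (hV : VNR B) (hS : Sep3 B) {a : B⟦X⟧} {k : ℕ} (hk : 1 ≤ k) {q : B}
    (hq : q * q = q) {t : B⟦X⟧} (ht0 : coeff 0 t = q) (htq : t * C q = t)
    (hg : RGood a k t)
    (s b : ℕ → B) (hs : ∀ j, s j * s j = s j) (hs' : ∀ i j, i ≠ j → s i * s j = 0)
    (hb : ∀ j, b j * s j = b j) (hqb : ∀ j, q * b j = b j) :
    ∃ (n : B) (τ : B⟦X⟧) (h : B), n * n = n ∧ q * n = n ∧ n * q = n ∧ a * τ = 0 ∧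
      τ * C n = τ ∧ Agree k τ (t * C n) ∧ ∀ j, (q - n) * b j = h * s j := by
  obtain ⟨K⟩ := exists_KData hV a
  obtain ⟨f, hf0, hfP, hfR⟩ := dep_seq (α := B × B⟦X⟧ × B)
    (fun i x => x.1 * x.1 = x.1 ∧ q * x.1 = x.1 ∧ x.1 * q = x.1 ∧ coeff 0 x.2.1 = x.1 ∧
      x.2.1 * C x.1 = x.2.1 ∧ RGood a (k + i) x.2.1 ∧
      ∀ j, (1 - x.1) * (b j - x.2.2 * s j) = 0)
    (fun i x y => x.1 * y.1 = y.1 ∧ Agree (k + i) y.2.1 (x.2.1 * C y.1))
    (q, t, 0)
    ⟨hq, hq, hq, ht0, htq, hg, fun j => by simp [sub_mul, hqb]⟩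
    (by
      rintro i ⟨n, τ, h⟩ ⟨hn, hqn, hnq, hτ0, hτn, hτg, hnb⟩
      simp only at hn hqn hnq hτ0 hτn hτg hnb
      obtain ⟨c, hc1, hc2, hc3⟩ := obstruction K hn hτn hτg
      have hnb' : ∀ j, n * (b j - h * s j) = b j - h * s j := by
        intro j
        have := hnb j
        rw [sub_mul, one_mul, sub_eq_zero] at this
        exact this.symm
      have hbs : ∀ j, (b j - h * s j) * s j = b j - h * s j := by
        intro j
        rw [sub_mul, hb, mul_assoc, hs]
      obtain ⟨n', y, k', hn', hnn', hn'n, hly, hk', hkk', hyn⟩ :=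
        keyLemma hV hS n hn s (fun j => b j - h * s j) hs hs' hbs hnb' K.l c K.l_idem
          (fun i j hij => K.l_orth hij) hc1 hc2
      refine ⟨(n', ser (k + i) τ n' y, h + k'), ⟨hn', ?_, ?_, ?_, ?_, ?_, ?_⟩, hnn', ?_⟩
      · change q * n' = n'
        rw [← hnn', ← mul_assoc, hqn]
      · change n' * q = n'
        rw [← hn'n, mul_assoc, hnq]
      · change coeff 0 (ser (k + i) τ n' y) = n'
        rw [coeff_ser_lt _ _ _ (by omega), hτ0, hnn']
      · change ser (k + i) τ n' y * C n' = ser (k + i) τ n' y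
        ext p
        rw [PowerSeries.coeff_mul_C, ser, coeff_mk]
        by_cases h1 : p < k + i
        · rw [if_pos h1, mul_assoc, hn']
        · rw [if_neg h1]
          by_cases h2 : p = k + i
          · rw [if_pos h2, hyn]
          · rw [if_neg h2, zero_mul]
      · exact hc3 n' y hly
      · intro j
        change (1 - n') * (b j - (h + k') * s j) = 0
        have e : b j - (h + k') * s j = n' * (b j - h * s j) := by
          have := hk' j
          rw [sub_mul, hnb'] at this
          rw [add_mul, ← this]; abel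
        rw [e, ← mul_assoc, sub_mul, one_mul, hn', sub_self, zero_mul]
      · intro p hp
        change coeff p (ser (k + i) τ n' y) = _
        rw [coeff_ser_lt _ _ _ hp, PowerSeries.coeff_mul_C])
  -- notation for the components
  have hP := hfP
  -- the limit
  obtain ⟨m, y, h, hm, h1, h2⟩ := extraction hV hS (ι := ℕ) (κ := ℕ)
    (fun i => -((1 - (f i).1) * (f i).2.2)) (fun i => 1 - (f i).1) (fun _ => 0)
    s b (fun _ => 0) (by
      intro i j
      have := (hP i).2.2.2.2.2.2 j
      rw [mul_sub, ← mul_assoc] at this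
      rw [neg_mul, zero_mul, add_zero, neg_add_eq_sub]
      exact this)
  have hfm : ∀ i, (f i).1 * m = m := by
    intro i
    have := h1 i
    rw [zero_mul, sub_mul, one_mul, sub_eq_zero] at this
    exact this.symm
  have hqm : q * m = m := by
    have := hfm 0
    rwa [hf0] at this
  set n : B := m * q with hn
  have hnn : n * n = n := by
    rw [hn, mul_assoc, ← mul_assoc q m q, hqm, ← mul_assoc, hm]
  have hqn : q * n = n := by rw [hn, ← mul_assoc, hqm]
  have hnq : n * q = n := by rw [hn, mul_assoc, hq]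
  have hfn : ∀ i, (f i).1 * n = n := fun i => by rw [hn, ← mul_assoc, hfm]
  have hstab : ∀ p i, p ≤ i → coeff p (f i).2.1 * n = coeff p (f p).2.1 * n := by
    intro p i hpi
    induction i, hpi using Nat.le_induction with
    | base => rfl
    | succ i hi ih =>
      have := (hfR i).2 p (by omega)
      rw [this, PowerSeries.coeff_mul_C, mul_assoc, hfn, ih]
  refine ⟨n, PowerSeries.mk fun p => coeff p (f p).2.1 * n, (1 - n) * h, hnn, hqn, hnq,
    ?_, ?_, ?_, ?_⟩
  · -- `a * τ = 0`
    ext M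
    have hag : Agree (M + 1) (PowerSeries.mk fun p => coeff p (f p).2.1 * n)
        ((f M).2.1 * C n) := by
      intro p hp
      rw [coeff_mk, PowerSeries.coeff_mul_C, hstab p M (by omega)]
    rw [hag.coeff_mul a (Nat.lt_succ_self M), map_zero, ← mul_assoc, PowerSeries.coeff_mul_C]
    obtain ⟨t', ht'1, ht'2⟩ := (hP M).2.2.2.2.2.1 (M + 1)
    rw [← ht'1.coeff_mul a (show M < k + M by omega), ht'2 M (Nat.lt_succ_self M), zero_mul]
  · ext p
    rw [PowerSeries.coeff_mul_C, coeff_mk, mul_assoc, hnn]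
  · intro p hp
    rw [coeff_mk, PowerSeries.coeff_mul_C]
    have : ∀ i, coeff p (f i).2.1 * n = coeff p t * n := by
      intro i
      induction i with
      | zero => rw [hf0]
      | succ i ih =>
        rw [(hfR i).2 p (by omega), PowerSeries.coeff_mul_C, mul_assoc, hfn, ih]
    exact this p
  · intro j
    have hcomp : (1 - n) * (1 - m) = 1 - n := by
      have : n * m = m := by rw [hn, mul_assoc, hqm, hm]
      have e : (1 - n) * (1 - m) = 1 - n - m + n * m := by noncomm_ring
      rw [e, this]; abel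
    have e1 : (q - n) * b j = (1 - n) * b j := by
      rw [sub_mul, sub_mul, one_mul, hqb]
    rw [e1, ← hcomp, mul_assoc, h2 j, hcomp, mul_assoc]

end Run7.h150
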