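import Pool.Agent.Run7.h150.Good

/-!
# From good idempotents to solutions of `a * u = 0`, `u * r = r`
-/

namespace Run7.h150

open PowerSeries MulOpposite

universe u

variable {B : Type u} [Ring B]

theorem agree_unopS {k : ℕ} {t t' : Bᵐᵒᵖ⟦X⟧} :
    Agree k (unopS t) (unopS t') ↔ Agree k t t' := by
  rw [← agree_opS, opS_unopS, opS_unopS]

theorem Agree.C_mul {k : ℕ} {t t' : B⟦X⟧} (h : Agree k t t') (x : B) :
    Agree k (C x * t) (C x * t') := fun i hi => by
  rw [PowerSeries.coeff_C_mul, PowerSeries.coeff_C_mul, h i hi]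

/-- Full step. -/
theorem State.step (hV : VNR B) (hS : Sep3 B) {a r : B⟦X⟧} {k k' : ℕ} (hk : 1 ≤ k)
    (hk' : 1 ≤ k') {m m' : B} {t t' : B⟦X⟧} (h : State a r k k' m m' t t') :
    ∃ (n n' : B) (σ σ' : B⟦X⟧), State a r (k + 1) (k' + 1) n n' σ σ' ∧ m * n = m ∧ n * m = m ∧
      m' * n' = n' ∧ n' * m' = n' ∧ Agree k σ (t * C n') ∧ Agree k' σ' (C (1 - n) * t') := by
  obtain ⟨n, σ, σ', h1, hmn, hnm, hσ, hσ'⟩ := h.step1 hV hS hk hk'
  obtain ⟨ν, ρ, ρ', h2, hν1, hν2, hρ, hρ'⟩ :=
    (h1.opp).step1 hV.op hS.op (by omega : 1 ≤ k' + 1) hk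
  have h3 := h2.unopp
  have e1 : (1 : B) - unop (op (1 - n)) = n := by simp
  rw [e1] at h3
  refine ⟨n, 1 - unop ν, unopS ρ', unopS ρ, h3, hmn, hnm, ?_, ?_, ?_, ?_⟩
  · have := congrArg unop hν2
    rw [unop_mul, unop_op] at this
    have e : m' * (1 - unop ν) = (1 - unop ν) - (1 - m') * (1 - unop ν) := by noncomm_ring
    have e' : (1 - m') * (1 - unop ν) = (1 - m') - (1 - m') * unop ν := by noncomm_ring
    rw [e, e', this]; abel
  · have := congrArg unop hν1
    rw [unop_mul, unop_op] at this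
    have e : (1 - unop ν) * m' = (1 - unop ν) - (1 - unop ν) * (1 - m') := by noncomm_ring
    have e' : (1 - unop ν) * (1 - m') = (1 - m') - unop ν * (1 - m') := by noncomm_ring
    rw [e, e', this]; abel
  · have e : opS (σ * C (1 - unop ν)) = C (1 - ν) * opS σ := by
      rw [opS_mul, opS_C]; congr 2
    have h4 : Agree k (unopS ρ') (σ * C (1 - unop ν)) := by
      rw [← agree_opS, opS_unopS, e]; exact hρ'
    exact h4.trans (hσ.mul_C _)
  · have h4 : Agree k' (unopS ρ) σ' := by
      rw [← agree_opS, opS_unopS]; exact hρ.mono (Nat.le_succ k')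
    exact h4.trans hσ'

theorem X_pow_mul_left_cancel (n : ℕ) {s t : B⟦X⟧} (h : X ^ n * s = X ^ n * t) : s = t := by
  ext i
  have := congrArg (coeff (i + n)) h
  rwa [PowerSeries.coeff_X_pow_mul, PowerSeries.coeff_X_pow_mul] at this

theorem exists_dual (hV : VNR B) {a r : B⟦X⟧} (har : a * r = 0) (f : ℕ → B) (hf0 : f 0 = 1)
    (hf : ∀ n (t : B⟦X⟧), (∀ i < n, coeff i (t * r) = 0) → coeff 0 t * f n = coeff 0 t)
    (n : ℕ) : ∃ ρ : B⟦X⟧, a * ρ = 0 ∧ coeff 0 ρ = 1 - f n := by
  rcases Nat.eq_zero_or_pos n with rfl | hn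
  · exact ⟨0, mul_zero a, by rw [hf0, sub_self, map_zero]⟩
  · obtain ⟨d, ρ, h1, h2⟩ := duality hV r n hn (1 - f n) (by
      intro t ht
      rw [mul_sub, mul_one, hf n t ht, sub_self])
    refine ⟨ρ, ?_, h2⟩
    apply X_pow_mul_left_cancel (n - 1)
    rw [mul_zero, ← mul_assoc, PowerSeries.X_pow_mul, mul_assoc, ← h1, ← mul_assoc, har,
      zero_mul]

/-- The starting state. -/
theorem exists_state (hV : VNR B) (hS : Sep3 B) {a r : B⟦X⟧} (har : a * r = 0) :
    ∃ (m m' : B) (t t' : B⟦X⟧), State a r 1 1 m m' t t' := by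
  obtain ⟨K⟩ := exists_KData hV a
  obtain ⟨K'⟩ := exists_KData hV.op (opS r)
  have hs : ∀ j, ∃ ρ : B⟦X⟧, a * ρ = 0 ∧ coeff 0 ρ = unop (K'.l j) := by
    intro j
    have key := exists_dual hV har (fun n => unop (K'.e n)) (by rw [K'.zero]; rfl) (by
      intro n t ht
      have := K'.fix n (opS t) (by
        intro i hi
        rw [← opS_mul, coeff_opS, ht i hi, op_zero])
      rw [coeff_opS] at this
      have := congrArg unop this
      rwa [unop_mul, unop_op] at this)
    obtain ⟨ρ, h1, h2⟩ := key j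
    obtain ⟨ρ', h1', h2'⟩ := key (j + 1)
    refine ⟨ρ' - ρ, by rw [mul_sub, h1, h1', sub_zero], ?_⟩
    rw [map_sub, h2, h2', KData.l, unop_sub]
    abel
  have hl : ∀ j, ∃ ρ : Bᵐᵒᵖ⟦X⟧, opS r * ρ = 0 ∧ coeff 0 ρ = op (K.l j) := by
    intro j
    have key := exists_dual hV.op (a := opS r) (r := opS a)
      (by rw [← opS_mul, har, opS_zero]) (fun n => op (K.e n)) (by rw [K.zero]; rfl) (by
      intro n t ht
      have := K.fix n (unopS t) (by
        intro i hi
        have h1 := ht i hi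
        have e : opS (a * unopS t) = t * opS a := by rw [opS_mul, opS_unopS]
        rw [← e, coeff_opS] at h1
        exact (op_eq_zero_iff _).1 h1)
      rw [coeff_unopS] at this
      have := congrArg op this
      rwa [op_mul, op_unop] at this)
    obtain ⟨ρ, h1, h2⟩ := key j
    obtain ⟨ρ', h1', h2'⟩ := key (j + 1)
    refine ⟨ρ' - ρ, by rw [mul_sub, h1, h1', sub_zero], ?_⟩
    rw [map_sub, h2, h2', KData.l, op_sub]
    abel
  obtain ⟨m, t₀, hm, hms, -, hat, ht0, htm⟩ := liftStart hV hS a (fun j => unop (K'.l j))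
    (fun j => by have := congrArg unop (K'.l_idem j); rwa [unop_mul] at this)
    (fun i j hij => by
      have := congrArg unop (K'.l_orth (Ne.symm hij)); rwa [unop_mul, unop_zero] at this)
    hs (fun _ => 0) (fun _ _ => zero_mul _)
  have hlm : ∀ p, K.l p * m = 0 := by
    intro p
    rw [← ht0]
    exact K.l_mul_coeff (fun i _ => by rw [hat, map_zero])
  obtain ⟨e', t₁, he', hel', hme', hrt, ht1, hte'⟩ := liftStart hV.op hS.op (opS r)
    (fun j => op (K.l j))
    (fun j => by rw [← op_mul, K.l_idem])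
    (fun i j hij => by rw [← op_mul, K.l_orth (Ne.symm hij), op_zero])
    hl (fun _ => op m) (fun _ j => by rw [← op_mul, hlm, op_zero])
  -- translate
  set e : B := unop e' with he
  have hee : e * e = e := by have := congrArg unop he'; rwa [unop_mul] at this
  have hle : ∀ j, K.l j * e = K.l j := fun j => by
    have := congrArg unop (hel' j); rwa [unop_mul, unop_op] at this
  have hem : e * m = 0 := by
    have := congrArg unop (hme' 0); rwa [unop_mul, unop_op, unop_zero] at this
  have htr : unopS t₁ * r = 0 := by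
    apply opS_injective
    rw [opS_mul, opS_unopS, hrt, opS_zero]
  have ht1' : coeff 0 (unopS t₁) = e := by rw [coeff_unopS, ht1]
  set ε : B := (1 - m) * e with hε
  have hεε : ε * ε = ε := by
    have : ε * ε = (1 - m) * (e * e) - (1 - m) * (e * m) * e := by rw [hε]; noncomm_ring
    rw [this, hee, hem]; simp [hε]
  have hmε : m * ε = 0 := by
    have : m * ε = m * e - m * m * e := by rw [hε]; noncomm_ring
    rw [this, hm, sub_self]
  have hεm : ε * m = 0 := by rw [hε, mul_assoc, hem, mul_zero]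
  obtain ⟨m', hm'⟩ : ∃ m' : B, m' = 1 - ε := ⟨_, rfl⟩
  have hm'm' : m' * m' = m' := by
    rw [hm', one_sub_mul_one_sub, hεε]; abel
  have hmm' : m * m' = m := by rw [hm', mul_sub, mul_one, hmε, sub_zero]
  have hm'm : m' * m = m := by rw [hm', sub_mul, one_mul, hεm, sub_zero]
  refine ⟨m, m', t₀ + C (m' - m), C (1 - m) * unopS t₁ + C (m' - m),
    { mm := hm, mm' := hm'm', le1 := hmm', le2 := hm'm, t0 := ?_, tm' := ?_, tg := ?_,
      tm := ?_, s0 := ?_, sm := ?_, sg := ?_, sm' := ?_ }⟩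
  · rw [map_add, ht0, PowerSeries.coeff_zero_C]; abel
  · have h1 : t₀ * C m' = t₀ := by
      conv_lhs => rw [← htm]
      rw [mul_assoc, ← map_mul, hmm', htm]
    rw [add_mul, h1, ← map_mul, sub_mul, hm'm', hmm']
  · intro M
    obtain ⟨τ, hτ, hτ0⟩ := K.mem_of_l (x := m') M (by
      intro p _
      have : K.l p * m' = K.l p - K.l p * e + K.l p * m * e := by
        rw [hm', hε]; noncomm_ring
      rw [this, hle, hlm]; simp)
    refine ⟨τ, ?_, hτ⟩
    intro i hi
    have : i = 0 := by omega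
    subst this
    rw [hτ0, map_add, ht0, PowerSeries.coeff_zero_C]; abel
  · have h1 : (m' - m) * m = 0 := by rw [sub_mul, hm'm, hm, sub_self]
    have e1 : a * (t₀ + C (m' - m)) * C m = a * t₀ * C m + a * (C (m' - m) * C m) := by
      noncomm_ring
    rw [e1, hat, ← map_mul, h1, map_zero]; simp
  · rw [map_add, PowerSeries.coeff_C_mul, ht1', PowerSeries.coeff_zero_C, ← hε, hm']; abel
  · have h1 : (1 - m) * (1 - m) = 1 - m := by rw [one_sub_mul_one_sub, hm]; abel
    have h2 : (1 - m) * (m' - m) = m' - m := by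
      have : (1 - m) * (m' - m) = m' - m - m * m' + m * m := by noncomm_ring
      rw [this, hmm', hm]; abel
    rw [mul_add, ← mul_assoc, ← map_mul, ← map_mul, h1, h2]
  · intro M
    obtain ⟨τ, hτ, hτ0⟩ := K'.mem_of_l (x := op (1 - m)) M (by
      intro p _
      apply unop_injective
      rw [unop_mul, unop_op, unop_zero, sub_mul, one_mul, hms p, sub_self])
    refine ⟨unopS τ, ?_, ?_⟩
    · intro i hi
      have : i = 0 := by omega
      subst this
      rw [coeff_unopS, hτ0, unop_op, map_add, PowerSeries.coeff_C_mul, ht1',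
        PowerSeries.coeff_zero_C, ← hε, hm']
      abel
    · intro i hi
      have h1 := hτ i hi
      have e1 : opS (unopS τ * r) = opS r * τ := by rw [opS_mul, opS_unopS]
      rw [← e1, coeff_opS] at h1
      exact (op_eq_zero_iff _).1 h1
  · have h1 : (1 - m') * (m' - m) = 0 := by
      have : (1 - m') * (m' - m) = m' - m - m' * m' + m' * m := by noncomm_ring
      rw [this, hm'm', hm'm]; abel
    have e1 : C (1 - m') * (C (1 - m) * unopS t₁ + C (m' - m)) * r
        = C (1 - m') * C (1 - m) * (unopS t₁ * r) + (C (1 - m') * C (m' - m)) * r := by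
      noncomm_ring
    rw [e1, htr, ← map_mul (C : B →+* B⟦X⟧) (1 - m') (m' - m), h1, map_zero]; simp

/-- The splitting: over a von Neumann regular ring with countable separation. -/
theorem exists_split (hV : VNR B) (hS : Sep3 B) {a r : B⟦X⟧} (har : a * r = 0) :
    ∃ g g' : B⟦X⟧, a * g = 0 ∧ g' * r = 0 ∧ coeff 0 g + coeff 0 g' = 1 := by
  obtain ⟨m₀, m₀', t₀, t₀', h₀⟩ := exists_state hV hS har
  obtain ⟨f, -, hfP, hfR⟩ := dep_seq (α := B × B × B⟦X⟧ × B⟦X⟧)
    (fun i x => State a r (i + 1) (i + 1) x.1 x.2.1 x.2.2.1 x.2.2.2)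
    (fun i x y => x.1 * y.1 = x.1 ∧ y.1 * x.1 = x.1 ∧ x.2.1 * y.2.1 = y.2.1 ∧
      y.2.1 * x.2.1 = y.2.1 ∧ Agree (i + 1) y.2.2.1 (x.2.2.1 * C y.2.1) ∧
      Agree (i + 1) y.2.2.2 (C (1 - y.1) * x.2.2.2))
    (m₀, m₀', t₀, t₀') h₀
    (by
      rintro i ⟨m, m', t, t'⟩ h
      obtain ⟨n, n', σ, σ', h1, h2⟩ := State.step hV hS (by omega) (by omega) h
      exact ⟨(n, n', σ, σ'), h1, h2⟩)
  set m : ℕ → B := fun i => (f i).1 with hm
  set m' : ℕ → B := fun i => (f i).2.1 with hm'
  set t : ℕ → B⟦X⟧ := fun i => (f i).2.2.1 with ht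
  set t' : ℕ → B⟦X⟧ := fun i => (f i).2.2.2 with ht'
  have hSt : ∀ i, State a r (i + 1) (i + 1) (m i) (m' i) (t i) (t' i) := hfP
  have h1 : ∀ i, m i * m (i + 1) = m i := fun i => (hfR i).1
  have h2 : ∀ i, m (i + 1) * m i = m i := fun i => (hfR i).2.1
  have h3 : ∀ i, m' i * m' (i + 1) = m' (i + 1) := fun i => (hfR i).2.2.1
  have h4 : ∀ i, m' (i + 1) * m' i = m' (i + 1) := fun i => (hfR i).2.2.2.1
  have h5 : ∀ i, Agree (i + 1) (t (i + 1)) (t i * C (m' (i + 1))) := fun i =>
    (hfR i).2.2.2.2.1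
  have h6 : ∀ i, Agree (i + 1) (t' (i + 1)) (C (1 - m (i + 1)) * t' i) := fun i =>
    (hfR i).2.2.2.2.2
  have hmle : ∀ i j, j ≤ i → m i * m j = m j := by
    intro i j hji
    induction i, hji using Nat.le_induction with
    | base => exact (hSt j).mm
    | succ i _ ih =>
      calc m (i + 1) * m j = m (i + 1) * (m i * m j) := by rw [ih]
        _ = m (i + 1) * m i * m j := (mul_assoc _ _ _).symm
        _ = m j := by rw [h2, ih]
  have hm'le : ∀ i j, i ≤ j → m' i * m' j = m' j := by
    intro i j hij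
    induction j, hij using Nat.le_induction with
    | base => exact (hSt i).mm'
    | succ j _ ih =>
      calc m' i * m' (j + 1) = m' i * (m' j * m' (j + 1)) := by rw [h3]
        _ = m' i * m' j * m' (j + 1) := (mul_assoc _ _ _).symm
        _ = m' (j + 1) := by rw [ih, h3]
  have hmm' : ∀ i j, m' i * m j = m j := by
    intro i j
    rcases le_total i j with hij | hij
    · rw [← (hSt j).le2, ← mul_assoc, hm'le i j hij]
    · rw [← hmle i j hij, ← mul_assoc, (hSt i).le2]
  obtain ⟨e, y, k, he, he1, he2⟩ := extraction hV hS (ι := ℕ) (κ := ℕ)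
    (fun _ => 0) (fun i => 1 - m' i) (fun _ => 0) (fun _ => 0) m (fun _ => 0) (by
      intro i j
      rw [sub_mul, hmm']; simp)
  have hm'e : ∀ i, m' i * e = e := by
    intro i
    have := he1 i
    rw [zero_mul, sub_mul, one_mul, sub_eq_zero] at this
    exact this.symm
  have hem : ∀ i, e * m i = m i := by
    intro i
    have := he2 i
    rw [mul_zero, sub_mul, one_mul, sub_eq_zero] at this
    exact this.symm
  have hem' : ∀ i, (1 - e) * (1 - m i) = 1 - e := by
    intro i
    rw [one_sub_mul_one_sub, hem]; abel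
  have hstab : ∀ p i, p ≤ i → coeff p (t i) * e = coeff p (t p) * e := by
    intro p i hpi
    induction i, hpi using Nat.le_induction with
    | base => rfl
    | succ i hi ih =>
      rw [h5 i p (by omega), PowerSeries.coeff_mul_C, mul_assoc, hm'e, ih]
  have hstab' : ∀ p i, p ≤ i → (1 - e) * coeff p (t' i) = (1 - e) * coeff p (t' p) := by
    intro p i hpi
    induction i, hpi using Nat.le_induction with
    | base => rfl
    | succ i hi ih =>
      rw [h6 i p (by omega), PowerSeries.coeff_C_mul, ← mul_assoc, hem', ih]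
  refine ⟨PowerSeries.mk fun p => coeff p (t p) * e,
    PowerSeries.mk fun p => (1 - e) * coeff p (t' p), ?_, ?_, ?_⟩
  · ext M
    have hag : Agree (M + 1) (PowerSeries.mk fun p => coeff p (t p) * e) (t M * C e) := by
      intro p hp
      rw [coeff_mk, PowerSeries.coeff_mul_C, hstab p M (by omega)]
    rw [hag.coeff_mul a (Nat.lt_succ_self M), map_zero, ← mul_assoc, PowerSeries.coeff_mul_C]
    obtain ⟨τ, hτ1, hτ2⟩ := (hSt M).tg (M + 1)
    rw [← hτ1.coeff_mul a (Nat.lt_succ_self M), hτ2 M (Nat.lt_succ_self M), zero_mul]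
  · ext M
    have hag : Agree (M + 1) (PowerSeries.mk fun p => (1 - e) * coeff p (t' p))
        (C (1 - e) * t' M) := by
      intro p hp
      rw [coeff_mk, PowerSeries.coeff_C_mul, hstab' p M (by omega)]
    rw [hag.coeff_mul' r (Nat.lt_succ_self M), map_zero, mul_assoc, PowerSeries.coeff_C_mul]
    obtain ⟨τ, hτ1, hτ2⟩ := (hSt M).sg (M + 1)
    rw [← hτ1.coeff_mul' r (Nat.lt_succ_self M), hτ2 M (Nat.lt_succ_self M), mul_zero]
  · rw [coeff_mk, coeff_mk, (hSt 0).t0, (hSt 0).s0, hm'e, hem']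
    abel

/-- The main existence statement: `B⟦X⟧` solves `a * u = 0`, `u * r = r` whenever
`a * r = 0`. -/
theorem exists_annihilating (hV : VNR B) (hS : Sep3 B) {a r : B⟦X⟧} (har : a * r = 0) :
    ∃ u : B⟦X⟧, a * u = 0 ∧ u * r = r := by
  obtain ⟨f, -, hfP, hfR⟩ := dep_seq (α := B⟦X⟧ × B⟦X⟧ × B⟦X⟧)
    (fun n x => a * x.1 = 0 ∧ x.2.1 * r = r ∧ x.1 - x.2.1 = X ^ n * x.2.2)
    (fun n x y => Agree n y.1 x.1)
    (0, 1, -1) ⟨mul_zero a, one_mul r, by simp⟩
    (by
      rintro n ⟨u, v, z⟩ ⟨h1, h2, h3⟩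
      simp only at h1 h2 h3
      have hz : a * z * r = 0 := by
        apply X_pow_mul_left_cancel n
        have e1 : X ^ n * (a * z * r) = a * (X ^ n * z) * r := by
          rw [← mul_assoc (X ^ n), ← mul_assoc (X ^ n), PowerSeries.X_pow_mul, mul_assoc a]
        rw [e1, ← h3, mul_sub, h1, zero_sub, neg_mul, mul_assoc, h2, har, neg_zero, mul_zero]
      obtain ⟨g, g', hg, hg', hgg'⟩ := exists_split hV hS hz
      obtain ⟨z', hz'⟩ : ∃ z' : B⟦X⟧, 1 - g - g' = X * z' := by
        refine ⟨PowerSeries.mk fun i => coeff (1 + i) (1 - g - g'), ?_⟩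
        have := eq_X_pow_mul 1 (1 - g - g') (by
          intro i hi
          have : i = 0 := by omega
          subst this
          rw [map_sub, map_sub, sub_sub, hgg']
          simp)
        rwa [pow_one] at this
      refine ⟨(u - X ^ n * (z * g), v + X ^ n * (z * g'), z * z'), ⟨?_, ?_, ?_⟩, ?_⟩
      · change a * (u - X ^ n * (z * g)) = 0
        rw [mul_sub, h1, ← mul_assoc, ← PowerSeries.X_pow_mul, mul_assoc, ← mul_assoc a z, hg,
          mul_zero, sub_zero]
      · change (v + X ^ n * (z * g')) * r = r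
        rw [add_mul, h2, mul_assoc, mul_assoc, hg', mul_zero, mul_zero, add_zero]
      · change (u - X ^ n * (z * g)) - (v + X ^ n * (z * g')) = X ^ (n + 1) * (z * z')
        have e1 : (u - X ^ n * (z * g)) - (v + X ^ n * (z * g'))
            = (u - v) - X ^ n * (z * g) - X ^ n * (z * g') := by abel
        have e2 : X ^ (n + 1) * (z * z') = X ^ n * (z * (X * z')) := by
          rw [pow_succ, mul_assoc, ← mul_assoc X z z', PowerSeries.X_mul, mul_assoc]
        rw [e1, h3, e2, ← hz']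
        noncomm_ring
      · intro i hi
        change coeff i (u - X ^ n * (z * g)) = coeff i u
        rw [map_sub, PowerSeries.coeff_X_pow_mul', if_neg (by omega), sub_zero])
  have hstab : ∀ p i, p + 1 ≤ i → coeff p (f i).1 = coeff p (f (p + 1)).1 := by
    intro p i hpi
    induction i, hpi using Nat.le_induction with
    | base => rfl
    | succ i hi ih => rw [hfR i p (by omega), ih]
  set U : B⟦X⟧ := PowerSeries.mk fun p => coeff p (f (p + 1)).1 with hU
  have hag : ∀ M, Agree (M + 1) U (f (M + 1)).1 := by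
    intro M p hp
    rw [hU, coeff_mk, hstab p (M + 1) (by omega)]
  refine ⟨U, ?_, ?_⟩
  · ext M
    rw [(hag M).coeff_mul a (Nat.lt_succ_self M), (hfP (M + 1)).1]
  · ext M
    rw [(hag M).coeff_mul' r (Nat.lt_succ_self M)]
    have h1 : Agree (M + 1) (f (M + 1)).1 (f (M + 1)).2.1 := by
      intro p hp
      have := congrArg (coeff p) (hfP (M + 1)).2.2
      rw [PowerSeries.coeff_X_pow_mul', if_neg (by omega), map_sub, sub_eq_zero] at this
      exact this
    rw [h1.coeff_mul' r (Nat.lt_succ_self M), (hfP (M + 1)).2.1]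

end Run7.h150
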