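import Pool.Agent.Run7.h150.Series

/-!
# The starting step: duality and a good idempotent containing countably many solutions
-/

namespace Run7.h150

open PowerSeries

universe u

variable {B : Type u} [Ring B]

/-- A good idempotent containing countably many leading coefficients of solutions. -/
theorem liftStart (hV : VNR B) (hS : Sep3 B) (a : B⟦X⟧)
    (s : ℕ → B) (hs : ∀ j, s j * s j = s j) (hs' : ∀ i j, i ≠ j → s i * s j = 0)
    (hmem : ∀ j, ∃ t : B⟦X⟧, a * t = 0 ∧ coeff 0 t = s j)
    (Z : ℕ → B) (hZ : ∀ i j, Z i * s j = 0) :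
    ∃ (e : B) (τ : B⟦X⟧), e * e = e ∧ (∀ j, e * s j = s j) ∧ (∀ i, Z i * e = 0) ∧
      a * τ = 0 ∧ coeff 0 τ = e ∧ τ * C e = τ := by
  obtain ⟨K⟩ := exists_KData hV a
  choose t ht ht0 using hmem
  obtain ⟨f, -, hfP, hfR⟩ := dep_seq (α := B⟦X⟧ × (ℕ → B⟦X⟧))
    (fun i x => coeff 0 x.1 = 1 ∧ ∀ j, a * x.2 j = 0 ∧ x.2 j * C (s j) = x.2 j ∧
      Agree (i + 1) (x.2 j) (x.1 * C (s j)))
    (fun i x y => Agree (i + 1) y.1 x.1)
    (1, fun j => t j * C (s j))
    ⟨by simp, fun j => ⟨by rw [← mul_assoc, ht, zero_mul], by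
        rw [mul_assoc, ← map_mul, hs], fun i hi => by
          have : i = 0 := by omega
          subst this
          rw [PowerSeries.coeff_mul_C, ht0, hs, one_mul, PowerSeries.coeff_zero_C]⟩⟩
    (by
      rintro i ⟨θ, τ⟩ ⟨hθ, hτ⟩
      simp only at hθ hτ
      -- the next error
      set D : ℕ → B⟦X⟧ := fun j => τ j - θ * C (s j) with hD
      have hD0 : ∀ j, ∀ p < i + 1, coeff p (D j) = 0 := by
        intro j p hp
        simp only [hD]
        rw [map_sub, (hτ j).2.2 p hp, sub_self]
      set u : ℕ → B⟦X⟧ := fun j => PowerSeries.mk (fun p => coeff (i + 1 + p) (D j)) with hu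
      have hDu : ∀ j, D j = X ^ (i + 1) * u j := fun j => eq_X_pow_mul (i + 1) (D j) (hD0 j)
      have hDs : ∀ j, D j * C (s j) = D j := by
        intro j
        simp only [hD]
        rw [sub_mul, (hτ j).2.1, mul_assoc, ← map_mul, hs]
      set b : ℕ → B := fun j => coeff 0 (u j) with hb
      have hbD : ∀ j, b j = coeff (i + 1) (D j) := by
        intro j; simp only [hb, hu]; rw [coeff_mk, add_zero]
      have hbs : ∀ j, b j * s j = b j := by
        intro j
        rw [hbD, ← PowerSeries.coeff_mul_C, hDs]
      set g : B⟦X⟧ := PowerSeries.mk (fun p => -coeff (i + 1 + p) (a * θ)) with hg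
      have hgu : ∀ j, g * C (s j) = a * u j := by
        intro j
        ext p
        rw [PowerSeries.coeff_mul_C, hg, coeff_mk, neg_mul, ← PowerSeries.coeff_mul_C]
        have e1 : a * θ * C (s j) = - (X ^ (i + 1) * (a * u j)) := by
          have : a * D j = - (a * θ * C (s j)) := by
            simp only [hD]
            rw [mul_sub, (hτ j).1, zero_sub, mul_assoc]
          rw [hDu j, ← mul_assoc, ← PowerSeries.X_pow_mul, mul_assoc] at this
          rw [this, neg_neg]
        rw [e1, map_neg, neg_neg, add_comm (i + 1) p, PowerSeries.coeff_X_pow_mul]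
      -- approximate extensions
      have hom : ∀ M, ∃ ω : B, ∀ j, (1 - K.e M) * (b j - ω * s j) = 0 := by
        intro M
        obtain ⟨Φ, hC, hA, hSol⟩ := exists_solver hV a M
        refine ⟨coeff 0 (Φ g), fun j => ?_⟩
        have h1 : Sol a (u j - Φ g * C (s j)) M := by
          intro p hp
          rw [mul_sub, map_sub, ← hC, hgu, hSol (u j) p hp, sub_self]
        have h2 := K.fix M _ h1
        rw [map_sub, PowerSeries.coeff_mul_C] at h2
        rw [sub_mul, one_mul, h2, sub_self]
      choose ω hω using hom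
      obtain ⟨q, y, h, hq, hq1, hq2⟩ := extraction hV hS (ι := ℕ) (κ := ℕ)
        (fun M => -((1 - K.e M) * ω M)) (fun M => 1 - K.e M) (fun _ => 0) s b (fun _ => 0) (by
          intro M j
          have := hω M j
          rw [mul_sub, ← mul_assoc] at this
          rw [neg_mul, zero_mul, add_zero, neg_add_eq_sub]
          exact this)
      have hqe : ∀ M, K.e M * q = q := by
        intro M
        have := hq1 M
        rw [zero_mul, sub_mul, one_mul, sub_eq_zero] at this
        exact this.symm
      have hqgood : RGood a 1 (C q) := by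
        intro M
        obtain ⟨t', ht', ht'0⟩ := K.mem M
        refine ⟨t' * C q, ?_, ht'.mul_C q⟩
        intro p hp
        have : p = 0 := by omega
        subst this
        rw [PowerSeries.coeff_mul_C, ht'0, hqe, PowerSeries.coeff_zero_C]
      obtain ⟨n, σ, h', hn, hqn, hnq, haσ, hσn, hσag, hh'⟩ :=
        liftSplit hV hS (a := a) (k := 1) le_rfl hq (t := C q) (PowerSeries.coeff_zero_C q)
          (by rw [← map_mul, hq]) hqgood s (fun j => q * b j) hs hs'
          (fun j => by rw [mul_assoc, hbs]) (fun j => by rw [← mul_assoc, hq])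
      have hσ0 : coeff 0 σ = n := by
        rw [hσag 0 (by omega), PowerSeries.coeff_mul_C, PowerSeries.coeff_zero_C, hqn]
      have hfin : ∀ j, b j - n * b j = (h + h') * s j := by
        intro j
        rw [add_mul, ← hq2 j, ← hh' j, ← mul_assoc, sub_mul (a := q) (b := n) (c := q), hq, hnq]
        noncomm_ring
      refine ⟨(θ + X ^ (i + 1) * C (h + h'), fun j => τ j - X ^ (i + 1) * (σ * C (b j))),
        ⟨?_, fun j => ⟨?_, ?_, ?_⟩⟩, ?_⟩
      · change coeff 0 (θ + X ^ (i + 1) * C (h + h')) = 1
        rw [map_add, hθ, PowerSeries.coeff_X_pow_mul', if_neg (by omega), add_zero]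
      · change a * (τ j - X ^ (i + 1) * (σ * C (b j))) = 0
        rw [mul_sub, (hτ j).1, ← mul_assoc, ← PowerSeries.X_pow_mul, mul_assoc,
          ← mul_assoc a σ, haσ, zero_mul, mul_zero, sub_zero]
      · change (τ j - X ^ (i + 1) * (σ * C (b j))) * C (s j) = _
        rw [sub_mul, (hτ j).2.1, mul_assoc, mul_assoc, ← map_mul, hbs]
      · intro p hp
        change coeff p (τ j - X ^ (i + 1) * (σ * C (b j)))
          = coeff p ((θ + X ^ (i + 1) * C (h + h')) * C (s j))
        rw [add_mul, mul_assoc (X ^ (i + 1)), ← map_mul, map_sub, map_add,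
          PowerSeries.coeff_X_pow_mul', PowerSeries.coeff_X_pow_mul']
        by_cases hpi : i + 1 ≤ p
        · have : p = i + 1 := by omega
          subst this
          rw [if_pos le_rfl, if_pos le_rfl, Nat.sub_self, PowerSeries.coeff_mul_C,
            PowerSeries.coeff_zero_C, hσ0, ← hfin j]
          have e : coeff (i + 1) (τ j) = b j + coeff (i + 1) (θ * C (s j)) := by
            rw [hbD]; simp only [hD]; rw [map_sub]; abel
          rw [e]; abel
        · rw [if_neg hpi, if_neg hpi, sub_zero, add_zero]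
          exact (hτ j).2.2 p (by omega)
      · intro p hp
        change coeff p (θ + X ^ (i + 1) * C (h + h')) = coeff p θ
        rw [map_add, PowerSeries.coeff_X_pow_mul', if_neg (by omega), add_zero])
  -- the limit series
  set θ : B⟦X⟧ := PowerSeries.mk fun p => coeff p (f p).1 with hθ
  have hstab : ∀ p i, p ≤ i → coeff p (f i).1 = coeff p (f p).1 := by
    intro p i hpi
    induction i, hpi using Nat.le_induction with
    | base => rfl
    | succ i hi ih => rw [hfR i p (by omega), ih]
  have hθag : ∀ M, Agree (M + 1) θ (f M).1 := by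
    intro M p hp
    rw [hθ, coeff_mk, hstab p M (by omega)]
  have hθs : ∀ j, a * θ * C (s j) = 0 := by
    intro j
    ext M
    have h1 : Agree (M + 1) (θ * C (s j)) ((f M).2 j) :=
      ((hθag M).mul_C (s j)).trans ((hfP M).2 j).2.2.symm
    rw [mul_assoc, h1.coeff_mul a (Nat.lt_succ_self M), ((hfP M).2 j).1]
  obtain ⟨e, y, h, he, he1, he2⟩ := extraction hV hS (ι := ℕ ⊕ ℕ) (κ := ℕ)
    (fun _ => 0) (Sum.elim (fun p => coeff p (a * θ)) Z) (fun _ => 0)
    (fun _ => 0) s (fun _ => 0) (by
      intro i j
      cases i with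
      | inl p =>
        simp only [Sum.elim_inl, mul_zero, zero_add, add_zero]
        rw [← PowerSeries.coeff_mul_C, hθs, map_zero]
      | inr p => simp [hZ])
  have hes : ∀ j, e * s j = s j := by
    intro j
    have := he2 j
    rw [mul_zero, sub_mul, one_mul, sub_eq_zero] at this
    exact this.symm
  refine ⟨e, θ * C e, he, hes, ?_, ?_, ?_, ?_⟩
  · intro i
    have := he1 (Sum.inr i)
    simpa using this
  · ext p
    rw [← mul_assoc, PowerSeries.coeff_mul_C]
    have := he1 (Sum.inl p)
    simpa using this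
  · rw [PowerSeries.coeff_mul_C, hθ, coeff_mk, (hfP 0).1, one_mul]
  · rw [mul_assoc, ← map_mul, he]

end Run7.h150
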