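import Pool.Agent.Run7.h150.WDefs
import Pool.Agent.Run7.h150.EqFlat

/-!
# Flatness in terms of the balanced tensor product and the equational criterion
-/

namespace Run7.h150

open TensorProduct MulOpposite

universe u

section

variable {R : Type u} [Ring R] {M : Type u} [AddCommGroup M] [Module Rᵐᵒᵖ M]
variable {N N' : Type u} [AddCommGroup N] [Module R N] [AddCommGroup N'] [Module R N']

/-- `r ↦ m · r`. -/
def rsm (R : Type u) [Ring R] {M : Type u} [AddCommGroup M] [Module Rᵐᵒᵖ M] (m : M) :
    R →+ M where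
  toFun r := op r • m
  map_zero' := by simp
  map_add' r s := by rw [op_add, add_smul]

@[simp] theorem rsm_apply (m : M) (r : R) : rsm R m r = op r • m := rfl

section

omit [AddCommGroup N] [Module R N]

/-- The element `n ↦ m · k n`. -/
noncomputable def ksm (m : M) (k : N →₀ R) : N →₀ M := Finsupp.mapRange (rsm R m) (map_zero _) k

theorem ksm_apply (m : M) (k : N →₀ R) (n : N) : ksm m k n = op (k n) • m := by
  rw [ksm, Finsupp.mapRange_apply]; rfl

theorem ksm_single (m : M) (n : N) (r : R) :
    ksm m (Finsupp.single n r) = Finsupp.single n (op r • m) := by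
  rw [ksm, Finsupp.mapRange_single]; rfl

theorem ksm_sub (m : M) (k k' : N →₀ R) : ksm m (k - k') = ksm m k - ksm m k' := by
  ext n
  rw [Finsupp.sub_apply, ksm_apply, ksm_apply, ksm_apply, Finsupp.sub_apply, op_sub, sub_smul]

end

/-- The trivial relations. -/
def Triv (R : Type u) [Ring R] {M : Type u} [AddCommGroup M] [Module Rᵐᵒᵖ M]
    {N : Type u} [AddCommGroup N] [Module R N] : AddSubgroup (N →₀ M) where
  carrier := {φ | ∃ (κ : Type) (_ : Fintype κ) (m : κ → M) (k : κ → N →₀ R),
    (∀ j, (k j).sum (fun n r => r • n) = 0) ∧ φ = ∑ j, ksm (m j) (k j)}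
  zero_mem' := ⟨Empty, inferInstance, Empty.elim, Empty.elim, fun j => j.elim, by simp⟩
  add_mem' := by
    rintro φ ψ ⟨κ, _, m, k, h1, h2⟩ ⟨κ', _, m', k', h1', h2'⟩
    refine ⟨κ ⊕ κ', inferInstance, Sum.elim m m', Sum.elim k k', ?_, ?_⟩
    · rintro (j | j)
      · exact h1 j
      · exact h1' j
    · rw [Fintype.sum_sum_type, h2, h2']
      rfl
  neg_mem' := by
    rintro φ ⟨κ, _, m, k, h1, h2⟩
    refine ⟨κ, inferInstance, fun j => - m j, k, h1, ?_⟩
    rw [h2, ← Finset.sum_neg_distrib]
    refine Finset.sum_congr rfl fun j _ => ?_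
    ext n
    rw [Finsupp.neg_apply, ksm_apply, ksm_apply, smul_neg]

/-- `φ ↦ ∑ φ n ⊗ n`. -/
noncomputable def tsum' (φ : N →₀ M) : M ⊗[ℤ] N := φ.sum fun n m => m ⊗ₜ[ℤ] n

theorem tsum_single (n : N) (m : M) : tsum' (Finsupp.single n m) = m ⊗ₜ[ℤ] n := by
  rw [tsum', Finsupp.sum_single_index]
  exact TensorProduct.zero_tmul _ _

theorem tsum_add (φ ψ : N →₀ M) : tsum' (φ + ψ) = tsum' φ + tsum' ψ := by
  rw [tsum', Finsupp.sum_add_index']
  · rfl
  · intro n; exact TensorProduct.zero_tmul _ _
  · intro n m m'; exact TensorProduct.add_tmul _ _ _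

theorem exists_tsum (z : M ⊗[ℤ] N) : ∃ φ : N →₀ M, tsum' φ = z := by
  induction z using TensorProduct.induction_on with
  | zero => exact ⟨0, by simp [tsum']⟩
  | tmul m n => exact ⟨Finsupp.single n m, tsum_single n m⟩
  | add x y hx hy =>
    obtain ⟨φ, rfl⟩ := hx
    obtain ⟨ψ, rfl⟩ := hy
    exact ⟨φ + ψ, tsum_add φ ψ⟩

theorem triv_of (m : M) (k : N →₀ R) (hk : k.sum (fun n r => r • n) = 0) :
    ksm m k ∈ (Triv R : AddSubgroup (N →₀ M)) :=
  ⟨Unit, inferInstance, fun _ => m, fun _ => k, fun _ => hk, by simp⟩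

/-- The comparison map. -/
noncomputable def cmp (R : Type u) [Ring R] (M : Type u) [AddCommGroup M] [Module Rᵐᵒᵖ M]
    (N : Type u) [AddCommGroup N] [Module R N] :
    M ⊗[ℤ] N →+ (N →₀ M) ⧸ (Triv R : AddSubgroup (N →₀ M)) :=
  TensorProduct.liftAddHom
    (AddMonoidHom.mk' (fun m => AddMonoidHom.mk'
      (fun n => QuotientAddGroup.mk (Finsupp.single n m)) (by
        intro n n'
        rw [← QuotientAddGroup.mk_add, QuotientAddGroup.eq]
        have := triv_of (R := R) m (Finsupp.single n (1 : R) + Finsupp.single n' 1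
          - Finsupp.single (n + n') 1) (by
            rw [Finsupp.sum_sub_index (by intro a b c; rw [sub_smul]),
              Finsupp.sum_add_index' (by simp) (by intro a b c; rw [add_smul])]
            simp)
        rw [ksm_sub, sub_eq_neg_add] at this
        have e : ksm m (Finsupp.single n (1 : R) + Finsupp.single n' 1)
            = Finsupp.single n m + Finsupp.single n' m := by
          ext x
          rw [ksm_apply, Finsupp.add_apply, Finsupp.add_apply, op_add, add_smul,
            ← ksm_apply, ← ksm_apply, ksm_single, ksm_single]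
          simp
        rw [e, ksm_single, op_one, one_smul] at this
        exact this))
      (by
        intro m m'
        ext n
        change QuotientAddGroup.mk (Finsupp.single n (m + m')) = QuotientAddGroup.mk _ +
          QuotientAddGroup.mk _
        rw [Finsupp.single_add, QuotientAddGroup.mk_add]))
    (by
      intro r m n
      rw [map_zsmul, map_zsmul]
      rfl)

theorem cmp_tmul (m : M) (n : N) :
    cmp R M N (m ⊗ₜ[ℤ] n) = QuotientAddGroup.mk (Finsupp.single n m) := rfl

theorem cmp_tsum (φ : N →₀ M) : cmp R M N (tsum' φ) = QuotientAddGroup.mk φ := by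
  induction φ using Finsupp.induction_linear with
  | zero => rw [tsum', Finsupp.sum_zero_index, map_zero]; rfl
  | add f g hf hg => rw [tsum_add, map_add, hf, hg]; rfl
  | single n m => rw [tsum_single, cmp_tmul]

theorem balanced_le_ker : balanced R M N ≤ (cmp R M N).ker := by
  rw [balanced, AddSubgroup.closure_le]
  rintro _ ⟨m, r, n, rfl⟩
  change cmp R M N _ = 0
  rw [map_sub, cmp_tmul, cmp_tmul, sub_eq_zero]
  symm
  rw [QuotientAddGroup.eq]
  have := triv_of (R := R) m (Finsupp.single n r - Finsupp.single (r • n) 1) (by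
    rw [Finsupp.sum_sub_index (by intro a b c; rw [sub_smul])]
    simp)
  rw [ksm_sub, ksm_single, ksm_single, op_one, one_smul, sub_eq_neg_add] at this
  exact this

/-- The vanishing criterion. -/
theorem vanish (φ : N →₀ M) (h : tsum' φ ∈ balanced R M N) : φ ∈ (Triv R : AddSubgroup (N →₀ M)) := by
  have h1 : cmp R M N (tsum' φ) = 0 := balanced_le_ker h
  rw [cmp_tsum] at h1
  exact (QuotientAddGroup.eq_zero_iff φ).1 h1

theorem mk_smul_tmul (m : M) (r : R) (n : N) :
    (QuotientAddGroup.mk ((op r • m) ⊗ₜ[ℤ] n) : RTensor R M N)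
      = QuotientAddGroup.mk (m ⊗ₜ[ℤ] (r • n)) := by
  symm
  rw [QuotientAddGroup.eq]
  have : (op r • m) ⊗ₜ[ℤ] n - m ⊗ₜ[ℤ] (r • n) ∈ balanced R M N :=
    AddSubgroup.subset_closure ⟨m, r, n, rfl⟩
  rwa [sub_eq_neg_add] at this

theorem zmap_tsum (f : N →ₗ[R] N') (φ : N →₀ M) :
    zmap R M f (tsum' φ) = tsum' (φ.mapDomain f) := by
  induction φ using Finsupp.induction_linear with
  | zero => simp [tsum']
  | add f g hf hg => rw [tsum_add, map_add, hf, hg, Finsupp.mapDomain_add, tsum_add]
  | single n m => rw [tsum_single, zmap_tmul, Finsupp.mapDomain_single, tsum_single]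

/-- The equational criterion implies flatness. -/
theorem isFlat_of_eqFlat (h : EqFlat Rᵐᵒᵖ M) : IsFlat R M := by
  classical
  intro N N' _ _ _ _ f hf
  rw [injective_iff_map_eq_zero]
  intro z hz
  obtain ⟨z', rfl⟩ := QuotientAddGroup.mk_surjective z
  obtain ⟨φ, rfl⟩ := exists_tsum z'
  have h1 : zmap R M f (tsum' φ) ∈ balanced R M N' := (QuotientAddGroup.eq_zero_iff _).1 hz
  rw [zmap_tsum] at h1
  obtain ⟨κ, _, m', k, hk1, hk2⟩ := vanish _ h1
  -- the finite set of test points
  set c : Finset N' := (φ.mapDomain f).support ∪ Finset.univ.biUnion (fun j => (k j).support)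
    with hc
  have hφ : ∀ n' : N', ∑ n : φ.support, (if f n = n' then φ n else 0) = φ.mapDomain f n' := by
    intro n'
    rw [Finsupp.mapDomain, Finsupp.sum_apply, Finsupp.sum,
      ← Finset.sum_coe_sort φ.support]
    refine Finset.sum_congr rfl fun n _ => ?_
    rw [Finsupp.single_apply]
  obtain ⟨q, m'', u, hu1, hu2⟩ := h.mat (ι := φ.support ⊕ κ) c
    (fun n' => Sum.elim (fun n => if f n = n' then 1 else 0) (fun j => - op (k j n')))
    (Sum.elim (fun n => φ n) m') (by
      intro n' _
      rw [Fintype.sum_sum_type]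
      simp only [Sum.elim_inl, Sum.elim_inr, ite_smul, one_smul, zero_smul, neg_smul,
        Finset.sum_neg_distrib]
      rw [hφ n', hk2, Finsupp.finsetSum_apply]
      simp only [ksm_apply]
      rw [add_neg_cancel])
  have hu3 : ∀ l, ∑ n : φ.support, unop (u (Sum.inl n) l) • (n : N) = 0 := by
    intro l
    apply hf
    rw [map_zero, map_sum]
    simp only [map_smul]
    -- coefficient at `n'`
    have e1 : ∀ n' ∈ c, ∑ n : φ.support, (if f n = n' then unop (u (Sum.inl n) l) else 0)
        = ∑ j, unop (u (Sum.inr j) l) * k j n' := by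
      intro n' hn'
      have := congrArg unop (hu2 n' hn' l)
      rw [Fintype.sum_sum_type, unop_add, Finset.unop_sum, Finset.unop_sum, unop_zero] at this
      simp only [Sum.elim_inl, Sum.elim_inr, neg_mul, unop_neg, unop_mul, unop_op,
        Finset.sum_neg_distrib, ite_mul, one_mul, zero_mul] at this
      rw [← sub_eq_add_neg, sub_eq_zero] at this
      rw [← this]
      refine Finset.sum_congr rfl fun n _ => ?_
      split_ifs <;> simp
    have e2 : ∑ n : φ.support, unop (u (Sum.inl n) l) • f n
        = ∑ n' ∈ c, (∑ n : φ.support, (if f n = n' then unop (u (Sum.inl n) l) else 0)) • n' := by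
      simp only [Finset.sum_smul]
      rw [Finset.sum_comm]
      refine Finset.sum_congr rfl fun n _ => ?_
      have hfn : f n ∈ c := by
        rw [hc]
        apply Finset.mem_union_left
        rw [Finsupp.mem_support_iff, Finsupp.mapDomain_apply hf]
        exact Finsupp.mem_support_iff.1 n.2
      rw [Finset.sum_eq_single (f n)]
      · simp
      · intro b _ hb
        rw [if_neg (Ne.symm hb), zero_smul]
      · intro h; exact absurd hfn h
    rw [e2]
    have e3 : ∑ n' ∈ c, (∑ n : φ.support, (if f n = n' then unop (u (Sum.inl n) l) else 0)) • n'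
        = ∑ n' ∈ c, (∑ j, unop (u (Sum.inr j) l) * k j n') • n' :=
      Finset.sum_congr rfl fun n' hn' => by rw [e1 n' hn']
    rw [e3]
    simp only [Finset.sum_smul, mul_smul]
    rw [Finset.sum_comm]
    refine Finset.sum_eq_zero fun j _ => ?_
    rw [← Finset.smul_sum]
    have : ∑ n' ∈ c, k j n' • n' = 0 := by
      rw [← hk1 j, Finsupp.sum]
      symm
      apply Finset.sum_subset
      · intro x hx
        exact Finset.mem_union_right _ (Finset.mem_biUnion.2 ⟨j, Finset.mem_univ j, hx⟩)
      · intro x _ hx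
        rw [Finsupp.notMem_support_iff.1 hx, zero_smul]
    rw [this, smul_zero]
  -- conclude
  have e4 : tsum' φ = ∑ n : φ.support, φ n ⊗ₜ[ℤ] (n : N) := by
    rw [tsum', Finsupp.sum, ← Finset.sum_coe_sort φ.support]
  rw [e4]
  have e5 : ∀ n : φ.support, (QuotientAddGroup.mk (φ n ⊗ₜ[ℤ] (n : N)) : RTensor R M N)
      = ∑ l, QuotientAddGroup.mk (m'' l ⊗ₜ[ℤ] (unop (u (Sum.inl n) l) • (n : N))) := by
    intro n
    have := hu1 (Sum.inl n)
    simp only [Sum.elim_inl] at this
    rw [this, TensorProduct.sum_tmul, QuotientAddGroup.mk_sum]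
    refine Finset.sum_congr rfl fun l _ => ?_
    rw [← mk_smul_tmul, op_unop]
  rw [QuotientAddGroup.mk_sum, Finset.sum_congr rfl (fun n _ => e5 n), Finset.sum_comm]
  refine Finset.sum_eq_zero fun l _ => ?_
  rw [← QuotientAddGroup.mk_sum, ← TensorProduct.tmul_sum, hu3 l, TensorProduct.tmul_zero]
  rfl

/-- Flatness implies the equational criterion. -/
theorem eqFlat_of_isFlat (h : IsFlat R M) : EqFlat Rᵐᵒᵖ M := by
  classical
  intro p s m hm
  set r : Fin p → R := fun i => unop (s i) with hr
  set I : Submodule R R := Submodule.span R (Set.range r) with hI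
  have hrI : ∀ i, r i ∈ I := fun i => Submodule.subset_span ⟨i, rfl⟩
  set φ : I →₀ M := ∑ i, Finsupp.single (⟨r i, hrI i⟩ : I) (m i) with hφ
  have hts : tsum' φ = ∑ i, m i ⊗ₜ[ℤ] (⟨r i, hrI i⟩ : I) := by
    have : ∀ c : Finset (Fin p), tsum' (∑ i ∈ c, Finsupp.single (⟨r i, hrI i⟩ : I) (m i))
        = ∑ i ∈ c, m i ⊗ₜ[ℤ] (⟨r i, hrI i⟩ : I) := by
      intro c
      induction c using Finset.induction_on with
      | empty => simp [tsum']
      | insert a c ha ih => rw [Finset.sum_insert ha, Finset.sum_insert ha, tsum_add, ih,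
          tsum_single]
    exact this Finset.univ
  have h1 : (QuotientAddGroup.mk (tsum' φ) : RTensor R M I) = 0 := by
    apply h I R I.subtype Subtype.val_injective
    rw [map_zero]
    change (QuotientAddGroup.mk (zmap R M I.subtype (tsum' φ)) : RTensor R M R) = 0
    rw [hts, map_sum]
    simp only [zmap_tmul]
    have e1 : ∀ i, (QuotientAddGroup.mk (m i ⊗ₜ[ℤ] (r i : R)) : RTensor R M R)
        = QuotientAddGroup.mk ((s i • m i) ⊗ₜ[ℤ] (1 : R)) := by
      intro i
      have := mk_smul_tmul (m i) (r i) (1 : R)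
      rw [smul_eq_mul, mul_one] at this
      rw [← this]
      rfl
    rw [QuotientAddGroup.mk_sum]
    have e2 : ∑ i, (QuotientAddGroup.mk (m i ⊗ₜ[ℤ] (I.subtype ⟨r i, hrI i⟩ : R)) : RTensor R M R)
        = ∑ i, QuotientAddGroup.mk ((s i • m i) ⊗ₜ[ℤ] (1 : R)) :=
      Finset.sum_congr rfl fun i _ => e1 i
    rw [e2, ← QuotientAddGroup.mk_sum, ← TensorProduct.sum_tmul, hm, TensorProduct.zero_tmul]
    rfl
  obtain ⟨κ, _, m', k, hk1, hk2⟩ := vanish φ ((QuotientAddGroup.eq_zero_iff _).1 h1)
  -- expressions of elements of `I`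
  have hex : ∀ x : I, ∃ c : Fin p → R, ∑ i, c i • r i = (x : R) := fun x =>
    (Submodule.mem_span_range_iff_exists_fun R).1 x.2
  choose c hc using hex
  -- the functionals
  set L : Fin p → (I →₀ M) →+ M := fun i => Finsupp.liftAddHom (fun x =>
    (DistribSMul.toAddMonoidHom M (op (c x i)))) with hL
  have hLφ : ∀ i, L i φ = ∑ j, op (c ⟨r j, hrI j⟩ i) • m j := by
    intro i
    rw [hφ, map_sum]
    refine Finset.sum_congr rfl fun j _ => ?_
    rw [hL]
    simp
  have hLk : ∀ i j, L i (ksm (m' j) (k j)) = op ((k j).sum (fun x a => a * c x i)) • m' j := by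
    intro i j
    rw [hL]
    simp only [Finsupp.liftAddHom_apply]
    rw [ksm, Finsupp.sum_mapRange_index (by simp)]
    rw [Finsupp.sum, Finsupp.sum, Finset.op_sum, Finset.sum_smul]
    refine Finset.sum_congr rfl fun x _ => ?_
    simp [op_mul, mul_smul]
  refine TrivRel.of s m (κ := Fin p ⊕ κ) (Sum.elim m m')
    (fun i => Sum.elim (fun j => op ((if i = j then 1 else 0) - c ⟨r j, hrI j⟩ i))
      (fun j => op ((k j).sum (fun x a => a * c x i)))) ?_ ?_
  · intro i
    rw [Fintype.sum_sum_type]
    simp only [Sum.elim_inl, Sum.elim_inr, op_sub, sub_smul, Finset.sum_sub_distrib]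
    rw [← hLφ i]
    have e1 : L i φ = ∑ j, op ((k j).sum (fun x a => a * c x i)) • m' j := by
      conv_lhs => rw [hk2]
      rw [map_sum]
      exact Finset.sum_congr rfl fun j _ => hLk i j
    rw [← e1, sub_add_cancel, Finset.sum_eq_single i]
    · rw [if_pos rfl, op_one, one_smul]
    · intro b _ hb
      rw [if_neg (Ne.symm hb), op_zero, zero_smul]
    · intro h; exact absurd (Finset.mem_univ i) h
  · intro j
    apply unop_injective
    rw [Finset.unop_sum, unop_zero]
    cases j with
    | inl j =>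
      simp only [Sum.elim_inl, unop_mul, unop_op, sub_mul, Finset.sum_sub_distrib]
      have := hc ⟨r j, hrI j⟩
      simp only [smul_eq_mul] at this
      change ∑ i, (if i = j then (1 : R) else 0) * r i - ∑ i, c ⟨r j, hrI j⟩ i * r i = 0
      rw [this]
      simp
    | inr j =>
      simp only [Sum.elim_inr, unop_mul, unop_op]
      change ∑ i, ((k j).sum fun x a => a * c x i) * r i = 0
      simp only [Finsupp.sum, Finset.sum_mul, mul_assoc]
      rw [Finset.sum_comm]
      have e1 : ∀ x : I, ∑ i, k j x * (c x i * r i) = k j x * (x : R) := by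
        intro x
        rw [← Finset.mul_sum]
        congr 1
        exact hc x
      rw [Finset.sum_congr rfl (fun x _ => e1 x)]
      have := congrArg (Subtype.val) (hk1 j)
      rw [Finsupp.sum] at this
      simpa using this

theorem isFlat_iff : IsFlat R M ↔ EqFlat Rᵐᵒᵖ M := ⟨eqFlat_of_isFlat, isFlat_of_eqFlat⟩

end

end Run7.h150
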