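import Pool.Agent.Run7.h150.Split

/-!
# Passing between matrices over power series and power series over matrices
-/

namespace Run7.h150

open PowerSeries MulOpposite

universe u

variable {A : Type u} [Ring A]

/-- Whenever `a * r = 0` there is `u` with `a * u = 0` and `u * r = r`. -/
def PF (R : Type u) [Ring R] : Prop :=
  ∀ a r : R, a * r = 0 → ∃ u : R, a * u = 0 ∧ u * r = r

/-- The property `PF` for all rings of square matrices. -/
def PFmat (R : Type u) [Ring R] : Prop := ∀ n : ℕ, PF (Matrix (Fin n) (Fin n) R)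

/-- Countable separation of countable families of square matrices. -/
def Sep (A : Type u) [Ring A] : Prop :=
  ∀ (n : ℕ) (X Y : ℕ → Matrix (Fin n) (Fin n) A), (∀ i j, X i * Y j = 0) →
    ∃ E : Matrix (Fin n) (Fin n) A, E * E = E ∧ (∀ i, X i * E = 0) ∧ ∀ j, E * Y j = Y j

theorem Sep.sep3 (h : Sep A) (n : ℕ) : Sep3 (Matrix (Fin n) (Fin n) A) := by
  classical
  intro X Y hXY
  set φ : Fin 3 × Fin n ≃ Fin (3 * n) := finProdFinEquiv with hφ
  set X' : ℕ → Matrix (Fin 3 × Fin n) (Fin 3 × Fin n) A := fun i =>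
    Matrix.of fun p q => if p.1 = 0 then X i q.1 p.2 q.2 else 0 with hX'
  set Y' : ℕ → Matrix (Fin 3 × Fin n) (Fin 3 × Fin n) A := fun j =>
    Matrix.of fun p q => if q.1 = 0 then Y j p.1 p.2 q.2 else 0 with hY'
  have h0 : ∀ i j, X' i * Y' j = 0 := by
    intro i j
    ext p q
    rw [Matrix.mul_apply, Fintype.sum_prod_type]
    simp only [hX', hY', Matrix.of_apply, Matrix.zero_apply]
    by_cases hp : p.1 = 0
    · by_cases hq : q.1 = 0
      · simp only [hp, hq, if_true]
        have := congrFun (congrFun (hXY i j) p.2) q.2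
        rw [Matrix.sum_apply, Matrix.zero_apply] at this
        simpa only [Matrix.mul_apply] using this
      · simp [hq]
    · simp [hp]
  obtain ⟨E, -, hE1, hE2⟩ := h (3 * n) (fun i => Matrix.reindex φ φ (X' i))
    (fun j => Matrix.reindex φ φ (Y' j)) (by
      intro i j
      simp only [Matrix.reindex_apply]
      rw [Matrix.submatrix_mul_equiv, h0]
      rfl)
  set E' : Matrix (Fin 3 × Fin n) (Fin 3 × Fin n) A := E.submatrix φ φ with hE'
  have h1 : ∀ i, X' i * E' = 0 := by
    intro i
    have := congrArg (fun M => Matrix.submatrix M φ φ) (hE1 i)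
    simp only [Matrix.reindex_apply] at this
    rw [← Matrix.submatrix_mul_equiv (e₂ := φ), Matrix.submatrix_submatrix] at this
    simpa using this
  have h2 : ∀ j, E' * Y' j = Y' j := by
    intro j
    have := congrArg (fun M => Matrix.submatrix M φ φ) (hE2 j)
    simp only [Matrix.reindex_apply] at this
    rw [← Matrix.submatrix_mul_equiv (e₂ := φ), Matrix.submatrix_submatrix] at this
    simpa using this
  refine ⟨Matrix.of fun p q => Matrix.of fun x y => E' (p, x) (q, y), ?_, ?_⟩
  · intro i q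
    ext x y
    have := congrFun (congrFun (h1 i) ((0 : Fin 3), x)) (q, y)
    rw [Matrix.mul_apply, Fintype.sum_prod_type] at this
    rw [Matrix.sum_apply]
    simpa [hX', Matrix.mul_apply] using this
  · intro j p
    ext x y
    have := congrFun (congrFun (h2 j) (p, x)) ((0 : Fin 3), y)
    rw [Matrix.mul_apply, Fintype.sum_prod_type] at this
    rw [Matrix.sum_apply]
    simpa [hY', Matrix.mul_apply] using this

/-- Matrix of series to series of matrices. -/
noncomputable def toM {n : ℕ} (M : Matrix (Fin n) (Fin n) A⟦X⟧) :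
    (Matrix (Fin n) (Fin n) A)⟦X⟧ :=
  PowerSeries.mk fun i => Matrix.of fun p q => coeff i (M p q)

/-- Series of matrices to matrix of series. -/
noncomputable def ofM {n : ℕ} (t : (Matrix (Fin n) (Fin n) A)⟦X⟧) :
    Matrix (Fin n) (Fin n) A⟦X⟧ :=
  Matrix.of fun p q => PowerSeries.mk fun i => coeff i t p q

theorem toM_ofM {n : ℕ} (t : (Matrix (Fin n) (Fin n) A)⟦X⟧) : toM (ofM t) = t := by
  ext i p q
  simp [toM, ofM]

theorem ofM_toM {n : ℕ} (M : Matrix (Fin n) (Fin n) A⟦X⟧) : ofM (toM M) = M := by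
  ext p q i
  simp [toM, ofM]

theorem toM_mul {n : ℕ} (M N : Matrix (Fin n) (Fin n) A⟦X⟧) :
    toM (M * N) = toM M * toM N := by
  ext i p q
  rw [PowerSeries.coeff_mul]
  simp only [toM, coeff_mk, Matrix.of_apply, Matrix.mul_apply, Matrix.sum_apply, map_sum,
    PowerSeries.coeff_mul]
  rw [Finset.sum_comm]

theorem toM_zero {n : ℕ} : toM (0 : Matrix (Fin n) (Fin n) A⟦X⟧) = 0 := by
  ext i p q
  simp [toM]

theorem toM_injective {n : ℕ} :
    Function.Injective (toM : Matrix (Fin n) (Fin n) A⟦X⟧ → _) :=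
  Function.LeftInverse.injective ofM_toM

theorem PFmat_iff_toM : PFmat A⟦X⟧ ↔ ∀ n : ℕ, PF (Matrix (Fin n) (Fin n) A)⟦X⟧ := by
  constructor
  · intro h n a r har
    obtain ⟨u, h1, h2⟩ := h n (ofM a) (ofM r) (by
      apply toM_injective
      rw [toM_mul, toM_ofM, toM_ofM, har, toM_zero])
    refine ⟨toM u, ?_, ?_⟩
    · rw [← toM_ofM a, ← toM_mul, h1, toM_zero]
    · conv_lhs => rw [← toM_ofM r]
      rw [← toM_mul, h2, toM_ofM]
  · intro h n a r har
    obtain ⟨u, h1, h2⟩ := h n (toM a) (toM r) (by rw [← toM_mul, har, toM_zero])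
    refine ⟨ofM u, ?_, ?_⟩
    · apply toM_injective
      rw [toM_mul, toM_ofM, h1, toM_zero]
    · apply toM_injective
      rw [toM_mul, toM_ofM, h2]

/-- Sufficiency. -/
theorem PFmat_of (hV : VNR A) (hS : Sep A) : PFmat A⟦X⟧ := by
  rw [PFmat_iff_toM]
  intro n a r har
  exact exists_annihilating (hV.matrix (Fin n)) (hS.sep3 n) har

/-! ## Necessity -/

theorem VNR_of_PFmat (h : PFmat A⟦X⟧) : VNR A := by
  intro α
  have hX : C α * X - X * C α = (0 : A⟦X⟧) := by rw [PowerSeries.X_mul, sub_self]
  obtain ⟨u, h1, h2⟩ := h 2 !![C α, X; 0, 0] !![X, 0; -C α, 0] (by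
    refine Matrix.ext fun i j => ?_
    fin_cases i <;> fin_cases j <;>
      simp [Matrix.mul_apply, Fin.sum_univ_two, ← sub_eq_add_neg, hX])
  have e1 := congrFun (congrFun h1 0) 0
  have e2 := congrFun (congrFun h2 0) 0
  simp only [Matrix.mul_apply, Fin.sum_univ_two] at e1 e2
  simp only [Matrix.of_apply, Matrix.cons_val', Matrix.cons_val_zero, Matrix.cons_val_one,
    Matrix.zero_apply, Matrix.cons_val_fin_one] at e1 e2
  have f1 := congrArg (coeff 0) e1
  rw [map_add, PowerSeries.coeff_C_mul, PowerSeries.coeff_zero_X_mul, add_zero, map_zero] at f1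
  have f2 := congrArg (coeff 1) e2
  rw [map_add, mul_neg, map_neg, PowerSeries.coeff_mul_C, PowerSeries.coeff_one_X] at f2
  have f3 : coeff 1 (u 0 0 * X) = coeff 0 (u 0 0) := PowerSeries.coeff_succ_mul_X 0 (u 0 0)
  rw [f3] at f2
  refine ⟨-coeff 1 (u 0 1), ?_⟩
  have f4 : α * (coeff 0 (u 0 0) + -(coeff 1 (u 0 1) * α)) = α := by rw [f2, mul_one]
  rw [mul_add, f1, zero_add] at f4
  rw [mul_neg, neg_mul, mul_assoc, ← mul_neg]
  exact f4

section

variable {B : Type u} [Ring B]

/-- Orthogonalisation of a countable family. -/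
theorem orthogonalize (hV : VNR B) (X : ℕ → B) :
    ∃ g : ℕ → B, (∀ i, g i * g i = g i) ∧ (∀ i j, i ≠ j → g i * g j = 0) ∧
      (∀ n, ∑ i ∈ Finset.range (n + 1), X n * g i = X n) ∧
      ∀ y, (∀ i, X i * y = 0) → ∀ i, g i * y = 0 := by
  obtain ⟨f, hf0, hfP, hfR⟩ := dep_seq (α := B)
    (fun n G => G * G = G ∧ (∀ i < n, X i * G = X i) ∧ ∀ y, (∀ i, X i * y = 0) → G * y = 0)
    (fun n G G' => ∃ g : B, G' = G + g ∧ g * g = g ∧ G * g = 0 ∧ g * G = 0 ∧
      ∀ y, (∀ i, X i * y = 0) → g * y = 0)
    (0 : B) ⟨by simp, by simp, by simp⟩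
    (by
      rintro n G ⟨hG, hX, hy⟩
      obtain ⟨w, hw⟩ := hV (X n * (1 - G))
      set g : B := (1 - G) * w * (X n * (1 - G)) with hg
      have hGG : (1 - G) * (1 - G) = 1 - G := by rw [one_sub_mul_one_sub, hG]; abel
      have hgg : g * g = g := by
        calc g * g = (1 - G) * w * (X n * ((1 - G) * (1 - G)) * w * (X n * (1 - G))) := by
              rw [hg]; simp only [mul_assoc]
          _ = g := by rw [hGG, hw]
      have hGg : G * g = 0 := by
        have : G * (1 - G) = 0 := by rw [mul_sub, mul_one, hG, sub_self]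
        calc G * g = G * (1 - G) * (w * (X n * (1 - G))) := by rw [hg]; simp only [mul_assoc]
          _ = 0 := by rw [this, zero_mul]
      have hgG : g * G = 0 := by
        have : (1 - G) * G = 0 := by rw [sub_mul, one_mul, hG, sub_self]
        calc g * G = (1 - G) * w * X n * ((1 - G) * G) := by rw [hg]; simp only [mul_assoc]
          _ = 0 := by rw [this, mul_zero]
      have hXg : X n * g = X n * (1 - G) := by
        conv_rhs => rw [← hw]
        rw [hg]; simp only [mul_assoc]
      have hgy : ∀ y, (∀ i, X i * y = 0) → g * y = 0 := by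
        intro y hxy
        have : g * y = (1 - G) * w * (X n * y - X n * (G * y)) := by rw [hg]; noncomm_ring
        rw [this, hxy, hy y hxy]; simp
      refine ⟨G + g, ⟨?_, ?_, ?_⟩, g, rfl, hgg, hGg, hgG, hgy⟩
      · rw [add_mul, mul_add, mul_add, hG, hGg, hgG, hgg]; abel
      · intro i hi
        rcases Nat.lt_succ_iff_lt_or_eq.1 hi with hi | rfl
        · rw [mul_add, hX i hi]
          conv_lhs => rw [← hX i hi]
          rw [mul_assoc, hGg, mul_zero, add_zero, hX i hi]
        · rw [mul_add, hXg]; noncomm_ring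
      · intro y hxy
        rw [add_mul, hy y hxy, hgy y hxy, add_zero])
  choose g hg1 hg2 hg3 hg4 hg5 using hfR
  have hsum : ∀ n, f n = ∑ i ∈ Finset.range n, g i := by
    intro n
    induction n with
    | zero => simp [hf0]
    | succ n ih => rw [Finset.sum_range_succ, ← ih, hg1]
  have hGl : ∀ i n, i < n → f n * g i = g i := by
    intro i n hin
    induction n, hin using Nat.le_induction with
    | base => rw [hg1, add_mul, hg3, hg2, zero_add]
    | succ n hn ih =>
      rw [hg1, add_mul, ih]
      have : g n * g i = 0 := by rw [← ih, ← mul_assoc, hg4, zero_mul]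
      rw [this, add_zero]
  have hGr : ∀ i n, i < n → g i * f n = g i := by
    intro i n hin
    induction n, hin using Nat.le_induction with
    | base => rw [hg1, mul_add, hg4, hg2, zero_add]
    | succ n hn ih =>
      rw [hg1, mul_add, ih]
      have : g i * g n = 0 := by rw [← ih, mul_assoc, hg3, mul_zero]
      rw [this, add_zero]
  refine ⟨g, hg2, ?_, ?_, ?_⟩
  · intro i j hij
    rcases lt_or_gt_of_ne hij with h | h
    · rw [← hGr i j h, mul_assoc, hg3, mul_zero]
    · rw [← hGl j i h, ← mul_assoc, hg4, zero_mul]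
  · intro n
    rw [← Finset.mul_sum, ← hsum, (hfP (n + 1)).2.1 n (Nat.lt_succ_self n)]
  · intro y hy i
    exact hg5 i y hy

/-- Separation from `PF` of the power series ring. -/
theorem sep_of_PF (hV : VNR B) (hPF : PF B⟦X⟧) (X Y : ℕ → B) (hXY : ∀ i j, X i * Y j = 0) :
    ∃ E : B, E * E = E ∧ (∀ i, X i * E = 0) ∧ ∀ j, E * Y j = Y j := by
  obtain ⟨g, hg1, hg2, hg3, hg4⟩ := orthogonalize hV X
  obtain ⟨h', hh1', hh2', hh3', hh4'⟩ := orthogonalize hV.op (fun j => op (Y j))
  set h : ℕ → B := fun j => unop (h' j) with hh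
  have hh1 : ∀ i, h i * h i = h i := fun i => by
    have := congrArg unop (hh1' i); rwa [unop_mul] at this
  have hh2 : ∀ i j, i ≠ j → h i * h j = 0 := fun i j hij => by
    have := congrArg unop (hh2' j i (Ne.symm hij)); rwa [unop_mul, unop_zero] at this
  have hh3 : ∀ n, ∑ i ∈ Finset.range (n + 1), h i * Y n = Y n := fun n => by
    have := congrArg unop (hh3' n)
    rw [Finset.unop_sum] at this
    simpa [unop_mul] using this
  have hgh : ∀ i j, g i * h j = 0 := by
    intro i j
    have : h' j * op (g i) = 0 := hh4' (op (g i)) (fun k => by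
      rw [← op_mul, hg4 (Y k) (fun l => hXY l k) i, op_zero]) j
    have := congrArg unop this
    rwa [unop_mul, unop_op, unop_zero] at this
  obtain ⟨u, hu1, hu2⟩ := hPF (PowerSeries.mk g) (PowerSeries.mk h) (by
    ext n
    rw [PowerSeries.coeff_mul, map_zero]
    exact Finset.sum_eq_zero fun p _ => by rw [coeff_mk, coeff_mk, hgh])
  have hgu : ∀ n, g n * coeff 0 u = 0 := by
    intro n
    have h1 := congrArg (coeff n) hu1
    rw [PowerSeries.coeff_mul, map_zero] at h1
    have h2 : g n * ∑ p ∈ Finset.HasAntidiagonal.antidiagonal n, coeff p.1 (PowerSeries.mk g) * coeff p.2 u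
        = g n * coeff 0 u := by
      rw [Finset.mul_sum, Finset.sum_eq_single (n, 0)]
      · rw [coeff_mk, ← mul_assoc, hg1]
      · rintro ⟨p, q⟩ hp hne
        have hp' := Finset.HasAntidiagonal.mem_antidiagonal.1 hp
        simp only at hp'
        have : n ≠ p := by
          rintro rfl
          apply hne
          have : q = 0 := by omega
          rw [this]
        rw [coeff_mk, ← mul_assoc, hg2 n p this, zero_mul]
      · intro hn
        exact absurd (Finset.HasAntidiagonal.mem_antidiagonal.2 (by simp)) hn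
    rw [← h2, h1, mul_zero]
  have huh : ∀ n, coeff 0 u * h n = h n := by
    intro n
    have h1 := congrArg (coeff n) hu2
    rw [PowerSeries.coeff_mul, coeff_mk] at h1
    have h2 : (∑ p ∈ Finset.HasAntidiagonal.antidiagonal n, coeff p.1 u * coeff p.2 (PowerSeries.mk h)) * h n
        = coeff 0 u * h n := by
      rw [Finset.sum_mul, Finset.sum_eq_single (0, n)]
      · rw [coeff_mk, mul_assoc, hh1]
      · rintro ⟨p, q⟩ hp hne
        have hp' := Finset.HasAntidiagonal.mem_antidiagonal.1 hp
        simp only at hp'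
        have : q ≠ n := by
          rintro rfl
          apply hne
          have : p = 0 := by omega
          rw [this]
        rw [coeff_mk, mul_assoc, hh2 q n this, mul_zero]
      · intro hn
        exact absurd (Finset.HasAntidiagonal.mem_antidiagonal.2 (by simp)) hn
    rw [← h2, h1, hh1]
  set E : B := coeff 0 u with hE
  have hXE : ∀ n, X n * E = 0 := by
    intro n
    rw [← hg3 n, Finset.sum_mul]
    exact Finset.sum_eq_zero fun i _ => by rw [mul_assoc, hgu, mul_zero]
  have hEY : ∀ n, E * Y n = Y n := by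
    intro n
    conv_lhs => rw [← hh3 n]
    rw [Finset.mul_sum]
    conv_rhs => rw [← hh3 n]
    exact Finset.sum_congr rfl fun i _ => by rw [← mul_assoc, huh]
  obtain ⟨w, hw⟩ := hV (1 - E)
  refine ⟨1 - w * (1 - E), ?_, ?_, ?_⟩
  · have : w * (1 - E) * (w * (1 - E)) = w * (1 - E) := by
      calc w * (1 - E) * (w * (1 - E)) = w * ((1 - E) * w * (1 - E)) := by
            simp only [mul_assoc]
        _ = _ := by rw [hw]
    rw [one_sub_mul_one_sub, this]; abel
  · intro i
    have h1 : X i * (1 - E) = X i := by rw [mul_sub, mul_one, hXE, sub_zero]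
    have h2 : X i * (w * (1 - E)) = X i := by
      calc X i * (w * (1 - E)) = X i * (1 - E) * (w * (1 - E)) := by rw [h1]
        _ = X i * ((1 - E) * w * (1 - E)) := by simp only [mul_assoc]
        _ = X i := by rw [hw, h1]
    rw [mul_sub, mul_one, h2, sub_self]
  · intro j
    rw [sub_mul, one_mul, mul_assoc, sub_mul, one_mul, hEY, sub_self, mul_zero, sub_zero]

end

theorem Sep_of_PFmat (h : PFmat A⟦X⟧) : Sep A := by
  have hV := VNR_of_PFmat h
  rw [PFmat_iff_toM] at h
  intro n X Y hXY
  exact sep_of_PF (hV.matrix (Fin n)) (h n) X Y hXY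

theorem PFmat_iff : PFmat A⟦X⟧ ↔ VNR A ∧ Sep A :=
  ⟨fun h => ⟨VNR_of_PFmat h, Sep_of_PFmat h⟩, fun h => PFmat_of h.1 h.2⟩

end Run7.h150
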