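import Mathlib

/-!
# Von Neumann regular rings: elementary linear algebra

A ring `B` is von Neumann regular if every `a` has a quasi-inverse `b`, `a * b * a = a`.
We show that finitely generated one-sided ideals are generated by idempotents, in the
form needed later, and that matrix rings over `B` are again regular.
-/

namespace Run7.h150

open scoped Matrix

universe u

/-- Von Neumann regularity. -/
def VNR (B : Type u) [Ring B] : Prop := ∀ a : B, ∃ b : B, a * b * a = a

variable {B : Type u} [Ring B]

theorem VNR.op (h : VNR B) : VNR Bᵐᵒᵖ := by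
  intro a
  obtain ⟨b, hb⟩ := h a.unop
  refine ⟨MulOpposite.op b, ?_⟩
  apply MulOpposite.unop_injective
  simp only [MulOpposite.unop_mul, MulOpposite.unop_op]
  rw [← mul_assoc]; exact hb

/-- The right ideal generated by finitely many elements has an idempotent generator. -/
theorem VNR.row_finset (h : VNR B) {ι : Type*} (v : ι → B) (s : Finset ι) :
    ∃ u : ι → B, ∀ i ∈ s, (∑ j ∈ s, v j * u j) * v i = v i := by
  classical
  induction s using Finset.induction_on with
  | empty => exact ⟨fun _ => 0, by simp⟩
  | @insert a s ha ih =>
    obtain ⟨u, hu⟩ := ih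
    set e : B := ∑ j ∈ s, v j * u j with he
    obtain ⟨w, hw⟩ := h ((1 - e) * v a)
    have hev : ∀ i ∈ s, e * v i = v i := hu
    -- new generator `e' = e + (1-e) v_a w (1-e)`
    refine ⟨fun j => if j = a then w * (1 - e) else u j * (1 - v a * w * (1 - e)), ?_⟩
    have hsum : (∑ j ∈ insert a s, v j * (if j = a then w * (1 - e) else
        u j * (1 - v a * w * (1 - e)))) = e + (1 - e) * v a * w * (1 - e) := by
      rw [Finset.sum_insert ha]
      have : (∑ j ∈ s, v j * (if j = a then w * (1 - e) else
          u j * (1 - v a * w * (1 - e)))) = e * (1 - v a * w * (1 - e)) := by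
        rw [he, Finset.sum_mul, ← he]
        refine Finset.sum_congr rfl fun j hj => ?_
        have : j ≠ a := fun h => ha (h ▸ hj)
        rw [if_neg this, mul_assoc (v j) (u j)]
      rw [this]
      simp only [if_true]
      noncomm_ring
    rw [hsum]
    intro i hi
    rcases Finset.mem_insert.1 hi with rfl | hi
    · have : (e + (1 - e) * v i * w * (1 - e)) * v i
          = e * v i + (1 - e) * v i * w * ((1 - e) * v i) := by noncomm_ring
      rw [this, hw]; noncomm_ring
    · have h1 : (1 - e) * v i = 0 := by rw [sub_mul, one_mul, hev i hi, sub_self]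
      rw [add_mul, hev i hi, mul_assoc _ (1 - e), h1, mul_zero, add_zero]

/-- Row version over a finite type. -/
theorem VNR.row (h : VNR B) {ι : Type*} [Fintype ι] (v : ι → B) :
    ∃ u : ι → B, ∀ i, (∑ j, v j * u j) * v i = v i := by
  obtain ⟨u, hu⟩ := h.row_finset v Finset.univ
  exact ⟨u, fun i => hu i (Finset.mem_univ i)⟩

/-- Column version: the left ideal generated by finitely many elements. -/
theorem VNR.col (h : VNR B) {ι : Type*} [Fintype ι] (v : ι → B) :
    ∃ u : ι → B, ∀ i, v i * (∑ j, u j * v j) = v i := by
  obtain ⟨u, hu⟩ := h.op.row (fun i => MulOpposite.op (v i))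
  refine ⟨fun i => (u i).unop, fun i => ?_⟩
  have := congrArg MulOpposite.unop (hu i)
  simpa [Finset.unop_sum] using this

/-- Matrix rings over a von Neumann regular ring are von Neumann regular. -/
theorem VNR.matrix (h : VNR B) (n : Type*) [Fintype n] [DecidableEq n] :
    VNR (Matrix n n B) := by
  classical
  intro M
  -- `P s` is the diagonal projection on `s`
  have key : ∀ s : Finset n, ∃ D : Matrix n n B, ∀ k ∈ s, ∀ i, (M * D * M) i k = M i k := by
    intro s
    induction s using Finset.induction_on with
    | empty => exact ⟨0, by simp⟩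
    | @insert a s ha ih =>
      obtain ⟨D, hD⟩ := ih
      set V : Matrix n n B := M - M * D * M with hV
      obtain ⟨w, hw⟩ := h.col (fun i => V i a)
      -- the matrix with row `a` equal to `w`
      set W : Matrix n n B := fun i j => if i = a then w j else 0 with hW
      have hVs : ∀ k ∈ s, ∀ i, V i k = 0 := by
        intro k hk i
        rw [hV, Matrix.sub_apply, hD k hk i, sub_self]
      have hWV : ∀ j k, (W * V) j k = if j = a then (∑ i, w i * V i k) else 0 := by
        intro j k
        rw [Matrix.mul_apply]
        by_cases hj : j = a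
        · simp [hW, hj]
        · simp [hW, hj]
      have hVWV : ∀ i k, (V * (W * V)) i k = V i a * (∑ i, w i * V i k) := by
        intro i k
        rw [Matrix.mul_apply, Finset.sum_eq_single a]
        · rw [hWV, if_pos rfl]
        · intro b _ hb; rw [hWV, if_neg hb, mul_zero]
        · intro h; exact absurd (Finset.mem_univ _) h
      refine ⟨D + (1 - D * M) * W * (1 - M * D), ?_⟩
      have hexp : M * (D + (1 - D * M) * W * (1 - M * D)) * M
          = M * D * M + V * (W * V) := by
        rw [hV]; noncomm_ring
      intro k hk i
      rw [hexp, Matrix.add_apply, hVWV]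
      rcases Finset.mem_insert.1 hk with rfl | hk
      · rw [hw i, hV, Matrix.sub_apply]; abel
      · have : (∑ i, w i * V i k) = 0 :=
          Finset.sum_eq_zero fun j _ => by rw [hVs k hk j, mul_zero]
        rw [this, mul_zero, add_zero, hD k hk i]
  obtain ⟨D, hD⟩ := key Finset.univ
  exact ⟨D, by ext i k; exact hD k (Finset.mem_univ k) i⟩

end Run7.h150
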