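import Mathlib

/-!
# Weak global dimension of a noncommutative ring: definitions

A right `R`-module is a module over `Rᵐᵒᵖ`, with `m · r = MulOpposite.op r • m`.
-/

namespace Run7.h150

open TensorProduct

universe u

section

variable (R : Type u) [Ring R] (M : Type u) [AddCommGroup M] [Module Rᵐᵒᵖ M]

/-- The subgroup of `M ⊗_ℤ N` generated by all `(m · r) ⊗ n - m ⊗ (r · n)`. -/
def balanced (N : Type u) [AddCommGroup N] [Module R N] : AddSubgroup (M ⊗[ℤ] N) :=
  AddSubgroup.closure {z | ∃ (m : M) (r : R) (n : N),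
    z = (MulOpposite.op r • m) ⊗ₜ[ℤ] n - m ⊗ₜ[ℤ] (r • n)}

/-- The tensor product `M ⊗_R N` of a right module and a left module. -/
abbrev RTensor (N : Type u) [AddCommGroup N] [Module R N] : Type u :=
  (M ⊗[ℤ] N) ⧸ balanced R M N

variable {N N' : Type u} [AddCommGroup N] [Module R N] [AddCommGroup N'] [Module R N']

/-- The map `id ⊗ f : M ⊗_ℤ N → M ⊗_ℤ N'`. -/
noncomputable def zmap (f : N →ₗ[R] N') : M ⊗[ℤ] N →+ M ⊗[ℤ] N' :=
  (LinearMap.lTensor M f.toAddMonoidHom.toIntLinearMap).toAddMonoidHom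

theorem zmap_tmul (f : N →ₗ[R] N') (m : M) (n : N) :
    zmap R M f (m ⊗ₜ[ℤ] n) = m ⊗ₜ[ℤ] f n := rfl

theorem balanced_le (f : N →ₗ[R] N') :
    balanced R M N ≤ (balanced R M N').comap (zmap R M f) := by
  rw [balanced, AddSubgroup.closure_le]
  rintro _ ⟨m, r, n, rfl⟩
  change zmap R M f _ ∈ balanced R M N'
  rw [map_sub, zmap_tmul, zmap_tmul, map_smul]
  exact AddSubgroup.subset_closure ⟨m, r, f n, rfl⟩

/-- The map `id ⊗ f : M ⊗_R N → M ⊗_R N'`. -/
noncomputable def RTensor.map (f : N →ₗ[R] N') : RTensor R M N →+ RTensor R M N' :=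
  QuotientAddGroup.map _ _ (zmap R M f) (balanced_le R M f)

/-- A right module `M` is flat if `M ⊗_R -` preserves injectivity of homomorphisms of left
modules. -/
def IsFlat : Prop :=
  ∀ (N N' : Type u) [AddCommGroup N] [Module R N] [AddCommGroup N'] [Module R N']
    (f : N →ₗ[R] N'), Function.Injective f → Function.Injective (RTensor.map R M f)

end

/-- `M` has a flat resolution `0 → F n → ⋯ → F 0 → M → 0` of length `n`. -/
def HasFlatRes (R : Type u) [Ring R] :
    ℕ → ∀ (M : Type u) [AddCommGroup M] [Module Rᵐᵒᵖ M], Prop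
  | 0, M, _, _ => IsFlat R M
  | n + 1, M, _, _ => ∃ (F : Type u) (_ : AddCommGroup F) (_ : Module Rᵐᵒᵖ F)
      (π : F →ₗ[Rᵐᵒᵖ] M), IsFlat R F ∧ Function.Surjective π ∧
        HasFlatRes R n (LinearMap.ker π)

/-- The flat dimension of a right module. -/
noncomputable def flatDim (R : Type u) [Ring R] (M : Type u) [AddCommGroup M]
    [Module Rᵐᵒᵖ M] : ℕ∞ :=
  ⨅ (n : ℕ) (_ : HasFlatRes R n M), (n : ℕ∞)

/-- The weak global dimension: the supremum of the flat dimensions of all right modules. -/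
noncomputable def wglDim (R : Type u) [Ring R] : ℕ∞ :=
  ⨆ M : ModuleCat.{u} Rᵐᵒᵖ, flatDim R M

end Run7.h150
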