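import Pool.Agent.Run7.h150.Tensor
import Pool.Agent.Run7.h150.Transfer

/-!
# Weak global dimension at most one, and the main theorem
-/

namespace Run7.h150

open MulOpposite

universe u w

section

variable {R : Type u} [Ring R]

theorem flatDim_le_one_iff {M : Type u} [AddCommGroup M] [Module Rᵐᵒᵖ M] :
    flatDim R M ≤ 1 ↔ HasFlatRes R 0 M ∨ HasFlatRes R 1 M := by
  constructor
  · intro h
    by_contra hcon
    rw [not_or] at hcon
    have h2 : (2 : ℕ∞) ≤ flatDim R M := by
      rw [flatDim]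
      refine le_iInf fun n => le_iInf fun hn => ?_
      have : 2 ≤ n := by
        by_contra hlt
        have : n = 0 ∨ n = 1 := by omega
        rcases this with rfl | rfl
        · exact hcon.1 hn
        · exact hcon.2 hn
      exact_mod_cast this
    have h3 := h2.trans h
    exact absurd h3 (by decide)
  · rintro (h | h)
    · rw [flatDim]
      exact (iInf₂_le 0 h).trans (by simp)
    · rw [flatDim]
      exact (iInf₂_le 1 h).trans (by simp)

theorem flatDim_eq_zero_iff {M : Type u} [AddCommGroup M] [Module Rᵐᵒᵖ M] :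
    flatDim R M = 0 ↔ IsFlat R M := by
  constructor
  · intro h
    by_contra hcon
    have h2 : (1 : ℕ∞) ≤ flatDim R M := by
      rw [flatDim]
      refine le_iInf fun n => le_iInf fun hn => ?_
      have : 1 ≤ n := by
        by_contra hlt
        have : n = 0 := by omega
        subst this
        exact hcon hn
      exact_mod_cast this
    rw [h] at h2
    exact absurd h2 (by decide)
  · intro h
    apply le_antisymm _ bot_le
    rw [flatDim]
    exact (iInf₂_le 0 h).trans (by simp)

theorem ker_flat {M : Type u} [AddCommGroup M] [Module Rᵐᵒᵖ M] (h : flatDim R M ≤ 1)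
    {F : Type u} [AddCommGroup F] [Module Rᵐᵒᵖ F] (hF : EqFlat Rᵐᵒᵖ F) (f : F →ₗ[Rᵐᵒᵖ] M)
    (hf : Function.Surjective f) : EqFlat Rᵐᵒᵖ (LinearMap.ker f) := by
  rcases flatDim_le_one_iff.1 h with h | ⟨F', _, _, f', hF', hf', hk'⟩
  · refine EqFlat.of_exact_left (K := LinearMap.ker f) (P := F) (F := M)
      (LinearMap.ker f).subtype f Subtype.val_injective ?_ hf hF (isFlat_iff.1 h)
    intro x
    constructor
    · intro hx
      exact ⟨⟨x, hx⟩, rfl⟩
    · rintro ⟨y, rfl⟩
      exact y.2
  · exact EqFlat.schanuel f f' hf hf' hF (isFlat_iff.1 hF') (isFlat_iff.1 hk')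

/-- If all flat dimensions are at most one then `PFmat` holds. -/
theorem PFmat_of_flatDim (h : ∀ (M : Type u) [AddCommGroup M] [Module Rᵐᵒᵖ M],
    flatDim R M ≤ 1) : PFmat R := by
  classical
  intro n a r har
  set α : Fin n → (Fin n →₀ Rᵐᵒᵖ) :=
    fun i => Finsupp.equivFunOnFinite.symm (fun j => op (a j i)) with hα
  have hαa : ∀ i j, α i j = op (a j i) := fun i j => rfl
  set K : Submodule Rᵐᵒᵖ (Fin n →₀ Rᵐᵒᵖ) := Submodule.span Rᵐᵒᵖ (Set.range α) with hK
  have hflat : EqFlat Rᵐᵒᵖ (LinearMap.ker K.mkQ) :=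
    ker_flat (h ((Fin n →₀ Rᵐᵒᵖ) ⧸ K)) (EqFlat.finsupp (Fin n)) K.mkQ K.mkQ_surjective
  have hαK : ∀ i, α i ∈ LinearMap.ker K.mkQ := fun i => by
    rw [Submodule.ker_mkQ]; exact Submodule.subset_span ⟨i, rfl⟩
  obtain ⟨q, k', u, h1, h2⟩ := hflat.mat (Finset.univ : Finset (Fin n))
    (fun l i => op (r i l)) (fun i => (⟨α i, hαK i⟩ : LinearMap.ker K.mkQ)) (by
      intro l _
      apply Subtype.ext
      rw [Submodule.coe_sum]
      ext j
      rw [Finsupp.finsetSum_apply]
      simp only [Submodule.coe_smul, Finsupp.smul_apply, hαa, smul_eq_mul]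
      have := congrFun (congrFun har j) l
      rw [Matrix.mul_apply, Matrix.zero_apply] at this
      have h3 := congrArg op this
      rw [Finset.op_sum, op_zero] at h3
      simpa [op_mul] using h3)
  have hex : ∀ t, ∃ d : Fin n → Rᵐᵒᵖ, ∑ i, d i • α i = (k' t : Fin n →₀ Rᵐᵒᵖ) := by
    intro t
    apply (Submodule.mem_span_range_iff_exists_fun Rᵐᵒᵖ).1
    exact (Submodule.ker_mkQ K).le (k' t).2
  choose d hd using hex
  set W : Matrix (Fin n) (Fin n) R := Matrix.of fun i' i => unop (∑ t, u i t * d t i') with hW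
  have haW : a * W = a := by
    ext j i
    have h3 := congrArg (fun x : LinearMap.ker K.mkQ => (x : Fin n →₀ Rᵐᵒᵖ) j) (h1 i)
    simp only [Submodule.coe_sum, Submodule.coe_smul] at h3
    rw [Finsupp.finsetSum_apply] at h3
    simp only [← hd, Finsupp.smul_apply, Finsupp.finsetSum_apply, hαa, smul_eq_mul] at h3
    rw [Matrix.mul_apply]
    apply op_injective
    rw [h3, Finset.op_sum]
    simp only [hW, Matrix.of_apply, op_mul, op_unop, Finset.mul_sum, Finset.sum_mul, mul_assoc]
    rw [Finset.sum_comm]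
  have hWr : W * r = 0 := by
    ext i' l
    rw [Matrix.mul_apply, Matrix.zero_apply]
    apply op_injective
    rw [Finset.op_sum, op_zero]
    simp only [hW, Matrix.of_apply, op_mul, op_unop, Finset.mul_sum, ← mul_assoc]
    rw [Finset.sum_comm]
    refine Finset.sum_eq_zero fun t _ => ?_
    rw [← Finset.sum_mul, h2 l (Finset.mem_univ l) t, zero_mul]
  refine ⟨1 - W, ?_, ?_⟩
  · rw [mul_sub, mul_one, haW, sub_self]
  · rw [sub_mul, one_mul, hWr, sub_zero]

theorem PFmat.fintype (h : PFmat R) (ι : Type w) [Fintype ι] [DecidableEq ι] :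
    PF (Matrix ι ι R) := by
  intro a r har
  set e := Fintype.equivFin ι with he
  obtain ⟨u, h1, h2⟩ := h (Fintype.card ι) (a.submatrix e.symm e.symm) (r.submatrix e.symm e.symm)
    (by rw [Matrix.submatrix_mul_equiv, har]; rfl)
  refine ⟨u.submatrix e e, ?_, ?_⟩
  · have := congrArg (fun M => Matrix.submatrix M e e) h1
    rw [← Matrix.submatrix_mul_equiv (e₂ := e), Matrix.submatrix_submatrix] at this
    simpa using this
  · have := congrArg (fun M => Matrix.submatrix M e e) h2
    rw [← Matrix.submatrix_mul_equiv (e₂ := e), Matrix.submatrix_submatrix] at this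
    simpa using this

/-- Under `PFmat`, submodules of free modules are flat. -/
theorem PFmat.submodule (h : PFmat R) {X : Type w} (K : Submodule Rᵐᵒᵖ (X →₀ Rᵐᵒᵖ)) :
    EqFlat Rᵐᵒᵖ K := by
  classical
  intro p s k hk
  set c : Finset X := Finset.univ.biUnion (fun i => ((k i : X →₀ Rᵐᵒᵖ)).support) with hc
  have hk' : ∀ j : X, ∑ i, s i * (k i : X →₀ Rᵐᵒᵖ) j = 0 := by
    intro j
    have := congrArg (fun x : K => (x : X →₀ Rᵐᵒᵖ) j) hk
    simp only [Submodule.coe_sum, Submodule.coe_smul] at this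
    rw [Finsupp.finsetSum_apply] at this
    simpa using this
  obtain ⟨U, h1, h2⟩ := h.fintype (c ⊕ Fin p)
    (Matrix.of fun x y => Sum.elim (fun j : c => Sum.elim (fun _ => (0 : R))
      (fun i => unop ((k i : X →₀ Rᵐᵒᵖ) j)) y) (fun _ => 0) x)
    (Matrix.of fun x _ => Sum.elim (fun _ => (0 : R)) (fun i => unop (s i)) x) (by
      ext x y
      rw [Matrix.mul_apply, Fintype.sum_sum_type]
      cases x with
      | inl j =>
        simp only [Matrix.of_apply, Sum.elim_inl, Sum.elim_inr, mul_zero,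
          Finset.sum_const_zero, zero_add, Matrix.zero_apply]
        have := congrArg unop (hk' j)
        rw [Finset.unop_sum, unop_zero] at this
        simpa [unop_mul] using this
      | inr i => simp)
  refine TrivRel.of s k (κ := Fin p) k
    (fun i i' => op ((if i = i' then 1 else 0) - U (Sum.inr i') (Sum.inr i))) ?_ ?_
  · intro i
    apply Subtype.ext
    ext j
    simp only [Submodule.coe_sum, Submodule.coe_smul]
    rw [Finsupp.finsetSum_apply]
    simp only [Finsupp.smul_apply, smul_eq_mul, op_sub, sub_mul, Finset.sum_sub_distrib]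
    have e1 : ∑ i', op (if i = i' then (1 : R) else 0) * (k i' : X →₀ Rᵐᵒᵖ) j
        = (k i : X →₀ Rᵐᵒᵖ) j := by
      rw [Finset.sum_eq_single i]
      · rw [if_pos rfl, op_one, one_mul]
      · intro b _ hb
        rw [if_neg (Ne.symm hb), op_zero, zero_mul]
      · intro h; exact absurd (Finset.mem_univ i) h
    have e2 : ∑ i', op (U (Sum.inr i') (Sum.inr i)) * (k i' : X →₀ Rᵐᵒᵖ) j = 0 := by
      by_cases hj : j ∈ c
      · have := congrFun (congrFun h1 (Sum.inl ⟨j, hj⟩)) (Sum.inr i)
        rw [Matrix.mul_apply, Fintype.sum_sum_type] at this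
        simp only [Matrix.of_apply, Sum.elim_inl, Sum.elim_inr, zero_mul,
          Finset.sum_const_zero, zero_add, Matrix.zero_apply] at this
        have h3 := congrArg op this
        rw [Finset.op_sum, op_zero] at h3
        simpa [op_mul] using h3
      · refine Finset.sum_eq_zero fun i' _ => ?_
        have : (k i' : X →₀ Rᵐᵒᵖ) j = 0 := by
          by_contra hne
          exact hj (Finset.mem_biUnion.2
            ⟨i', Finset.mem_univ i', Finsupp.mem_support_iff.2 hne⟩)
        rw [this, mul_zero]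
    rw [e1, e2, sub_zero]
  · intro i'
    simp only [op_sub, mul_sub, Finset.sum_sub_distrib]
    have e1 : ∑ i, s i * op (if i = i' then (1 : R) else 0) = s i' := by
      rw [Finset.sum_eq_single i']
      · rw [if_pos rfl, op_one, mul_one]
      · intro b _ hb
        rw [if_neg hb, op_zero, mul_zero]
      · intro h; exact absurd (Finset.mem_univ i') h
    have e2 : ∑ i, s i * op (U (Sum.inr i') (Sum.inr i)) = s i' := by
      have := congrFun (congrFun h2 (Sum.inr i')) (Sum.inr i')
      rw [Matrix.mul_apply, Fintype.sum_sum_type] at this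
      simp only [Matrix.of_apply, Sum.elim_inl, Sum.elim_inr, mul_zero,
        Finset.sum_const_zero, zero_add] at this
      have h3 := congrArg op this
      rw [Finset.op_sum] at h3
      simpa [op_mul] using h3
    rw [e1, e2, sub_self]

theorem PFmat.hasFlatRes (h : PFmat R) (M : Type u) [AddCommGroup M] [Module Rᵐᵒᵖ M] :
    HasFlatRes R 1 M :=
  ⟨M →₀ Rᵐᵒᵖ, inferInstance, inferInstance, Finsupp.linearCombination Rᵐᵒᵖ id,
    isFlat_iff.2 (EqFlat.finsupp M), Finsupp.linearCombination_id_surjective Rᵐᵒᵖ M,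
    isFlat_iff.2 (h.submodule _)⟩

theorem wglDim_le_one_iff : wglDim R ≤ 1 ↔ PFmat R := by
  constructor
  · intro h
    apply PFmat_of_flatDim
    intro M _ _
    exact (le_iSup (fun M : ModuleCat.{u} Rᵐᵒᵖ => flatDim R M) (ModuleCat.of Rᵐᵒᵖ M)).trans h
  · intro h
    exact iSup_le fun M => flatDim_le_one_iff.2 (Or.inr (h.hasFlatRes M))

theorem wglDim_eq_zero_iff :
    wglDim R = 0 ↔ ∀ (M : Type u) [AddCommGroup M] [Module Rᵐᵒᵖ M], IsFlat R M := by
  constructor
  · intro h M _ _
    rw [← flatDim_eq_zero_iff]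
    refine le_antisymm ?_ bot_le
    change flatDim R M ≤ 0
    rw [← h]
    exact le_iSup (fun M : ModuleCat.{u} Rᵐᵒᵖ => flatDim R M) (ModuleCat.of Rᵐᵒᵖ M)
  · intro h
    apply le_antisymm _ bot_le
    exact iSup_le fun M => (flatDim_eq_zero_iff.2 (h M)).le

end

section

open PowerSeries

variable {A : Type u} [Ring A]

theorem wglDim_ne_zero [Nontrivial A] : wglDim A⟦X⟧ ≠ 0 := by
  intro h
  rw [wglDim_eq_zero_iff] at h
  set I : Submodule (A⟦X⟧)ᵐᵒᵖ (A⟦X⟧)ᵐᵒᵖ := Submodule.span _ {op (X : A⟦X⟧)} with hI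
  have hflat : EqFlat (A⟦X⟧)ᵐᵒᵖ ((A⟦X⟧)ᵐᵒᵖ ⧸ I) := isFlat_iff.1 (h _)
  obtain ⟨q, m', u, h1, h2⟩ := hflat 1 (fun _ => op (X : A⟦X⟧))
    (fun _ => Submodule.Quotient.mk 1) (by
      rw [Fin.sum_univ_one, ← Submodule.Quotient.mk_smul, Submodule.Quotient.mk_eq_zero,
        smul_eq_mul, mul_one]
      exact Submodule.subset_span rfl)
  have h3 : ∀ k, u 0 k = 0 := by
    intro k
    have := congrArg unop (h2 k)
    rw [Fin.sum_univ_one, unop_mul, unop_op, unop_zero] at this
    apply unop_injective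
    rw [unop_zero]
    ext i
    have h4 := congrArg (coeff (i + 1)) this
    rwa [PowerSeries.coeff_succ_mul_X, map_zero] at h4
  have h4 := h1 0
  simp only [h3, zero_smul, Finset.sum_const_zero] at h4
  rw [Submodule.Quotient.mk_eq_zero, hI, Submodule.mem_span_singleton] at h4
  obtain ⟨c, hc⟩ := h4
  have h5 := congrArg unop hc
  rw [smul_eq_mul, unop_mul, unop_op, unop_one] at h5
  have h6 := congrArg (coeff 0) h5
  rw [PowerSeries.coeff_zero_X_mul] at h6
  simp at h6

theorem wglDim_of_subsingleton [Subsingleton A] : wglDim A⟦X⟧ = 0 := by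
  rw [wglDim_eq_zero_iff]
  intro M _ _
  rw [isFlat_iff]
  intro p s m _
  refine ⟨0, Fin.elim0, fun _ => Fin.elim0, fun i => ?_, fun k => k.elim0⟩
  have : (1 : (A⟦X⟧)ᵐᵒᵖ) = 0 := by
    apply unop_injective
    ext i
    exact Subsingleton.elim _ _
  rw [← one_smul (A⟦X⟧)ᵐᵒᵖ (m i), this, zero_smul]
  simp

/-- The main theorem. -/
theorem wglDim_powerSeries_eq_one_iff :
    wglDim A⟦X⟧ = 1 ↔ Nontrivial A ∧ VNR A ∧ Sep A := by
  rw [← PFmat_iff, ← wglDim_le_one_iff]
  constructor
  · intro h
    refine ⟨?_, h.le⟩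
    by_contra hA
    rw [not_nontrivial_iff_subsingleton] at hA
    rw [wglDim_of_subsingleton] at h
    exact absurd h (by decide)
  · rintro ⟨hA, h⟩
    apply le_antisymm h
    rw [Order.one_le_iff_ne_zero]
    exact wglDim_ne_zero

end

end Run7.h150
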